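import Pool.Agent.Y262.QE.Def

/-!
# Deformations of a frame: linear algebra in the plane
-/

set_option autoImplicit false

open Set Filter Topology MeasureTheory
open Pool.Agent.Y262.QE

noncomputable section

namespace Pool.Agent.J4.H45.PS

/-- the trace of a real linear endomorphism of the plane -/
def tr (B : ℂ →L[ℝ] ℂ) : ℝ := (B 1).re + (B Complex.I).im

theorem inner_c (w z : ℂ) : inner ℝ w z = w.re * z.re + w.im * z.im := by
  rw [Complex.inner]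
  simp [Complex.mul_re]
  ring

theorem det_c (B : ℂ →L[ℝ] ℂ) :
    B.det = (B 1).re * (B Complex.I).im - (B Complex.I).re * (B 1).im := by
  show LinearMap.det (B : ℂ →ₗ[ℝ] ℂ) = _
  rw [← LinearMap.det_toMatrix Complex.basisOneI, Matrix.det_fin_two]
  simp [LinearMap.toMatrix_apply, Complex.basisOneI]

theorem app_c (B : ℂ →L[ℝ] ℂ) (y : ℂ) : B y = y.re • B 1 + y.im • B Complex.I := by
  conv_lhs => rw [← Complex.re_add_im y]
  have h1 : ((y.re : ℂ) + (y.im : ℂ) * Complex.I) = y.re • (1 : ℂ) + y.im • Complex.I := by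
    simp
  rw [h1, map_add, map_smul, map_smul]

/-- the characterization of the gradient -/
theorem grd_inner (A : ℂ →L[ℝ] ℂ) (P : ℂ →L[ℝ] ℝ) (y : ℂ) :
    inner ℝ (grd A P) y = P (A.inverse y) := by
  have h1 : A.inverse y = y.re • A.inverse 1 + y.im • A.inverse Complex.I := app_c _ y
  rw [h1, map_add, map_smul, map_smul, inner_c]
  unfold grd
  simp only [smul_eq_mul]
  ring

theorem inv_of_det (A : ℂ →L[ℝ] ℂ) (h : A.det ≠ 0) : A.IsInvertible := by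
  have h1 : LinearMap.det (A : ℂ →ₗ[ℝ] ℂ) ≠ 0 := h
  refine ⟨(LinearEquiv.ofIsUnitDet (f := (A : ℂ →ₗ[ℝ] ℂ)) (v := Complex.basisOneI)
    (v' := Complex.basisOneI) ?_).toContinuousLinearEquiv, ?_⟩
  · rw [LinearMap.det_toMatrix]
    exact isUnit_iff_ne_zero.2 h1
  · ext y
    rfl

theorem det_mul (A B : ℂ →L[ℝ] ℂ) : (A.comp B).det = A.det * B.det := by
  exact LinearMap.det_comp (A : ℂ →ₗ[ℝ] ℂ) (B : ℂ →ₗ[ℝ] ℂ)

section pair

variable {A₀ A₁ : ℂ →L[ℝ] ℂ} (h₀ : A₀.det ≠ 0) (h₁ : A₁.det ≠ 0)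

/-- the deformation -/
def Sd (A₀ A₁ : ℂ →L[ℝ] ℂ) : ℂ →L[ℝ] ℂ := A₁.comp A₀.inverse

include h₀ in
theorem Sd_app (v : ℂ) : Sd A₀ A₁ (A₀ v) = A₁ v := by
  unfold Sd
  rw [ContinuousLinearMap.comp_apply, (inv_of_det A₀ h₀).inverse_apply_self]

include h₀ in
theorem Sd_det : (Sd A₀ A₁).det * A₀.det = A₁.det := by
  rw [← det_mul]
  congr 1
  ext1 v
  exact Sd_app h₀ v

include h₁ in
theorem grd_pair (P : ℂ →L[ℝ] ℝ) (y : ℂ) :
    inner ℝ (grd A₁ P) (Sd A₀ A₁ y) = inner ℝ (grd A₀ P) y := by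
  rw [grd_inner, grd_inner]
  congr 1
  unfold Sd
  rw [ContinuousLinearMap.comp_apply, (inv_of_det A₁ h₁).inverse_apply_self]

end pair

/-- the deformation of vectors and of the area to first order -/
theorem first {S B : ℂ →L[ℝ] ℂ} {w₀ w₁ : ℂ} (hw : ∀ y, inner ℝ w₁ (S y) = inner ℝ w₀ y)
    {K η τ : ℝ} (hK : 0 ≤ K) (hη : 0 ≤ η) (hB : ∀ y, ‖B y‖ ≤ K * ‖y‖)
    (hS : ∀ y, ‖S y - y - τ • B y‖ ≤ η * ‖y‖) (hθ : K * |τ| + η ≤ 1 / 2) :
    |S.det - 1 - τ * tr B| ≤ 2 * η + 2 * (K * |τ| + η) ^ 2 ∧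
    |‖w₁‖ ^ 2 * S.det - ‖w₀‖ ^ 2 - τ * (tr B * ‖w₀‖ ^ 2 - 2 * inner ℝ w₀ (B w₀))| ≤
      (16 * η + 40 * (K * |τ| + η) ^ 2) * ‖w₀‖ ^ 2 := by
  set θ := K * |τ| + η with hθd
  have hθ0 : 0 ≤ θ := by positivity
  have ht := abs_nonneg τ
  set E : ℂ → ℂ := fun y => S y - y - τ • B y with hE
  have hSE : ∀ y, S y = y + τ • B y + E y := by
    intro y; simp only [hE]; abel
  -- the distance of the vectors
  have hd1 : ∀ y, inner ℝ (w₁ - w₀) y = - inner ℝ w₁ (τ • B y + E y) := by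
    intro y
    have h1 := hw y
    rw [hSE, add_assoc, inner_add_right] at h1
    rw [inner_sub_left]
    linarith
  have hEB : ∀ y, ‖τ • B y + E y‖ ≤ θ * ‖y‖ := by
    intro y
    refine (norm_add_le _ _).trans ?_
    rw [norm_smul, Real.norm_eq_abs]
    have h1 := mul_le_mul_of_nonneg_left (hB y) ht
    have h2 := hS y
    have h3 : E y = S y - y - τ • B y := rfl
    rw [h3, hθd]
    linarith
  have hd2 : ‖w₁ - w₀‖ ≤ θ * ‖w₁‖ := by
    have h1 := hd1 (w₁ - w₀)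
    rw [real_inner_self_eq_norm_sq] at h1
    have h2 : ‖w₁ - w₀‖ ^ 2 ≤ ‖w₁‖ * (θ * ‖w₁ - w₀‖) := by
      rw [h1]
      refine (neg_le_abs _).trans ((abs_real_inner_le_norm _ _).trans ?_)
      exact mul_le_mul_of_nonneg_left (hEB _) (norm_nonneg _)
    rcases eq_or_lt_of_le (norm_nonneg (w₁ - w₀)) with h3 | h3
    · rw [← h3]; positivity
    · have h4 : ‖w₁ - w₀‖ * ‖w₁ - w₀‖ ≤ (θ * ‖w₁‖) * ‖w₁ - w₀‖ := by nlinarith
      exact le_of_mul_le_mul_right h4 h3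
  have hd3 : ‖w₁‖ ≤ ‖w₀‖ + ‖w₁ - w₀‖ := by
    have := norm_add_le w₀ (w₁ - w₀)
    simpa using this
  have hn0 := norm_nonneg w₀
  have hn1 := norm_nonneg w₁
  have hd4 : ‖w₁‖ ≤ 2 * ‖w₀‖ := by nlinarith
  have hd5 : ‖w₁ - w₀‖ ≤ 2 * θ * ‖w₀‖ := by nlinarith
  -- the norms
  have hnorm : |‖w₁‖ ^ 2 - ‖w₀‖ ^ 2 + 2 * (τ * inner ℝ w₀ (B w₀))| ≤
      (8 * θ ^ 2 + 4 * η) * ‖w₀‖ ^ 2 := by
    have h1 : ‖w₁‖ ^ 2 = ‖w₀‖ ^ 2 + 2 * inner ℝ (w₁ - w₀) w₀ + ‖w₁ - w₀‖ ^ 2 := by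
      have : w₁ = w₀ + (w₁ - w₀) := by abel
      conv_lhs => rw [this]
      rw [norm_add_sq_real, real_inner_comm]
    have h2 := hd1 w₀
    have h3 : inner ℝ w₁ (τ • B w₀ + E w₀) =
        τ * inner ℝ w₀ (B w₀) + τ * inner ℝ (w₁ - w₀) (B w₀) + inner ℝ w₁ (E w₀) := by
      rw [inner_add_right, inner_smul_right, inner_sub_left]
      ring
    rw [h3] at h2
    have h4 : ‖w₁‖ ^ 2 - ‖w₀‖ ^ 2 + 2 * (τ * inner ℝ w₀ (B w₀)) =
        -2 * (τ * inner ℝ (w₁ - w₀) (B w₀)) - 2 * inner ℝ w₁ (E w₀) + ‖w₁ - w₀‖ ^ 2 := by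
      rw [h1, h2]; ring
    rw [h4]
    have h5 : |τ * inner ℝ (w₁ - w₀) (B w₀)| ≤ θ * (2 * θ * ‖w₀‖) * ‖w₀‖ := by
      rw [abs_mul]
      have h6 := (abs_real_inner_le_norm (w₁ - w₀) (B w₀)).trans
        (mul_le_mul hd5 (hB w₀) (norm_nonneg _) (by positivity))
      have h7 := mul_le_mul_of_nonneg_left h6 ht
      have h8 : |τ| * (2 * θ * ‖w₀‖ * (K * ‖w₀‖)) = (K * |τ|) * (2 * θ * ‖w₀‖) * ‖w₀‖ := by ring
      have h9 : (K * |τ|) * (2 * θ * ‖w₀‖) * ‖w₀‖ ≤ θ * (2 * θ * ‖w₀‖) * ‖w₀‖ := by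
        have : K * |τ| ≤ θ := by rw [hθd]; linarith
        gcongr
      linarith
    have h6 : |inner ℝ w₁ (E w₀)| ≤ 2 * ‖w₀‖ * (η * ‖w₀‖) :=
      (abs_real_inner_le_norm _ _).trans (mul_le_mul hd4 (hS w₀) (norm_nonneg _) (by positivity))
    have h7 : ‖w₁ - w₀‖ ^ 2 ≤ (2 * θ * ‖w₀‖) ^ 2 := pow_le_pow_left₀ (norm_nonneg _) hd5 2
    have h8 : 0 ≤ ‖w₁ - w₀‖ ^ 2 := sq_nonneg _
    rw [abs_le] at h5 h6 ⊢
    constructor <;> nlinarith [h5.1, h5.2, h6.1, h6.2]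
  -- the determinant
  have hI : ‖(1 : ℂ)‖ = 1 := norm_one
  have hI' : ‖Complex.I‖ = 1 := Complex.norm_I
  have e1 := hS 1
  have e2 := hS Complex.I
  have b1 := hB 1
  have b2 := hB Complex.I
  rw [hI, mul_one] at e1 b1
  rw [hI', mul_one] at e2 b2
  have hS1 : S 1 = 1 + τ • B 1 + E 1 := hSE 1
  have hS2 : S Complex.I = Complex.I + τ • B Complex.I + E Complex.I := hSE _
  have hdet : |S.det - 1 - τ * tr B| ≤ 2 * η + 2 * θ ^ 2 := by
    rw [det_c, hS1, hS2]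
    simp only [Complex.add_re, Complex.add_im, Complex.one_re, Complex.one_im, Complex.I_re,
      Complex.I_im, Complex.real_smul, Complex.mul_re, Complex.mul_im, Complex.ofReal_re,
      Complex.ofReal_im, zero_mul, sub_zero, add_zero, zero_add]
    unfold tr
    have q1 : |τ * (B 1).re + (E 1).re| ≤ θ := by
      have h1 := abs_add_le (τ * (B 1).re) (E 1).re
      have h2 : |(E 1).re| ≤ η := (Complex.abs_re_le_norm _).trans e1
      have h3 : |τ * (B 1).re| ≤ |τ| * K := by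
        rw [abs_mul]
        exact mul_le_mul_of_nonneg_left ((Complex.abs_re_le_norm _).trans b1) ht
      rw [hθd]; linarith
    have q2 : |τ * (B 1).im + (E 1).im| ≤ θ := by
      have h1 := abs_add_le (τ * (B 1).im) (E 1).im
      have h2 : |(E 1).im| ≤ η := (Complex.abs_im_le_norm _).trans e1
      have h3 : |τ * (B 1).im| ≤ |τ| * K := by
        rw [abs_mul]
        exact mul_le_mul_of_nonneg_left ((Complex.abs_im_le_norm _).trans b1) ht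
      rw [hθd]; linarith
    have q3 : |τ * (B Complex.I).re + (E Complex.I).re| ≤ θ := by
      have h1 := abs_add_le (τ * (B Complex.I).re) (E Complex.I).re
      have h2 : |(E Complex.I).re| ≤ η := (Complex.abs_re_le_norm _).trans e2
      have h3 : |τ * (B Complex.I).re| ≤ |τ| * K := by
        rw [abs_mul]
        exact mul_le_mul_of_nonneg_left ((Complex.abs_re_le_norm _).trans b2) ht
      rw [hθd]; linarith
    have q4 : |τ * (B Complex.I).im + (E Complex.I).im| ≤ θ := by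
      have h1 := abs_add_le (τ * (B Complex.I).im) (E Complex.I).im
      have h2 : |(E Complex.I).im| ≤ η := (Complex.abs_im_le_norm _).trans e2
      have h3 : |τ * (B Complex.I).im| ≤ |τ| * K := by
        rw [abs_mul]
        exact mul_le_mul_of_nonneg_left ((Complex.abs_im_le_norm _).trans b2) ht
      rw [hθd]; linarith
    have r1 : |(E 1).re| ≤ η := (Complex.abs_re_le_norm _).trans e1
    have r2 : |(E Complex.I).im| ≤ η := (Complex.abs_im_le_norm _).trans e2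
    have s1 : |(τ * (B 1).re + (E 1).re) * (τ * (B Complex.I).im + (E Complex.I).im)| ≤ θ * θ := by
      rw [abs_mul]; exact mul_le_mul q1 q4 (abs_nonneg _) hθ0
    have s2 : |(τ * (B Complex.I).re + (E Complex.I).re) * (τ * (B 1).im + (E 1).im)| ≤ θ * θ := by
      rw [abs_mul]; exact mul_le_mul q3 q2 (abs_nonneg _) hθ0
    have key : (1 + τ * (B 1).re + (E 1).re) * (1 + τ * (B Complex.I).im + (E Complex.I).im) -
        (τ * (B Complex.I).re + (E Complex.I).re) * (τ * (B 1).im + (E 1).im) - 1 -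
        τ * ((B 1).re + (B Complex.I).im) = (E 1).re + (E Complex.I).im +
        (τ * (B 1).re + (E 1).re) * (τ * (B Complex.I).im + (E Complex.I).im) -
        (τ * (B Complex.I).re + (E Complex.I).re) * (τ * (B 1).im + (E 1).im) := by ring
    rw [key]
    rw [abs_le] at r1 r2 s1 s2 ⊢
    constructor <;> nlinarith [r1.1, r1.2, r2.1, r2.2, s1.1, s1.2, s2.1, s2.2]
  refine ⟨hdet, ?_⟩
  have htr : |τ * tr B| ≤ 2 * θ := by
    unfold tr
    rw [abs_mul]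
    have h1 : |(B 1).re + (B Complex.I).im| ≤ 2 * K := by
      have := abs_add_le (B 1).re (B Complex.I).im
      have h2 := (Complex.abs_re_le_norm (B 1)).trans b1
      have h3 := (Complex.abs_im_le_norm (B Complex.I)).trans b2
      linarith
    have h2 := mul_le_mul_of_nonneg_left h1 ht
    rw [hθd]
    nlinarith
  have hdet1 : |S.det - 1| ≤ 3 * θ + 2 * η := by
    have h1 : S.det - 1 = (S.det - 1 - τ * tr B) + τ * tr B := by ring
    rw [h1]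
    refine (abs_add_le _ _).trans ?_
    nlinarith
  have hdet2 : |S.det| ≤ 7 / 2 := by
    have h1 : S.det = (S.det - 1) + 1 := by ring
    rw [h1]
    refine (abs_add_le _ _).trans ?_
    rw [abs_one]
    have : η ≤ θ := by rw [hθd]; have : 0 ≤ K * |τ| := by positivity
                       linarith
    linarith
  have hBin : |τ * inner ℝ w₀ (B w₀)| ≤ (K * |τ|) * ‖w₀‖ ^ 2 := by
    rw [abs_mul]
    have h1 := (abs_real_inner_le_norm w₀ (B w₀)).trans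
      (mul_le_mul_of_nonneg_left (hB w₀) (norm_nonneg _))
    have h2 := mul_le_mul_of_nonneg_left h1 ht
    have h3 : |τ| * (‖w₀‖ * (K * ‖w₀‖)) = (K * |τ|) * ‖w₀‖ ^ 2 := by ring
    linarith
  have hsum : ‖w₁‖ ^ 2 * S.det - ‖w₀‖ ^ 2 - τ * (tr B * ‖w₀‖ ^ 2 - 2 * inner ℝ w₀ (B w₀)) =
      (‖w₁‖ ^ 2 - ‖w₀‖ ^ 2 + 2 * (τ * inner ℝ w₀ (B w₀))) * S.det +
      ‖w₀‖ ^ 2 * (S.det - 1 - τ * tr B) - 2 * (τ * inner ℝ w₀ (B w₀)) * (S.det - 1) := by ring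
  rw [hsum]
  have g1 : |(‖w₁‖ ^ 2 - ‖w₀‖ ^ 2 + 2 * (τ * inner ℝ w₀ (B w₀))) * S.det| ≤
      ((8 * θ ^ 2 + 4 * η) * ‖w₀‖ ^ 2) * |S.det| := by
    rw [abs_mul]; exact mul_le_mul_of_nonneg_right hnorm (abs_nonneg _)
  have hn2 : 0 ≤ ‖w₀‖ ^ 2 := sq_nonneg _
  have hηθ : η ≤ θ := by
    rw [hθd]
    have : 0 ≤ K * |τ| := by positivity
    linarith
  have g1' : ((8 * θ ^ 2 + 4 * η) * ‖w₀‖ ^ 2) * |S.det| ≤
      ((8 * θ ^ 2 + 4 * η) * ‖w₀‖ ^ 2) * (7 / 2) :=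
    mul_le_mul_of_nonneg_left hdet2 (by positivity)
  have g2 : |‖w₀‖ ^ 2 * (S.det - 1 - τ * tr B)| ≤ ‖w₀‖ ^ 2 * (2 * η + 2 * θ ^ 2) := by
    rw [abs_mul, abs_of_nonneg hn2]
    exact mul_le_mul_of_nonneg_left hdet hn2
  have g3 : |2 * (τ * inner ℝ w₀ (B w₀)) * (S.det - 1)| ≤ (2 * (θ * ‖w₀‖ ^ 2)) * (5 * θ) := by
    rw [abs_mul, abs_mul, abs_two]
    refine mul_le_mul ?_ ?_ (abs_nonneg _) (by positivity)
    · refine mul_le_mul_of_nonneg_left (hBin.trans ?_) (by norm_num)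
      refine mul_le_mul_of_nonneg_right ?_ hn2
      rw [hθd]; linarith
    · linarith
  have t1 := abs_sub ((‖w₁‖ ^ 2 - ‖w₀‖ ^ 2 + 2 * (τ * inner ℝ w₀ (B w₀))) * S.det +
      ‖w₀‖ ^ 2 * (S.det - 1 - τ * tr B)) (2 * (τ * inner ℝ w₀ (B w₀)) * (S.det - 1))
  have t2 := abs_add_le ((‖w₁‖ ^ 2 - ‖w₀‖ ^ 2 + 2 * (τ * inner ℝ w₀ (B w₀))) * S.det)
      (‖w₀‖ ^ 2 * (S.det - 1 - τ * tr B))
  have e3 : (16 * η + 40 * θ ^ 2) * ‖w₀‖ ^ 2 = ((8 * θ ^ 2 + 4 * η) * ‖w₀‖ ^ 2) * (7 / 2) +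
      ‖w₀‖ ^ 2 * (2 * η + 2 * θ ^ 2) + (2 * (θ * ‖w₀‖ ^ 2)) * (5 * θ) := by ring
  rw [e3]
  linarith

end Pool.Agent.J4.H45.PS
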