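import Pool.Agent.Y262.QE.Def
import Pool.Agent.J4.H45.PS.Pt

/-!
# Paths of Riemannian metrics on a closed surface: definitions

The metrics are given by their orthonormal coframes in the charts of a surface.
-/

set_option autoImplicit false

open Set Filter Topology MeasureTheory
open Pool.Agent.Y262.QE

noncomputable section

namespace Pool.Agent.J4.H45.PS

variable {M : Type}

/-- the surface with the charts of `D` and the coframes `A`: in the chart `i` the metric is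
`v ↦ ‖A i z v‖ ^ 2` -/
def fr (D : Data M) (A : Fin D.N → ℂ → ℂ →L[ℝ] ℂ) : Data M where
  N := D.N
  U := D.U
  φ := D.φ
  ψ := D.ψ
  A := A

/-- `t ↦ A t` is a differentiable path of coframes: `A (t + τ) = (1 + τ B t + o (τ)) A t`, uniformly
on the surface, and the velocity `B t` is at most `K`. The velocity of the metric `‖A t i z v‖ ^ 2`
is `2 ⟪w, B t i z w⟫` with `w = A t i z v`. -/
structure IsPath (D : Data M) (A B : ℝ → Fin D.N → ℂ → ℂ →L[ℝ] ℂ) (K : ℝ) : Prop where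
  nonneg : 0 ≤ K
  bound : ∀ t i, ∀ z ∈ D.T i, ∀ w, ‖B t i z w‖ ≤ K * ‖w‖
  deriv : ∀ t, ∀ ε : ℝ, 0 < ε → ∃ δ : ℝ, 0 < δ ∧ ∀ τ : ℝ, |τ| < δ → ∀ i, ∀ z ∈ D.T i, ∀ v,
    ‖A (t + τ) i z v - A t i z v - τ • B t i z (A t i z v)‖ ≤ ε * |τ| * ‖A t i z v‖

/-- the trace of the field `B` of endomorphisms: twice this is the trace of the velocity of the
metric; it is the logarithmic derivative of the area density -/
def trf (D : Data M) (B : Fin D.N → ℂ → ℂ →L[ℝ] ℂ) (x : M) : ℝ :=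
  ∑ i, (D.pc i).indicator (fun x => tr (B i (D.φ i x))) x

/-- the velocity of the density `‖G‖ ^ 2` of the Dirichlet integral:
`tr B ‖G‖ ^ 2 - 2 ⟪G, B G⟫`, where `G` is the gradient in the orthonormal frames -/
def qf (D : Data M) (B : Fin D.N → ℂ → ℂ →L[ℝ] ℂ) (G : M → ℂ) (x : M) : ℝ :=
  ∑ i, (D.pc i).indicator (fun x => tr (B i (D.φ i x)) * ‖G x‖ ^ 2 -
    2 * inner ℝ (G x) (B i (D.φ i x) (G x))) x

/-- `u 0, u 1, ...` is an orthonormal basis of `L² (μ)` of eigenfunctions of the surface `D` with the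
area `μ`, with the eigenvalues `lam 0 ≤ lam 1 ≤ ...`, and `G j` is the gradient of `u j` in the
orthonormal frames of `D`: the `L²` limit of the gradients of `C¹` functions which tend to `u j` -/
structure IsEigenbasis [MeasurableSpace M] (D : Data M) (μ : Measure M) (u : ℕ → M → ℝ)
    (G : ℕ → M → ℂ) (lam : ℕ → ℝ) : Prop where
  eig : ∀ j, D.IsEig μ (lam j) (u j)
  memG : ∀ j, MemLp (G j) 2 μ
  grad : ∀ j, ∃ F : ℕ → M → ℝ, (∀ k, D.C1 (F k)) ∧
    Tendsto (fun k => ∫ x, (F k x - u j x) ^ 2 ∂μ) atTop (𝓝 0) ∧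
    Tendsto (fun k => ∫ x, ‖D.gr (F k) x - G j x‖ ^ 2 ∂μ) atTop (𝓝 0)
  weak : ∀ j, ∀ F : M → ℝ, D.C1 F → ∫ x, inner ℝ (G j x) (D.gr F x) ∂μ = lam j * ∫ x, u j x * F x ∂μ
  mono : Monotone lam
  orth : ∀ i j, ∫ x, u i x * u j x ∂μ = if i = j then 1 else 0
  total : ∀ f : M → ℝ, MemLp f 2 μ → (∀ j, ∫ x, f x * u j x ∂μ = 0) → f =ᵐ[μ] 0

theorem path_deriv {D : Data M} {A B : ℝ → Fin D.N → ℂ → ℂ →L[ℝ] ℂ} {K : ℝ} (h : IsPath D A B K)
    (t : ℝ) (i : Fin D.N) (z : ℂ) (hz : z ∈ D.T i) (v : ℂ) :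
    HasDerivAt (fun s => A s i z v) (B t i z (A t i z v)) t := by
  rw [hasDerivAt_iff_isLittleO_nhds_zero, Asymptotics.isLittleO_iff]
  intro ε hε
  set c := ‖A t i z v‖ + 1 with hc
  have hcpos : 0 < c := by positivity
  obtain ⟨δ, hδ, h1⟩ := h.deriv t (ε / c) (by positivity)
  filter_upwards [Metric.ball_mem_nhds (0 : ℝ) hδ] with τ hτ
  rw [mem_ball_zero_iff, Real.norm_eq_abs] at hτ
  refine (h1 τ hτ i z hz v).trans ?_
  rw [Real.norm_eq_abs]
  have h2 : ε / c * |τ| * ‖A t i z v‖ ≤ ε / c * |τ| * c :=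
    mul_le_mul_of_nonneg_left (by linarith) (by positivity)
  have h3 : ε / c * |τ| * c = ε * |τ| := by field_simp
  linarith

/-- Grönwall's inequality -/
theorem path_le {D : Data M} {A B : ℝ → Fin D.N → ℂ → ℂ →L[ℝ] ℂ} {K : ℝ} (h : IsPath D A B K)
    (s t : ℝ) (i : Fin D.N) (z : ℂ) (hz : z ∈ D.T i) (v : ℂ) :
    ‖A s i z v‖ ≤ Real.exp (K * |s - t|) * ‖A t i z v‖ := by
  have key : ∀ (f f' : ℝ → ℂ), (∀ r, HasDerivAt f (f' r) r) → (∀ r, ‖f' r‖ ≤ K * ‖f r‖) →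
      ∀ b : ℝ, 0 ≤ b → ‖f b‖ ≤ Real.exp (K * b) * ‖f 0‖ := by
    intro f f' hf hb b hb0
    have h1 := norm_le_gronwallBound_of_norm_deriv_right_le (f := f) (f' := f') (δ := ‖f 0‖)
      (K := K) (ε := 0) (a := 0) (b := b) (fun r _ => (hf r).continuousAt.continuousWithinAt)
      (fun r _ => (hf r).hasDerivWithinAt) le_rfl (fun r _ => by rw [add_zero]; exact hb r)
      b ⟨hb0, le_rfl⟩
    rw [gronwallBound_ε0, sub_zero, mul_comm] at h1
    exact h1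
  rcases le_total t s with hst | hst
  · have h1 := key (fun r => A (t + r) i z v) (fun r => B (t + r) i z (A (t + r) i z v))
      (fun r => (path_deriv h (t + r) i z hz v).comp_const_add t r)
      (fun r => h.bound _ _ _ hz _) (s - t) (by linarith)
    simp only [add_sub_cancel, add_zero] at h1
    rw [abs_of_nonneg (by linarith : 0 ≤ s - t)]
    exact h1
  · have h1 := key (fun r => A (t - r) i z v) (fun r => -B (t - r) i z (A (t - r) i z v))
      (fun r => (path_deriv h (t - r) i z hz v).comp_const_sub t r)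
      (fun r => by rw [norm_neg]; exact h.bound _ _ _ hz _) (t - s) (by linarith)
    simp only [sub_sub_cancel, sub_zero] at h1
    rw [abs_sub_comm, abs_of_nonneg (by linarith : 0 ≤ t - s)]
    exact h1

/-- gradients are Lipschitz along the path -/
theorem grd_le' {A₀ A₁ : ℂ →L[ℝ] ℂ} (h₀ : A₀.det ≠ 0) (h₁ : A₁.det ≠ 0) (c : ℝ)
    (h : ∀ v, ‖A₀ v‖ ≤ c * ‖A₁ v‖) (P : ℂ →L[ℝ] ℝ) : ‖grd A₁ P‖ ≤ c * ‖grd A₀ P‖ := by
  have h2 : A₁ (A₁.inverse (grd A₁ P)) = grd A₁ P := (inv_of_det A₁ h₁).self_apply_inverse _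
  have h3 : inner ℝ (grd A₁ P) (grd A₁ P) = inner ℝ (grd A₀ P) (A₀ (A₁.inverse (grd A₁ P))) := by
    rw [← grd_pair (A₀ := A₀) h₁ P, Sd_app h₀, h2]
  rw [real_inner_self_eq_norm_sq] at h3
  have h4 : ‖grd A₁ P‖ ^ 2 ≤ ‖grd A₀ P‖ * (c * ‖grd A₁ P‖) := by
    rw [h3]
    refine (real_inner_le_norm _ _).trans (mul_le_mul_of_nonneg_left ?_ (norm_nonneg _))
    have := h (A₁.inverse (grd A₁ P))
    rwa [h2] at this
  rcases eq_or_lt_of_le (norm_nonneg (grd A₁ P)) with h5 | h5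
  · rw [← h5]
    by_cases h6 : ‖grd A₀ P‖ = 0
    · rw [h6, mul_zero]
    · have h7 : 0 < ‖grd A₀ P‖ := lt_of_le_of_ne (norm_nonneg _) (Ne.symm h6)
      have h8 := h (A₁.inverse (grd A₀ P))
      have h9 : A₁ (A₁.inverse (grd A₀ P)) = grd A₀ P := (inv_of_det A₁ h₁).self_apply_inverse _
      rw [h9] at h8
      exact (norm_nonneg _).trans h8
  · have h6 : ‖grd A₁ P‖ * ‖grd A₁ P‖ ≤ (c * ‖grd A₀ P‖) * ‖grd A₁ P‖ := by nlinarith
    exact le_of_mul_le_mul_right h6 h5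

theorem det_le (S : ℂ →L[ℝ] ℂ) (c : ℝ) (h : ∀ v, ‖S v‖ ≤ c * ‖v‖) : |S.det| ≤ c ^ 2 := by
  have h1 := h 1
  have h2 := h Complex.I
  rw [norm_one, mul_one] at h1
  rw [Complex.norm_I, mul_one] at h2
  have h3 : |S.det| ≤ ‖S 1‖ * ‖S Complex.I‖ := by
    rw [det_c]
    have h4 : ((S 1).re * (S Complex.I).im - (S Complex.I).re * (S 1).im) ^ 2 ≤
        (‖S 1‖ * ‖S Complex.I‖) ^ 2 := by
      rw [mul_pow, Complex.sq_norm, Complex.sq_norm, Complex.normSq_apply, Complex.normSq_apply]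
      nlinarith [sq_nonneg ((S 1).re * (S Complex.I).re + (S 1).im * (S Complex.I).im)]
    exact abs_le_of_sq_le_sq h4 (by positivity)
  have h5 : ‖S 1‖ * ‖S Complex.I‖ ≤ c * c :=
    mul_le_mul h1 h2 (norm_nonneg _) ((norm_nonneg _).trans h1)
  nlinarith

theorem det_pair {A₀ A₁ : ℂ →L[ℝ] ℂ} (h₀ : A₀.det ≠ 0) (c : ℝ)
    (h : ∀ v, ‖A₁ v‖ ≤ c * ‖A₀ v‖) : |A₁.det| ≤ c ^ 2 * |A₀.det| := by
  rw [← Sd_det (A₀ := A₀) (A₁ := A₁) h₀, abs_mul]
  refine mul_le_mul_of_nonneg_right (det_le _ c fun v => ?_) (abs_nonneg _)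
  have h2 : A₀ (A₀.inverse v) = v := (inv_of_det A₀ h₀).self_apply_inverse _
  conv_rhs => rw [← h2]
  conv_lhs => rw [← h2]
  rw [Sd_app h₀]
  exact h _

end Pool.Agent.J4.H45.PS
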