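import Mathlib

/-!
# The inequality for the coefficients
-/

set_option autoImplicit false

noncomputable section

namespace Pool.Agent.J4.H45.PS

theorem scal {lam g C ε : ℝ} (hlam : 0 ≤ lam) (hg : 0 < g) (hC : 0 < C) (hε : 0 < ε) :
    ∃ θ : ℝ, 0 < θ ∧ ∃ ε₁ : ℝ, 0 < ε₁ ∧ ∃ T₀ : ℝ, 0 < T₀ ∧ ∀ (Ke Le κ τ s2 x2 Es L Kc : ℝ),
      |Ke| ≤ C → |κ| ≤ 2 * C → lam * κ = lam * Ke - Le → |τ| < T₀ → 0 ≤ s2 → 0 ≤ x2 → 0 ≤ Es →
      Es ≤ (lam - g) * s2 → |L - x2 * Le| ≤ C * ((1 + 1 / θ) * Es + θ * (x2 * lam)) →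
      |Kc - x2 * Ke| ≤ C * ((1 + 1 / θ) * s2 + θ * x2) →
      0 ≤ lam * (1 - κ * τ) + ε * |τ| ∧ C * |τ| + 2 * ε₁ * |τ| ≤ 1 / 2 ∧
      (Es + lam * x2) * (1 + ε₁ * |τ|) + τ * L + ε₁ * |τ| * (s2 + x2) ≤
        (lam * (1 - κ * τ) + ε * |τ|) * ((s2 + x2) * (1 - 2 * ε₁ * |τ|) + τ * Kc) := by
  set m : ℝ := lam + 1 with hm
  have hm1 : 1 ≤ m := by linarith
  have hm0 : 0 < m := by linarith
  have hlm : lam ≤ m := by linarith
  set θ : ℝ := ε / (12 * m * C) with hθ
  have hθ0 : 0 < θ := by positivity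
  set ε₁ : ℝ := ε / (20 * m) with hε₁
  have hε₁0 : 0 < ε₁ := by positivity
  set C' : ℝ := C * (1 + 1 / θ) with hC'
  have hC'0 : 0 < C' := by positivity
  set T₀ : ℝ := min (min (1 / (4 * (C + 2 * ε₁))) (1 / ε))
    (min (ε / (4 * (2 * C ^ 2 * m + ε * C))) (g / (m * (2 * C + 6 * ε₁ + 4 * C')))) with hT₀
  refine ⟨θ, hθ0, ε₁, hε₁0, T₀, by positivity, ?_⟩
  intro Ke Le κ τ s2 x2 Es L Kc hKe hκ hrel hτ hs2 hx2 hEs hEs' hL hKc
  set T := |τ| with hT
  have hT0 : 0 ≤ T := abs_nonneg _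
  have t1 : T * (4 * (C + 2 * ε₁)) ≤ 1 := by
    have := (hτ.trans_le ((min_le_left _ _).trans (min_le_left _ _))).le
    rwa [le_div_iff₀ (by positivity)] at this
  have t2 : T * ε ≤ 1 := by
    have := (hτ.trans_le ((min_le_left _ _).trans (min_le_right _ _))).le
    rwa [le_div_iff₀ hε] at this
  have t3 : T * (4 * (2 * C ^ 2 * m + ε * C)) ≤ ε := by
    have := (hτ.trans_le ((min_le_right _ _).trans (min_le_left _ _))).le
    rwa [le_div_iff₀ (by positivity)] at this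
  have t4 : T * (m * (2 * C + 6 * ε₁ + 4 * C')) ≤ g := by
    have := (hτ.trans_le ((min_le_right _ _).trans (min_le_right _ _))).le
    rwa [le_div_iff₀ (by positivity)] at this
  have t1' : T * (4 * (C + 2 * ε₁)) = 4 * (C * T) + 8 * (ε₁ * T) := by ring
  rw [t1'] at t1
  have hεT : 0 ≤ ε₁ * T := mul_nonneg hε₁0.le hT0
  have hCT : C * T ≤ 1 / 4 := by linarith
  have hκτ : |κ * τ| ≤ 2 * C * T := by
    rw [abs_mul]
    exact mul_le_mul_of_nonneg_right hκ hT0
  have hκτ' := abs_le.1 hκτ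
  set Λ : ℝ := lam * (1 - κ * τ) + ε * T with hΛ
  have hΛ0 : 0 ≤ Λ := by
    have h1 : 0 ≤ 1 - κ * τ := by linarith
    have := mul_nonneg hlam h1
    positivity
  have hΛlow : lam - 2 * C * lam * T ≤ Λ := by
    have h1 : lam * (1 - 2 * C * T) ≤ lam * (1 - κ * τ) :=
      mul_le_mul_of_nonneg_left (by linarith) hlam
    have h2 : 0 ≤ ε * T := by positivity
    have h3 : lam * (1 - 2 * C * T) = lam - 2 * C * lam * T := by ring
    linarith
  have hΛup : Λ ≤ 2 * m + 1 / 2 := by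
    have h1 : lam * (1 - κ * τ) ≤ lam * (3 / 2) :=
      mul_le_mul_of_nonneg_left (by linarith) hlam
    have h2 : T * ε = ε * T := mul_comm _ _
    rw [h2] at t2
    linarith
  have hΛup' : Λ ≤ 3 * m := by linarith
  refine ⟨hΛ0, by linarith, ?_⟩
  obtain ⟨hKe1, hKe2⟩ := abs_le.1 hKe
  -- bounds for `τ L` and `τ Kc`
  have hL' : τ * L ≤ τ * (x2 * Le) + T * (C' * (lam * s2) + C * θ * (x2 * lam)) := by
    have h1 : τ * (L - x2 * Le) ≤ T * |L - x2 * Le| := by
      refine (le_abs_self _).trans (le_of_eq ?_)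
      rw [abs_mul]
    have h2 : C * ((1 + 1 / θ) * Es + θ * (x2 * lam)) ≤
        C' * (lam * s2) + C * θ * (x2 * lam) := by
      have h3 : Es ≤ lam * s2 := by
        have h5 : 0 ≤ g * s2 := by positivity
        have h6 : (lam - g) * s2 = lam * s2 - g * s2 := by ring
        linarith
      have h4 : C * ((1 + 1 / θ) * Es) ≤ C' * (lam * s2) := by
        rw [hC', ← mul_assoc]
        exact mul_le_mul_of_nonneg_left h3 (by positivity)
      have h5 : C * ((1 + 1 / θ) * Es + θ * (x2 * lam)) =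
          C * ((1 + 1 / θ) * Es) + C * θ * (x2 * lam) := by ring
      linarith
    have h3 := mul_le_mul_of_nonneg_left (hL.trans h2) hT0
    linarith
  have hK' : τ * (x2 * Ke) - T * (C' * s2 + C * θ * x2) ≤ τ * Kc := by
    have h1 : -(T * |Kc - x2 * Ke|) ≤ τ * (Kc - x2 * Ke) := by
      have : |τ * (Kc - x2 * Ke)| = T * |Kc - x2 * Ke| := by rw [abs_mul]
      rw [← this]
      exact neg_abs_le _
    have h2 : C * ((1 + 1 / θ) * s2 + θ * x2) = C' * s2 + C * θ * x2 := by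
      rw [hC']; ring
    rw [h2] at hKc
    have h3 := mul_le_mul_of_nonneg_left hKc hT0
    linarith
  -- the coefficient of `x2`
  have e1 : 5 * m * ε₁ = ε / 4 := by rw [hε₁]; field_simp; ring
  have e2 : 3 * m * (C * θ) = ε / 4 := by rw [hθ]; field_simp; ring
  have ha : lam * (1 + ε₁ * T) + τ * Le + T * (C * θ * lam) + ε₁ * T ≤
      Λ * (1 - 2 * ε₁ * T + τ * Ke - T * (C * θ)) := by
    have h1 : Λ * (1 - 2 * ε₁ * T + τ * Ke - T * (C * θ)) = Λ + Λ * (τ * Ke) -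
        Λ * (T * (2 * ε₁ + C * θ)) := by ring
    have h2 : Λ + Λ * (τ * Ke) = lam + τ * Le + (ε * T - lam * κ * Ke * τ ^ 2 +
        ε * T * (τ * Ke)) := by
      have : lam * κ * τ = (lam * Ke - Le) * τ := by rw [hrel]
      rw [hΛ]
      linear_combination (-1 : ℝ) * this
    have h3 : |lam * κ * Ke * τ ^ 2| ≤ (2 * C ^ 2 * m * T) * T := by
      rw [abs_mul, abs_mul, abs_mul, abs_of_nonneg hlam, abs_pow]
      have h4 : lam * |κ| ≤ m * (2 * C) := mul_le_mul hlm hκ (abs_nonneg _) hm0.le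
      have h5 : lam * |κ| * |Ke| ≤ m * (2 * C) * C := mul_le_mul h4 hKe (abs_nonneg _) (by positivity)
      have h6 := mul_le_mul_of_nonneg_right h5 (sq_nonneg T)
      have h7 : m * (2 * C) * C * T ^ 2 = (2 * C ^ 2 * m * T) * T := by ring
      linarith
    have h4 : |ε * T * (τ * Ke)| ≤ (ε * C * T) * T := by
      rw [abs_mul, abs_mul τ Ke, abs_of_nonneg (by positivity : 0 ≤ ε * T)]
      have h5 : T * |Ke| ≤ T * C := mul_le_mul_of_nonneg_left hKe hT0
      have h6 := mul_le_mul_of_nonneg_left h5 (by positivity : 0 ≤ ε * T)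
      have h7 : ε * T * (T * C) = (ε * C * T) * T := by ring
      linarith
    have h5 : (2 * C ^ 2 * m * T) * T + (ε * C * T) * T ≤ ε / 4 * T := by
      have h6 : (2 * C ^ 2 * m * T) * T + (ε * C * T) * T =
          (T * (2 * C ^ 2 * m + ε * C)) * T := by ring
      rw [h6]
      exact mul_le_mul_of_nonneg_right (by linarith) hT0
    have h6 : Λ * (T * (2 * ε₁ + C * θ)) ≤ (2 * m + 1 / 2) * (T * (2 * ε₁ + C * θ)) :=
      mul_le_mul_of_nonneg_right hΛup (by positivity)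
    have h7 : (2 * m + 1 / 2) * (T * (2 * ε₁ + C * θ)) + lam * (ε₁ * T) + T * (C * θ * lam) +
        ε₁ * T ≤ 3 / 4 * ε * T := by
      have h8 : (2 * m + 1 / 2) * (2 * ε₁ + C * θ) ≤ 5 / 2 * m * (2 * ε₁ + C * θ) :=
        mul_le_mul_of_nonneg_right (by linarith) (by positivity)
      have h9 : (2 * m + 1 / 2) * (2 * ε₁ + C * θ) + lam * ε₁ + C * θ * lam + ε₁ ≤
          3 / 4 * ε := by
        have h10 : lam * ε₁ + ε₁ = m * ε₁ := by rw [hm]; ring
        have h11 : C * θ * lam ≤ m * (C * θ) := by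
          rw [mul_comm]; exact mul_le_mul_of_nonneg_right hlm (by positivity)
        have h12 : 5 / 2 * m * (2 * ε₁ + C * θ) = 5 * m * ε₁ + 5 / 2 * (m * (C * θ)) := by ring
        have h13 : 0 ≤ m * (C * θ) := by positivity
        have h14 : 0 ≤ m * ε₁ := by positivity
        have h15 : 5 * m * ε₁ = 5 * (m * ε₁) := by ring
        have h16 : 3 * m * (C * θ) = 3 * (m * (C * θ)) := by ring
        linarith
      have := mul_le_mul_of_nonneg_right h9 hT0
      linear_combination this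
    rw [h1, h2]
    have h8 := (abs_le.1 h3).2
    have h9 := (abs_le.1 h4).1
    linear_combination h8 + h9 + h5 + h6 + h7
  have hb : (lam - g) * (1 + ε₁ * T) + T * (C' * lam) + ε₁ * T ≤
      Λ * (1 - 2 * ε₁ * T - T * C') := by
    have h1 : Λ * (1 - 2 * ε₁ * T - T * C') = Λ - Λ * (T * (2 * ε₁ + C')) := by ring
    have h2 : Λ * (T * (2 * ε₁ + C')) ≤ (5 / 2 * m) * (T * (2 * ε₁ + C')) :=
      mul_le_mul_of_nonneg_right (by linarith) (by positivity)
    have h3 : (lam - g) * (1 + ε₁ * T) ≤ lam - g + m * (ε₁ * T) - ε₁ * T := by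
      have : 0 ≤ g * (ε₁ * T) := by positivity
      rw [hm]; linear_combination this
    have h4 : T * (C' * lam) ≤ T * (C' * m) - T * C' := le_of_eq (by rw [hm]; ring)
    have h5 : 2 * C * lam * T ≤ 2 * C * m * T := by gcongr
    rw [h1]
    have h6 : T * (m * (2 * C + 6 * ε₁ + 4 * C')) = 2 * C * m * T + 6 * (m * (ε₁ * T)) +
        4 * (T * (C' * m)) := by ring
    rw [h6] at t4
    have h7 : (5 / 2 * m) * (T * (2 * ε₁ + C')) = 5 * (m * (ε₁ * T)) + 5 / 2 * (T * (C' * m)) := by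
      ring
    have h8 : 0 ≤ T * C' := by positivity
    have h9 : 0 ≤ T * (C' * m) := by positivity
    have h10 : 0 ≤ m * (ε₁ * T) := by positivity
    linarith
  have f1 := mul_le_mul_of_nonneg_right ha hx2
  have f2 := mul_le_mul_of_nonneg_right hb hs2
  have f3 := mul_le_mul_of_nonneg_left hK' hΛ0
  have f4 : Es * (1 + ε₁ * T) ≤ (lam - g) * s2 * (1 + ε₁ * T) :=
    mul_le_mul_of_nonneg_right hEs' (by positivity)
  linear_combination f1 + f2 + f3 + f4 + hL'

end Pool.Agent.J4.H45.PS
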