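import Pool.Agent.J4.H45.PS.Fld
import Pool.Agent.J4.H45.PS.Scal

/-!
# One-sided derivatives of the eigenvalues along a path of metrics
-/

set_option autoImplicit false

open Set Filter Topology MeasureTheory
open scoped Real
open Pool.Agent.Y262.QE Pool.Agent.Y264.QR

noncomputable section

namespace Pool.Agent.J4.H45.PS

section L2

variable {M : Type} [MeasurableSpace M] {μ : Measure M}
  {E : Type*} [NormedAddCommGroup E] [InnerProductSpace ℝ E]

theorem l2_inner {f g : M → E} (hf : MemLp f 2 μ) (hg : MemLp g 2 μ) :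
    inner ℝ hf.toLp hg.toLp = ∫ x, inner ℝ (f x) (g x) ∂μ := by
  rw [L2.inner_def]
  refine integral_congr_ae ?_
  filter_upwards [hf.coeFn_toLp, hg.coeFn_toLp] with x h1 h2
  rw [h1, h2]

theorem l2_norm {f : M → E} (hf : MemLp f 2 μ) : ‖hf.toLp‖ ^ 2 = ∫ x, ‖f x‖ ^ 2 ∂μ := by
  rw [← real_inner_self_eq_norm_sq, l2_inner hf hf]
  simp only [real_inner_self_eq_norm_sq]

theorem inner_lim {g : M → E} (hg : MemLp g 2 μ) {X : ℕ → M → E} (hX : ∀ k, MemLp (X k) 2 μ)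
    {Y : M → E} (hY : MemLp Y 2 μ)
    (h : Tendsto (fun k => ∫ x, ‖X k x - Y x‖ ^ 2 ∂μ) atTop (𝓝 0)) :
    Tendsto (fun k => ∫ x, inner ℝ (g x) (X k x) ∂μ) atTop (𝓝 (∫ x, inner ℝ (g x) (Y x) ∂μ)) := by
  have h1 : Tendsto (fun k => (hX k).toLp) atTop (𝓝 hY.toLp) := by
    rw [tendsto_iff_norm_sub_tendsto_zero]
    have h2 := h.sqrt
    rw [Real.sqrt_zero] at h2
    refine h2.congr fun k => ?_
    rw [← MemLp.toLp_sub, ← Real.sqrt_sq (norm_nonneg ((hX k).sub hY).toLp), l2_norm]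
    rfl
  have h3 : Tendsto (fun k => inner ℝ hg.toLp (hX k).toLp) atTop (𝓝 (inner ℝ hg.toLp hY.toLp)) :=
    tendsto_const_nhds.inner h1
  simp only [l2_inner] at h3
  exact h3

theorem orth_sum {n : ℕ} {X : Fin n → M → E} (hX : ∀ p, MemLp (X p) 2 μ) {e : Fin n → ℝ}
    (ho : ∀ p q, ∫ x, inner ℝ (X p x) (X q x) ∂μ = if p = q then e p else 0) (c : Fin n → ℝ) :
    ∫ x, ‖∑ p, c p • X p x‖ ^ 2 ∂μ = ∑ p, e p * c p ^ 2 := by
  have h1 : ∫ x, ‖∑ p, c p • X p x‖ ^ 2 ∂μ = ‖∑ p, c p • (hX p).toLp‖ ^ 2 := by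
    rw [← real_inner_self_eq_norm_sq, L2.inner_def]
    refine integral_congr_ae ?_
    filter_upwards [coe_sum Finset.univ c (fun p => (hX p).toLp) X fun p => (hX p).coeFn_toLp]
      with x hx
    rw [hx, real_inner_self_eq_norm_sq]
  rw [h1, ← real_inner_self_eq_norm_sq, sum_inner]
  refine Finset.sum_congr rfl fun p _ => ?_
  rw [inner_sum, Finset.sum_eq_single p]
  · rw [inner_smul_left, inner_smul_right, l2_inner, ho, if_pos rfl]
    simp only [conj_trivial]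
    ring
  · intro q _ hq
    rw [inner_smul_left, inner_smul_right, l2_inner, ho, if_neg (Ne.symm hq)]
    simp
  · intro hp
    exact absurd (Finset.mem_univ p) hp

/-- the densities are at most `C ‖f‖ ^ 2` -/
theorem quad_bd {q : M → E → ℝ} {C : ℝ} (hq : QD μ q C) {f : M → E} (hf : MemLp f 2 μ) :
    |∫ x, q x (f x) ∂μ| ≤ C * ∫ x, ‖f x‖ ^ 2 ∂μ := by
  rw [← Real.norm_eq_abs, ← integral_const_mul]
  refine norm_integral_le_of_norm_le (hf.norm.integrable_sq.const_mul C)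
    (Eventually.of_forall fun x => ?_)
  have h3 := hq.lip x (f x) 0
  rw [hq.zero, sub_zero, sub_zero, norm_zero, add_zero, ← sq] at h3
  rw [Real.norm_eq_abs]
  exact h3

/-- the indices `0, ..., i - 1, j` -/
def idx (i j : ℕ) (p : Fin (i + 1)) : ℕ := if p.1 < i then p.1 else j

theorem idx_cast (i j : ℕ) (p : Fin i) : idx i j p.castSucc = p.1 := by
  simp [idx, p.2]

theorem idx_last (i j : ℕ) : idx i j (Fin.last i) = j := by
  simp [idx]

theorem idx_inj {i j : ℕ} (h : i ≤ j) : Function.Injective (idx i j) := by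
  intro p q hpq
  have hp := p.2
  have hq := q.2
  unfold idx at hpq
  apply Fin.ext
  split_ifs at hpq <;> omega

theorem split {q : M → E → ℝ} {C : ℝ} (hq : QD μ q C)
    (hh : ∀ x (a : ℝ) w, q x (a • w) = a ^ 2 * q x w) {X : ℕ → M → E}
    (hX : ∀ p, MemLp (X p) 2 μ) {e : ℕ → ℝ}
    (ho : ∀ p q, ∫ x, inner ℝ (X p x) (X q x) ∂μ = if p = q then e p else 0) {i j : ℕ}
    (hij : i ≤ j) (c : Fin (i + 1) → ℝ) :
    (∫ x, ‖∑ p, c p • X (idx i j p) x‖ ^ 2 ∂μ =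
      ∑ p : Fin i, e p * c p.castSucc ^ 2 + e j * c (Fin.last i) ^ 2) ∧
    ∀ θ : ℝ, 0 < θ → |∫ x, q x (∑ p, c p • X (idx i j p) x) ∂μ -
      c (Fin.last i) ^ 2 * ∫ x, q x (X j x) ∂μ| ≤
        C * ((1 + 1 / θ) * ∑ p : Fin i, e p * c p.castSucc ^ 2 + θ * (c (Fin.last i) ^ 2 * e j)) := by
  have hn : ∀ p, ∫ x, ‖X p x‖ ^ 2 ∂μ = e p := by
    intro p
    have := ho p p
    simp only [real_inner_self_eq_norm_sq, if_pos] at this
    exact this
  constructor
  · rw [orth_sum (X := fun p => X (idx i j p)) (e := fun p => e (idx i j p)) (fun p => hX _)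
      (fun p q => ?_) c, Fin.sum_univ_castSucc, idx_last]
    · simp only [idx_cast]
    · rw [ho]
      simp only [(idx_inj hij).eq_iff]
  · intro θ hθ
    have m1 : MemLp (fun x => ∑ p, c p • X (idx i j p) x) 2 μ :=
      memLp_finset_sum _ fun p _ => (hX _).const_smul (c p)
    have m2 : MemLp (fun x => c (Fin.last i) • X j x) 2 μ := (hX j).const_smul _
    have h1 := quad_near hq m1 m2 hθ
    have e1 : ∀ x, ∑ p, c p • X (idx i j p) x - c (Fin.last i) • X j x =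
        ∑ p : Fin i, c p.castSucc • X p x := by
      intro x
      rw [Fin.sum_univ_castSucc, idx_last, add_sub_cancel_right]
      simp only [idx_cast]
    have e2 : ∫ x, ‖∑ p : Fin i, c p.castSucc • X p x‖ ^ 2 ∂μ =
        ∑ p : Fin i, e p * c p.castSucc ^ 2 := by
      rw [orth_sum (X := fun p : Fin i => X p) (e := fun p : Fin i => e p) (fun p => hX _)
        (fun p q => ?_) (fun p => c p.castSucc)]
      rw [ho]
      simp only [Fin.val_inj]
    have e3 : ∫ x, ‖c (Fin.last i) • X j x‖ ^ 2 ∂μ = c (Fin.last i) ^ 2 * e j := by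
      rw [← hn, ← integral_const_mul]
      refine integral_congr_ae (Eventually.of_forall fun x => ?_)
      show ‖c (Fin.last i) • X j x‖ ^ 2 = _
      rw [norm_smul, mul_pow, Real.norm_eq_abs, sq_abs]
    have e4 : ∫ x, q x (c (Fin.last i) • X j x) ∂μ = c (Fin.last i) ^ 2 * ∫ x, q x (X j x) ∂μ := by
      rw [← integral_const_mul]
      exact integral_congr_ae (Eventually.of_forall fun x => hh x _ _)
    simp only [e1] at h1
    rw [e2, e3, e4] at h1
    exact h1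

end L2

section basis

variable {M : Type} [MetricSpace M] [CompactSpace M] [MeasurableSpace M] [BorelSpace M]
  {D : Data M} {μ : Measure M} {u : ℕ → M → ℝ} {G : ℕ → M → ℂ} {lam : ℕ → ℝ}

theorem memF (hD : D.IsSurf μ) {F : M → ℝ} (hF : D.C1 F) : MemLp F 2 μ := by
  obtain ⟨hfin, -⟩ := tFin M μ D hD
  have := hfin
  have hc := ((tGr M μ D hD).1 F hF).1
  obtain ⟨C', hC'⟩ := isCompact_univ.exists_bound_of_continuousOn hc.continuousOn
  exact MemLp.of_bound hc.aestronglyMeasurable C' (Eventually.of_forall fun x => hC' x (mem_univ x))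

theorem memgr (hD : D.IsSurf μ) {F : M → ℝ} (hF : D.C1 F) : MemLp (D.gr F) 2 μ := by
  obtain ⟨hfin, -⟩ := tFin M μ D hD
  have := hfin
  obtain ⟨C', hC'⟩ := ((tGr M μ D hD).1 F hF).2.2
  exact MemLp.of_bound ((tGr M μ D hD).1 F hF).2.1.aestronglyMeasurable C' (Eventually.of_forall hC')

theorem orthG (hD : D.IsSurf μ) (hb : IsEigenbasis D μ u G lam) (p q : ℕ) :
    ∫ x, inner ℝ (G p x) (G q x) ∂μ = if p = q then lam p else 0 := by
  obtain ⟨F, hF1, hF2, hF3⟩ := hb.grad q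
  have h1 := inner_lim (hb.memG p) (fun k => memgr hD (hF1 k)) (hb.memG q) hF3
  have h2 : Tendsto (fun k => ∫ x, ‖F k x - u q x‖ ^ 2 ∂μ) atTop (𝓝 0) := by
    simp only [Real.norm_eq_abs, sq_abs]
    exact hF2
  have h3 := inner_lim (hb.eig p).mem (fun k => memF hD (hF1 k)) (hb.eig q).mem h2
  have e : ∀ a b : ℝ, inner ℝ a b = a * b := fun a b => by simp [mul_comm]
  simp only [e] at h3
  have h4 : Tendsto (fun k => ∫ x, inner ℝ (G p x) (D.gr (F k) x) ∂μ) atTop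
      (𝓝 (lam p * ∫ x, u p x * u q x ∂μ)) := by
    simp only [fun k => hb.weak p (F k) (hF1 k)]
    exact h3.const_mul _
  rw [tendsto_nhds_unique h1 h4, hb.orth]
  split_ifs <;> ring

theorem lam_nonneg (hD : D.IsSurf μ) (hb : IsEigenbasis D μ u G lam) (j : ℕ) : 0 ≤ lam j := by
  have h := orthG hD hb j j
  rw [if_pos rfl] at h
  rw [← h]
  exact integral_nonneg fun x => real_inner_self_nonneg

theorem normG (hD : D.IsSurf μ) (hb : IsEigenbasis D μ u G lam) (j : ℕ) :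
    ∫ x, ‖G j x‖ ^ 2 ∂μ = lam j := by
  have h := orthG hD hb j j
  rw [if_pos rfl] at h
  rw [← h]
  simp only [real_inner_self_eq_norm_sq]

theorem orthU (hb : IsEigenbasis D μ u G lam) (p q : ℕ) :
    ∫ x, inner ℝ (u p x) (u q x) ∂μ = if p = q then (fun _ => (1 : ℝ)) p else 0 := by
  rw [← hb.orth p q]
  refine integral_congr_ae (Eventually.of_forall fun x => ?_)
  show inner ℝ (u p x) (u q x) = u p x * u q x
  simp [mul_comm]

theorem normU (hb : IsEigenbasis D μ u G lam) (j : ℕ) : ∫ x, ‖u j x‖ ^ 2 ∂μ = 1 := by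
  have h := orthU hb j j
  rw [if_pos rfl] at h
  simp only [real_inner_self_eq_norm_sq] at h
  exact h

end basis

section der

variable {M : Type} [MetricSpace M] [CompactSpace M] [MeasurableSpace M] [BorelSpace M]
  [Nonempty M] {D : Data M} {A B : ℝ → Fin D.N → ℂ → ℂ →L[ℝ] ℂ} {K : ℝ} {μ : ℝ → Measure M}
  {u : ℝ → ℕ → M → ℝ} {G : ℝ → ℕ → M → ℂ} {lam : ℝ → ℕ → ℝ}

/-- the pairing of the velocity of the metric with the stress-energy tensor of the
eigenfunction -/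
def kap (D : Data M) (B : Fin D.N → ℂ → ℂ →L[ℝ] ℂ) (μ : Measure M) (u : M → ℝ) (G : M → ℂ)
    (lam : ℝ) : ℝ :=
  ∫ x, trf D B x * u x ^ 2 ∂μ - lam⁻¹ * ∫ x, qf D B G x ∂μ

theorem wt_meas (h : IsPath D A B K) (hS : ∀ t, (fr D (A t)).IsSurf (μ t)) (t : ℝ) :
    QD (μ t) (fun (x : M) (w : ℝ) => trf D (B t) x * ‖w‖ ^ 2) (2 * K) :=
  QD_wt (trf_meas h hS t) (mul_nonneg (by norm_num) h.nonneg) (trf_bound h (hS t).cover t)

theorem kap_bounds (h : IsPath D A B K) (hS : ∀ t, (fr D (A t)).IsSurf (μ t))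
    (hb : ∀ t, IsEigenbasis (fr D (A t)) (μ t) (u t) (G t) (lam t)) (t : ℝ) (j : ℕ) :
    |∫ x, trf D (B t) x * ‖u t j x‖ ^ 2 ∂μ t| ≤ 2 * K ∧
    |∫ x, qd D (B t) x (G t j x) ∂μ t| ≤ 4 * K * lam t j ∧
    |∫ x, trf D (B t) x * ‖u t j x‖ ^ 2 ∂μ t - (lam t j)⁻¹ * ∫ x, qd D (B t) x (G t j x) ∂μ t| ≤
      6 * K ∧
    lam t j * (∫ x, trf D (B t) x * ‖u t j x‖ ^ 2 ∂μ t -
      (lam t j)⁻¹ * ∫ x, qd D (B t) x (G t j x) ∂μ t) =
      lam t j * ∫ x, trf D (B t) x * ‖u t j x‖ ^ 2 ∂μ t - ∫ x, qd D (B t) x (G t j x) ∂μ t := by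
  have h1 := quad_bd (wt_meas h hS t) ((hb t).eig j).mem
  rw [normU (hb t), mul_one] at h1
  have h2 := quad_bd (qd_QD h hS t (μ t)) ((hb t).memG j)
  rw [normG (hS t) (hb t)] at h2
  have hl := lam_nonneg (hS t) (hb t) j
  have hK := h.nonneg
  refine ⟨h1, h2, ?_, ?_⟩
  · have h3 : |(lam t j)⁻¹ * ∫ x, qd D (B t) x (G t j x) ∂μ t| ≤ 4 * K := by
      rw [abs_mul, abs_of_nonneg (inv_nonneg.2 hl)]
      rcases eq_or_lt_of_le hl with h0 | h0
      · rw [← h0, inv_zero, zero_mul]; positivity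
      · calc (lam t j)⁻¹ * |∫ x, qd D (B t) x (G t j x) ∂μ t| ≤ (lam t j)⁻¹ * (4 * K * lam t j) :=
            mul_le_mul_of_nonneg_left h2 (inv_nonneg.2 hl)
          _ = 4 * K := by field_simp
    refine (abs_sub _ _).trans ?_
    linarith
  · rcases eq_or_lt_of_le hl with h0 | h0
    · rw [← h0, mul_zero] at h2
      have h3 : ∫ x, qd D (B t) x (G t j x) ∂μ t = 0 := abs_nonpos_iff.1 h2
      rw [h3]; ring
    · field_simp

/-- the upper bound for the upper derivatives -/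
theorem der (h : IsPath D A B K) (hS : ∀ t, (fr D (A t)).IsSurf (μ t))
    (hb : ∀ t, IsEigenbasis (fr D (A t)) (μ t) (u t) (G t) (lam t)) (t : ℝ) (i j : ℕ)
    (hij : lam t i = lam t j) (hlt : ∀ l < i, lam t l < lam t i) {ε : ℝ} (hε : 0 < ε) :
    ∃ δ : ℝ, 0 < δ ∧ ∀ τ : ℝ, |τ| < δ → lam (t + τ) i ≤
      lam t i * (1 - (∫ x, trf D (B t) x * ‖u t j x‖ ^ 2 ∂μ t -
        (lam t j)⁻¹ * ∫ x, qd D (B t) x (G t j x) ∂μ t) * τ) + ε * |τ| := by
  have hK := h.nonneg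
  set C : ℝ := 4 * K + 1 with hC
  have hC0 : 0 < C := by positivity
  have hle : i ≤ j := by
    by_contra hcon
    exact absurd hij.symm (hlt j (not_le.1 hcon)).ne
  obtain ⟨g, hg, hgap⟩ : ∃ g : ℝ, 0 < g ∧ ∀ p : Fin i, lam t p ≤ lam t i - g := by
    rcases Nat.eq_zero_or_pos i with h0 | h0
    · refine ⟨1, one_pos, fun p => ?_⟩
      exact absurd p.2 (by omega)
    · refine ⟨lam t i - lam t (i - 1), sub_pos.2 (hlt _ (by omega)), fun p => ?_⟩
      rw [sub_sub_cancel]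
      exact (hb t).mono (by have := p.2; omega)
  have hl := lam_nonneg (hS t) (hb t) i
  obtain ⟨θ, hθ, ε₁, hε₁, T₀, hT₀, hsc⟩ := scal hl hg hC0 hε
  obtain ⟨δ₁, hδ₁, hf⟩ := path_first h hS t ε₁ hε₁
  obtain ⟨b1, b2, b3, b4⟩ := kap_bounds h hS hb t j
  set Ke := ∫ x, trf D (B t) x * ‖u t j x‖ ^ 2 ∂μ t with hKe
  set Le := ∫ x, qd D (B t) x (G t j x) ∂μ t with hLe
  set κ := Ke - (lam t j)⁻¹ * Le with hκ
  rw [← hij] at b4
  refine ⟨min T₀ δ₁, lt_min hT₀ hδ₁, fun τ hτ => ?_⟩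
  have hτ1 := hτ.trans_le (min_le_left _ _)
  have hτ2 := hτ.trans_le (min_le_right _ _)
  rcases eq_or_ne τ 0 with h0 | h0
  · simp [h0]
  have hT : 0 < |τ| := abs_pos.2 h0
  have hη : 0 < ε₁ * |τ| := mul_pos hε₁ hT
  obtain ⟨hf1, hf2⟩ : (∀ x, |rho D (A t) (A (t + τ)) x - 1 - τ * trf D (B t) x| ≤ ε₁ * |τ|) ∧
      ∀ F : M → ℝ, ∀ x, |rho D (A t) (A (t + τ)) x * ‖(fr D (A (t + τ))).gr F x‖ ^ 2 -
        ‖(fr D (A t)).gr F x‖ ^ 2 - τ * qf D (B t) ((fr D (A t)).gr F) x| ≤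
          ε₁ * |τ| * ‖(fr D (A t)).gr F x‖ ^ 2 :=
    ⟨fun x => (hf τ hτ2 x).1, fun F x => (hf τ hτ2 x).2 F⟩
  -- the general quantities
  have hbG := (hb t).memG
  have hbu : ∀ p, MemLp (u t p) 2 (μ t) := fun p => ((hb t).eig p).mem
  have Q1 := qd_QD h hS t (μ t)
  have Q2 := wt_meas h hS t
  have hh1 := qd_smul (hS t).cover (B t)
  have hh2 : ∀ x (a : ℝ) (w : ℝ), trf D (B t) x * ‖a • w‖ ^ 2 =
      a ^ 2 * (trf D (B t) x * ‖w‖ ^ 2) := by
    intro x a w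
    rw [norm_smul, mul_pow, Real.norm_eq_abs a, sq_abs]; ring
  have S1 := fun c => split (Q1.mono (by linarith : 4 * K ≤ C)) hh1 hbG
    (orthG (hS t) (hb t)) hle c
  have S2 := fun c => split (Q2.mono (by linarith : 2 * K ≤ C)) hh2 hbu (orthU (hb t)) hle c
  have hu1 : ∀ c : Fin (i + 1) → ℝ, ∑ p, c p ^ 2 =
      ∑ p : Fin i, c p.castSucc ^ 2 + c (Fin.last i) ^ 2 := fun c => Fin.sum_univ_castSucc _
  have key := fun c : Fin (i + 1) → ℝ => hsc Ke Le κ τ (∑ p : Fin i, c p.castSucc ^ 2)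
    (c (Fin.last i) ^ 2) (∑ p : Fin i, lam t p * c p.castSucc ^ 2)
    (∫ x, qd D (B t) x (∑ p, c p • G t (idx i j p) x) ∂μ t)
    (∫ x, trf D (B t) x * ‖∑ p, c p • u t (idx i j p) x‖ ^ 2 ∂μ t)
    (b1.trans (by linarith)) (b3.trans (by linarith)) b4 hτ1
    (Finset.sum_nonneg fun p _ => sq_nonneg _) (sq_nonneg _)
    (Finset.sum_nonneg fun p _ => mul_nonneg (lam_nonneg (hS t) (hb t) _) (sq_nonneg _))
    (by
      rw [Finset.mul_sum]
      exact Finset.sum_le_sum fun p _ => mul_le_mul_of_nonneg_right (hgap p) (sq_nonneg _))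
    (by
      have := (S1 c).2 θ hθ
      rw [← hij] at this
      exact this)
    (by
      have := (S2 c).2 θ hθ
      simp only [one_mul, mul_one] at this
      exact this)
  have C3 := QD.add (QD.add (QD_norm (μ := μ t) (E := ℂ) (M := M)) (Q1.smul τ))
    ((QD_norm (μ := μ t) (E := ℂ) (M := M)).smul (ε₁ * |τ|))
  set C₁ : ℝ := 1 + |τ| * (4 * K) + |(ε₁ * |τ|)| * 1 with hC₁
  have C4 : QD (μ t) (fun (x : M) (w : ℝ) => (1 + τ * trf D (B t) x - ε₁ * |τ|) * ‖w‖ ^ 2) C₁ := by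
    have mβ : Measurable fun x => 1 + τ * trf D (B t) x - ε₁ * |τ| :=
      (((trf_meas h hS t).const_mul τ).const_add 1).sub_const _
    refine QD_wt mβ C3.nonneg fun x => ?_
    have e1 := trf_bound h (hS t).cover t x
    have e2 : |τ * trf D (B t) x| ≤ |τ| * (4 * K) := by
      rw [abs_mul]
      exact mul_le_mul_of_nonneg_left (by linarith) (abs_nonneg _)
    have e3 := abs_le.1 e2
    rw [hC₁, abs_le, abs_of_pos hη]
    constructor <;> linarith [e3.1, e3.2]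
  have j1 : ∀ c : Fin (i + 1) → ℝ, ∫ x, (‖∑ p, c p • G t (idx i j p) x‖ ^ 2 +
      τ * qd D (B t) x (∑ p, c p • G t (idx i j p) x) +
      ε₁ * |τ| * ‖∑ p, c p • G t (idx i j p) x‖ ^ 2) ∂μ t =
      (∑ p : Fin i, lam t p * c p.castSucc ^ 2 + lam t i * c (Fin.last i) ^ 2) * (1 + ε₁ * |τ|) +
      τ * ∫ x, qd D (B t) x (∑ p, c p • G t (idx i j p) x) ∂μ t := by
    intro c
    have m1 : MemLp (fun x => ∑ p, c p • G t (idx i j p) x) 2 (μ t) :=
      memLp_finsetSum _ fun p _ => (hbG _).const_smul (c p)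
    have i1 : Integrable (fun x => ‖∑ p, c p • G t (idx i j p) x‖ ^ 2) (μ t) :=
      m1.norm.integrable_sq
    have i2 := quad_int Q1 m1
    have i3 : Integrable (fun x => ‖∑ p, c p • G t (idx i j p) x‖ ^ 2 +
      τ * qd D (B t) x (∑ p, c p • G t (idx i j p) x)) (μ t) := i1.add (i2.const_mul τ)
    rw [integral_add i3 (i1.const_mul _), integral_add i1 (i2.const_mul τ),
      integral_const_mul, integral_const_mul, (S1 c).1, hij]
    ring
  have j2 : ∀ c : Fin (i + 1) → ℝ, ∫ x, (1 + τ * trf D (B t) x - ε₁ * |τ|) *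
      ‖∑ p, c p • u t (idx i j p) x‖ ^ 2 ∂μ t =
      (∑ p : Fin i, c p.castSucc ^ 2 + c (Fin.last i) ^ 2) * (1 - ε₁ * |τ|) +
      τ * ∫ x, trf D (B t) x * ‖∑ p, c p • u t (idx i j p) x‖ ^ 2 ∂μ t := by
    intro c
    have m1 : MemLp (fun x => ∑ p, c p • u t (idx i j p) x) 2 (μ t) :=
      memLp_finsetSum _ fun p _ => (hbu _).const_smul (c p)
    have i1 : Integrable (fun x => ‖∑ p, c p • u t (idx i j p) x‖ ^ 2) (μ t) :=
      m1.norm.integrable_sq
    have i2 := quad_int Q2 m1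
    have e1 : ∀ x, (1 + τ * trf D (B t) x - ε₁ * |τ|) * ‖∑ p, c p • u t (idx i j p) x‖ ^ 2 =
        (1 - ε₁ * |τ|) * ‖∑ p, c p • u t (idx i j p) x‖ ^ 2 +
        τ * (trf D (B t) x * ‖∑ p, c p • u t (idx i j p) x‖ ^ 2) := fun x => by ring
    simp only [e1]
    rw [integral_add (i1.const_mul _) (i2.const_mul τ), integral_const_mul, integral_const_mul,
      (S2 c).1]
    simp only [one_mul]
    ring
  obtain ⟨g1, g2, -⟩ := key 0
  refine trial (hS t) (hS (t + τ)) ⟨_, fun x => (path_comp h hS (t + τ) t x).1⟩ (hb t)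
    (basis_eig (hb (t + τ))) i (idx i j) C3 C4 ?_ ?_ _ g1 (ε₁ * |τ|) hη ?_ ?_
  · intro F hF x
    have := (abs_le.1 (hf2 F x)).2
    rw [qf_eq (D := D) (hS t).cover] at this
    linarith
  · intro x w
    have := (abs_le.1 (hf1 x)).1
    rw [Real.norm_eq_abs, sq_abs]
    exact mul_le_mul_of_nonneg_right (by linarith) (sq_nonneg _)
  · intro c
    have k1 := (key c).2.2
    have k2 := j2 c
    simp only [smul_eq_mul] at k1 k2
    rw [j1, k2, hu1]
    linear_combination k1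
  · intro c hc
    have k2 := j2 c
    have hs : 0 < ∑ p, c p ^ 2 := by
      obtain ⟨p, hp⟩ := Function.ne_iff.1 hc
      exact lt_of_lt_of_le (sq_pos_of_ne_zero hp : 0 < c p ^ 2)
        (Finset.single_le_sum (f := fun p => c p ^ 2) (fun p _ => sq_nonneg _) (Finset.mem_univ p))
    have m1 : MemLp (fun x => ∑ p, c p • u t (idx i j p) x) 2 (μ t) :=
      memLp_finsetSum _ fun p _ => (hbu _).const_smul (c p)
    have k3 := quad_bd Q2 m1
    rw [(S2 c).1] at k3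
    simp only [one_mul] at k3
    rw [← hu1] at k2 k3
    have k4 : -(C * |τ| * ∑ p, c p ^ 2) ≤
        τ * ∫ x, trf D (B t) x * ‖∑ p, c p • u t (idx i j p) x‖ ^ 2 ∂μ t := by
      refine le_trans ?_ (neg_abs_le _)
      rw [abs_mul, neg_le_neg_iff]
      have := mul_le_mul_of_nonneg_left k3 (abs_nonneg τ)
      refine this.trans ?_
      have : |τ| * (2 * K * ∑ p, c p ^ 2) = 2 * K * (|τ| * ∑ p, c p ^ 2) := by ring
      rw [this, mul_assoc C]
      exact mul_le_mul_of_nonneg_right (by linarith) (by positivity)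
    simp only [smul_eq_mul] at k2 k4
    rw [k2]
    have k5 : (C * |τ| + 2 * ε₁ * |τ|) * ∑ p, c p ^ 2 ≤ 1 / 2 * ∑ p, c p ^ 2 :=
      mul_le_mul_of_nonneg_right g2 hs.le
    linarith

end der

end Pool.Agent.J4.H45.PS
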