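import Pool.Agent.J4.H45.PS.Mic

/-!
# Existence of bases of eigenfunctions with their gradients
-/

set_option autoImplicit false

open Set Filter Topology MeasureTheory
open scoped Real NNReal
open Pool.Agent.Y262.QE Pool.Agent.Y264.QR

noncomputable section

namespace Pool.Agent.J4.H45.PS

variable {M : Type} [MetricSpace M] [CompactSpace M] [MeasurableSpace M] [BorelSpace M]
  {D : Data M} {μ : Measure M}

theorem grad_ex (hD : D.IsSurf μ) {u : M → ℝ} {lam : ℝ} (h : D.IsEig μ lam u) :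
    ∃ G : M → ℂ, MemLp G 2 μ ∧
      (∃ F : ℕ → M → ℝ, (∀ k, D.C1 (F k)) ∧
        Tendsto (fun k => ∫ x, (F k x - u x) ^ 2 ∂μ) atTop (𝓝 0) ∧
        Tendsto (fun k => ∫ x, ‖D.gr (F k) x - G x‖ ^ 2 ∂μ) atTop (𝓝 0)) ∧
      ∀ F : M → ℝ, D.C1 F → ∫ x, inner ℝ (G x) (D.gr F x) ∂μ = lam * ∫ x, u x * F x ∂μ := by
  obtain ⟨F, hF1, hF2, hF3, hF4⟩ := h.ex
  have mg : ∀ k, MemLp (D.gr (F k)) 2 μ := fun k => memgr hD (hF1 k)
  have hnorm : ∀ k l, ‖(mg k).toLp - (mg l).toLp‖ ^ 2 =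
      ∫ x, ‖D.gr (F k) x - D.gr (F l) x‖ ^ 2 ∂μ := by
    intro k l
    rw [← MemLp.toLp_sub, l2_norm]
    rfl
  have hC : CauchySeq fun k => (mg k).toLp := by
    rw [cauchySeq_iff_tendsto_dist_atTop_0]
    have h2 := hF3.sqrt
    rw [Real.sqrt_zero] at h2
    have h3 : Tendsto (fun p : ℕ × ℕ => dist (mg p.1).toLp (mg p.2).toLp) atTop (𝓝 0) := by
      refine h2.congr fun p => ?_
      rw [dist_eq_norm, ← hnorm, Real.sqrt_sq (norm_nonneg _)]
    exact h3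
  obtain ⟨g, hg⟩ := cauchySeq_tendsto_of_complete hC
  have mG : MemLp (g : M → ℂ) 2 μ := Lp.memLp g
  have hG : Tendsto (fun k => ∫ x, ‖D.gr (F k) x - g x‖ ^ 2 ∂μ) atTop (𝓝 0) := by
    have h1 : Tendsto (fun k => ‖(mg k).toLp - g‖ ^ 2) atTop (𝓝 0) := by
      have h2 := (tendsto_iff_norm_sub_tendsto_zero.1 hg).pow 2
      simpa using h2
    refine h1.congr fun k => ?_
    have h3 : (mg k).toLp - g = ((mg k).sub mG).toLp := by
      rw [MemLp.toLp_sub (mg k) mG, Lp.toLp_coeFn g mG]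
    rw [h3, l2_norm]
    rfl
  refine ⟨g, mG, ⟨F, hF1, hF2, hG⟩, fun H hH => ?_⟩
  have h1 := inner_lim (memgr hD hH) mg mG hG
  have h2 := hF4 H hH
  have h3 : Tendsto (fun k => ∫ x, inner ℝ (D.gr H x) (D.gr (F k) x) ∂μ) atTop
      (𝓝 (lam * ∫ x, u x * H x ∂μ)) := by
    refine h2.congr fun k => ?_
    exact integral_congr_ae (Eventually.of_forall fun x => real_inner_comm _ _)
  rw [← tendsto_nhds_unique h1 h3]
  exact integral_congr_ae (Eventually.of_forall fun x => real_inner_comm _ _)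

/-- every closed surface has an orthonormal basis of eigenfunctions -/
theorem basis_ex [hM : Nonempty M] (hD : D.IsSurf μ) :
    ∃ (u : ℕ → M → ℝ) (G : ℕ → M → ℂ) (lam : ℕ → ℝ), IsEigenbasis D μ u G lam := by
  obtain ⟨u, lam, h⟩ := tEx M μ D hD hM 0
  rw [conf_zero, wm_zero] at h
  choose G h1 h2 h3 using fun j => grad_ex hD (h.eig j)
  exact ⟨u, G, lam, h.eig, h1, h2, h3, h.mono, h.orth, h.total⟩

end Pool.Agent.J4.H45.PS
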