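import Pool.Agent.Y147.QR.AE

/-!
# Weak convergence of the derivatives of Lipschitz functions of several variables, derivatives of
ordered branches at a point
-/

set_option autoImplicit false

open Set Filter Topology MeasureTheory
open scoped Real NNReal ContDiff

noncomputable section

namespace Pool.Agent.J4.H45.PS

section wk

variable {E : Type*} [NormedAddCommGroup E] [NormedSpace ℝ E] [FiniteDimensional ℝ E]
  [MeasurableSpace E] [BorelSpace E]

theorem wk_smooth (ν : Measure E) [ν.IsAddHaarMeasure] (f : ℕ → E → ℝ) (f₀ : E → ℝ) (L : ℝ≥0)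
    (hf : ∀ j, LipschitzWith L (f j)) (hf₀ : LipschitzWith L f₀)
    (hlim : ∀ s, Tendsto (fun j => f j s) atTop (𝓝 (f₀ s))) (w : E) (g : E → ℝ)
    (hg : ContDiff ℝ ∞ g) (hgc : HasCompactSupport g) :
    Tendsto (fun j => ∫ s, g s * lineDeriv ℝ (f j) s w ∂ν) atTop
      (𝓝 (∫ s, g s * lineDeriv ℝ f₀ s w ∂ν)) := by
  obtain ⟨L', hL'⟩ : ∃ L' : ℝ≥0, LipschitzWith L' g :=
    ContDiff.lipschitzWith_of_hasCompactSupport hgc hg (by simp)
  have e : ∀ f' : E → ℝ, LipschitzWith L f' →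
      ∫ s, g s * lineDeriv ℝ f' s w ∂ν = ∫ s, lineDeriv ℝ g s (-w) * f' s ∂ν := by
    intro f' hf'
    rw [← hf'.integral_lineDeriv_mul_eq hL' hgc w]
    exact integral_congr_ae (Eventually.of_forall fun s => mul_comm _ _)
  rw [e f₀ hf₀]
  simp only [fun j => e (f j) (hf j)]
  -- a bound
  obtain ⟨C, hC⟩ : ∃ C : ℝ, ∀ j, |f j 0| ≤ C := by
    obtain ⟨C, hC⟩ := (hlim 0).abs.bddAbove_range
    exact ⟨C, fun j => hC ⟨j, rfl⟩⟩
  have hbd : ∀ j s, |f j s| ≤ C + L * ‖s‖ := by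
    intro j s
    have h1 := (hf j).dist_le_mul s 0
    rw [Real.dist_eq, dist_zero_right] at h1
    have h2 : |f j s| ≤ |f j s - f j 0| + |f j 0| := by
      have := abs_add_le (f j s - f j 0) (f j 0)
      simpa using this
    linarith [hC j]
  have hlc : Continuous fun s => lineDeriv ℝ g s (-w) := by
    have h1 : (fun s => lineDeriv ℝ g s (-w)) = fun s => fderiv ℝ g s (-w) := by
      funext s
      exact ((hg.differentiable (by simp)) s).lineDeriv_eq_fderiv
    rw [h1]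
    exact (hg.continuous_fderiv (by simp)).clm_apply continuous_const
  have hls : HasCompactSupport fun s => lineDeriv ℝ g s (-w) := by
    have h1 : (fun s => lineDeriv ℝ g s (-w)) = fun s => fderiv ℝ g s (-w) := by
      funext s
      exact ((hg.differentiable (by simp)) s).lineDeriv_eq_fderiv
    rw [h1]
    exact hgc.fderiv_apply (𝕜 := ℝ) (-w)
  refine tendsto_integral_of_dominated_convergence
    (fun s => ‖lineDeriv ℝ g s (-w) * (C + L * ‖s‖)‖) ?_ ?_ ?_ ?_
  · exact fun j => (hlc.mul (hf j).continuous).aestronglyMeasurable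
  · refine (Continuous.integrable_of_hasCompactSupport ?_ ?_).norm
    · fun_prop
    · exact hls.mul_right
  · refine fun j => Eventually.of_forall fun s => ?_
    rw [norm_mul, norm_mul, Real.norm_eq_abs (f j s), Real.norm_eq_abs (C + _)]
    refine mul_le_mul_of_nonneg_left ((hbd j s).trans (le_abs_self _)) (norm_nonneg _)
  · exact Eventually.of_forall fun s => (hlim s).const_mul _

theorem wk (ν : Measure E) [ν.IsAddHaarMeasure] (f : ℕ → E → ℝ) (f₀ : E → ℝ) (L : ℝ≥0)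
    (hf : ∀ j, LipschitzWith L (f j))
    (hlim : ∀ s, Tendsto (fun j => f j s) atTop (𝓝 (f₀ s))) (w : E) (κ : ℕ → E → ℝ) (κ₀ : E → ℝ)
    (hκ : ∀ j, ∀ᵐ s ∂ν, κ j s = lineDeriv ℝ (f j) s w)
    (hκ₀ : ∀ᵐ s ∂ν, κ₀ s = lineDeriv ℝ f₀ s w) (χ : E → ℝ) (hχ : Integrable χ ν) :
    Tendsto (fun j => ∫ s, χ s * κ j s ∂ν) atTop (𝓝 (∫ s, χ s * κ₀ s ∂ν)) := by
  have hf₀ : LipschitzWith L f₀ := by
    refine LipschitzWith.of_dist_le_mul fun s s' => ?_
    exact le_of_tendsto ((hlim s).dist (hlim s')) (Eventually.of_forall fun j =>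
      (hf j).dist_le_mul s s')
  have e1 : ∀ j, ∫ s, χ s * κ j s ∂ν = ∫ s, χ s * lineDeriv ℝ (f j) s w ∂ν := fun j =>
    integral_congr_ae ((hκ j).mono fun s hs => by simp only [hs])
  have e2 : ∫ s, χ s * κ₀ s ∂ν = ∫ s, χ s * lineDeriv ℝ f₀ s w ∂ν :=
    integral_congr_ae (hκ₀.mono fun s hs => by simp only [hs])
  simp only [e1, e2]
  set R : ℝ := L * ‖w‖ with hR
  have hR0 : 0 ≤ R := by positivity
  have key : ∀ f' : E → ℝ, LipschitzWith L f' → ∀ g : E → ℝ, Integrable g ν →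
      |∫ s, χ s * lineDeriv ℝ f' s w ∂ν - ∫ s, g s * lineDeriv ℝ f' s w ∂ν| ≤
        (∫ s, ‖χ s - g s‖ ∂ν) * R := by
    intro f' hf' g hg
    have hm : AEStronglyMeasurable (fun s => lineDeriv ℝ f' s w) ν :=
      aestronglyMeasurable_lineDeriv hf'.continuous ν
    have hb : ∀ s, ‖lineDeriv ℝ f' s w‖ ≤ R := fun s => norm_lineDeriv_le_of_lipschitz ℝ hf'
    have i1 : Integrable (fun s => χ s * lineDeriv ℝ f' s w) ν :=
      hχ.mul_bdd hm (Eventually.of_forall hb)
    have i2 : Integrable (fun s => g s * lineDeriv ℝ f' s w) ν :=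
      hg.mul_bdd hm (Eventually.of_forall hb)
    rw [← integral_sub i1 i2, ← Real.norm_eq_abs, ← integral_mul_const]
    refine norm_integral_le_of_norm_le ((hχ.sub hg).norm.mul_const R)
      (Eventually.of_forall fun s => ?_)
    rw [← sub_mul, norm_mul]
    exact mul_le_mul_of_nonneg_left (hb s) (norm_nonneg _)
  rw [Metric.tendsto_atTop]
  intro ε hε
  set ε' : ℝ := ε / (4 * (R + 1)) with hε'
  have hε'0 : 0 < ε' := by positivity
  obtain ⟨g, hg1, hg2, hg3⟩ := (memLp_one_iff_integrable.2 hχ).exist_eLpNorm_sub_le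
    ENNReal.one_ne_top le_rfl hε'0
  have hgi : Integrable g ν := hg2.continuous.integrable_of_hasCompactSupport hg1
  have hg4 : ∫ s, ‖χ s - g s‖ ∂ν ≤ ε' := by
    show ∫ s, ‖(χ - g) s‖ ∂ν ≤ ε'
    rw [integral_norm_eq_lintegral_enorm (hχ.sub hgi).aestronglyMeasurable]
    rw [eLpNorm_one_eq_lintegral_enorm] at hg3
    exact ENNReal.toReal_le_of_le_ofReal hε'0.le hg3
  obtain ⟨J, hJ⟩ := Metric.tendsto_atTop.1
    (wk_smooth ν f f₀ L hf hf₀ hlim w g hg2 hg1) (ε / 4) (by positivity)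
  refine ⟨J, fun j hj => ?_⟩
  have h1 := hJ j hj
  have h2 := key (f j) (hf j) g hgi
  have h3 := key f₀ hf₀ g hgi
  have h4 : (∫ s, ‖χ s - g s‖ ∂ν) * R ≤ ε / 4 := by
    have h5 := mul_le_mul_of_nonneg_right hg4 hR0
    have h6 : ε' * R ≤ ε / 4 := by
      rw [hε', div_mul_eq_mul_div, div_le_div_iff₀ (by positivity) (by norm_num)]
      nlinarith
    exact h5.trans h6
  rw [Real.dist_eq] at h1 ⊢
  rw [abs_le] at h2 h3
  rw [abs_lt] at h1 ⊢
  constructor <;> linarith [h1.1, h1.2, h2.1, h2.2, h3.1, h3.2]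

end wk

/-- the derivatives of the branches at a point at which all of them are differentiable -/
theorem at_pt (E κ : ℕ → ℝ → ℝ) (t : ℝ) (hm : ∀ i j s, i ≤ j → E i s ≤ E j s)
    (ht : ∀ j, DifferentiableAt ℝ (E j) t)
    (hd : ∀ i j, E i t = E j t → (∀ l, l < i → E l t < E i t) → ∀ ε : ℝ, 0 < ε →
      ∃ δ : ℝ, 0 < δ ∧ ∀ τ : ℝ, |τ| < δ →
        E i (t + τ) ≤ E i t * (1 - κ j t * τ) + ε * |τ|) (j : ℕ) :
    HasDerivAt (E j) (-(κ j t * E j t)) t := by
  classical
  have hex : ∃ i, E i t = E j t := ⟨j, rfl⟩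
  set i := Nat.find hex with hi
  have hij : E i t = E j t := Nat.find_spec hex
  have hle : i ≤ j := Nat.find_min' hex rfl
  have hlt : ∀ l, l < i → E l t < E i t := by
    intro l hl
    refine lt_of_le_of_ne (hm l i t hl.le) fun he => ?_
    exact Nat.find_min hex hl (he.trans hij)
  have hdi : deriv (E i) t = -(κ j t * E i t) := by
    refine Pool.Agent.Y147.QR.deriv_of_le (E i) _ _ t (ht i).hasDerivAt fun ε hε => ?_
    obtain ⟨δ, hδ, h1⟩ := hd i j hij hlt ε hε
    refine ⟨δ, hδ, fun τ hτ => (h1 τ hτ).trans (le_of_eq ?_)⟩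
    ring
  have hmin : IsLocalMin (fun s => E j s - E i s) t := by
    refine Eventually.of_forall fun s => ?_
    have h1 := hm i j s hle
    simp only [hij, sub_self]
    linarith
  have hz : HasDerivAt (fun s => E j s - E i s) (deriv (E j) t - deriv (E i) t) t :=
    (ht j).hasDerivAt.sub (ht i).hasDerivAt
  have h0 := hmin.hasDerivAt_eq_zero hz
  have h1 : deriv (E j) t = -(κ j t * E j t) := by
    rw [← hij, ← hdi]
    linarith
  rw [← h1]
  exact (ht j).hasDerivAt

end Pool.Agent.J4.H45.PS
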