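import Pool.Agent.J4.H45.PS.One
import Pool.Agent.J4.H45.PS.Wk

/-!
# Families of metrics with finitely many parameters
-/

set_option autoImplicit false

open Set Filter Topology MeasureTheory
open scoped Real NNReal
open Pool.Agent.Y262.QE Pool.Agent.Y264.QR

noncomputable section

namespace Pool.Agent.J4.H45.PS

section Def

variable {M : Type} {E : Type*} [NormedAddCommGroup E] [NormedSpace ℝ E]

/-- `s ↦ A s` is a differentiable family of coframes: `A (s + w) = (1 + B s w + o (w)) A s`,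
uniformly on the surface, and `B s` is linear and at most `K`. The derivative of the metric
`‖A s i z v‖ ^ 2` in the direction `w` is `2 ⟪a, B s w i z a⟫` with `a = A s i z v`. -/
structure IsFamily (D : Data M) (A : E → Fin D.N → ℂ → ℂ →L[ℝ] ℂ)
    (B : E → E →ₗ[ℝ] (Fin D.N → ℂ → ℂ →L[ℝ] ℂ)) (K : ℝ) : Prop where
  nonneg : 0 ≤ K
  bound : ∀ s w i, ∀ z ∈ D.T i, ∀ a, ‖B s w i z a‖ ≤ K * ‖w‖ * ‖a‖
  deriv : ∀ s, ∀ ε : ℝ, 0 < ε → ∃ δ : ℝ, 0 < δ ∧ ∀ w, ‖w‖ < δ → ∀ i, ∀ z ∈ D.T i, ∀ v,
    ‖A (s + w) i z v - A s i z v - B s w i z (A s i z v)‖ ≤ ε * ‖w‖ * ‖A s i z v‖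

theorem fam_path {D : Data M} {A : E → Fin D.N → ℂ → ℂ →L[ℝ] ℂ}
    {B : E → E →ₗ[ℝ] (Fin D.N → ℂ → ℂ →L[ℝ] ℂ)} {K : ℝ} (h : IsFamily D A B K) (s w : E) :
    IsPath D (fun t : ℝ => A (s + t • w)) (fun t : ℝ => B (s + t • w) w) (K * ‖w‖) where
  nonneg := mul_nonneg h.nonneg (norm_nonneg _)
  bound := fun t i z hz a => h.bound _ _ _ _ hz _
  deriv := fun t ε hε => by
    obtain ⟨δ, hδ, h1⟩ := h.deriv (s + t • w) (ε / (‖w‖ + 1)) (by positivity)
    refine ⟨δ / (‖w‖ + 1), by positivity, fun τ hτ i z hz v => ?_⟩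
    have h2 : ‖τ • w‖ < δ := by
      rw [norm_smul, Real.norm_eq_abs]
      have h3 : |τ| * (‖w‖ + 1) < δ := by rwa [lt_div_iff₀ (by positivity)] at hτ
      have h4 := abs_nonneg τ
      linarith
    have h3 := h1 (τ • w) h2 i z hz v
    have e1 : s + t • w + τ • w = s + (t + τ) • w := by rw [add_smul, add_assoc]
    have e2 : B (s + t • w) (τ • w) i z (A (s + t • w) i z v) =
        τ • B (s + t • w) w i z (A (s + t • w) i z v) := by
      rw [map_smul]
      rfl
    rw [e1, e2] at h3
    refine h3.trans ?_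
    refine mul_le_mul_of_nonneg_right ?_ (norm_nonneg _)
    rw [norm_smul, Real.norm_eq_abs, div_mul_eq_mul_div, div_le_iff₀ (by positivity)]
    have h5 := norm_nonneg w
    have h6 := abs_nonneg τ
    have h7 : 0 ≤ ε * |τ| := by positivity
    nlinarith

end Def

section main

variable {M : Type} [MetricSpace M] [CompactSpace M] [MeasurableSpace M] [BorelSpace M]
  [Nonempty M] {E : Type*} [NormedAddCommGroup E] [NormedSpace ℝ E] {D : Data M}
  {A : E → Fin D.N → ℂ → ℂ →L[ℝ] ℂ} {B : E → E →ₗ[ℝ] (Fin D.N → ℂ → ℂ →L[ℝ] ℂ)} {K : ℝ}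
  {μ : E → Measure M} {u : E → ℕ → M → ℝ} {G : E → ℕ → M → ℂ} {lam : E → ℕ → ℝ}

theorem lip_fam (h : IsFamily D A B K) (hS : ∀ s, (fr D (A s)).IsSurf (μ s))
    (hb : ∀ s, IsEigenbasis (fr D (A s)) (μ s) (u s) (G s) (lam s)) (j : ℕ) (s s' : E) :
    lam s j ≤ Real.exp (6 * K * ‖s - s'‖) * lam s' j := by
  have h1 := lip (fam_path h s' (s - s')) (μ := fun t : ℝ => μ (s' + t • (s - s')))
    (u := fun t : ℝ => u (s' + t • (s - s'))) (G := fun t : ℝ => G (s' + t • (s - s')))
    (lam := fun t : ℝ => lam (s' + t • (s - s'))) (fun t => hS _) (fun t => hb _) j 1 0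
  simp only [one_smul, zero_smul, add_zero, add_sub_cancel, sub_zero, abs_one, mul_one] at h1
  rw [mul_assoc]
  exact h1

/-- the logarithms of the eigenvalues are Lipschitz -/
theorem lip_log_fam (h : IsFamily D A B K) (hS : ∀ s, (fr D (A s)).IsSurf (μ s))
    (hb : ∀ s, IsEigenbasis (fr D (A s)) (μ s) (u s) (G s) (lam s)) (j : ℕ)
    (hp : ∀ s, 0 < lam s j) : LipschitzWith (6 * K).toNNReal fun s => Real.log (lam s j) := by
  have hK := h.nonneg
  have key : ∀ s t, Real.log (lam s j) ≤ Real.log (lam t j) + 6 * K * ‖s - t‖ := by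
    intro s t
    have h1 := Real.log_le_log (hp s) (lip_fam h hS hb j s t)
    rw [Real.log_mul (Real.exp_pos _).ne' (hp t).ne', Real.log_exp] at h1
    linarith
  refine LipschitzWith.of_dist_le_mul fun s t => ?_
  rw [Real.dist_eq, dist_eq_norm, Real.coe_toNNReal _ (by positivity), abs_le]
  have h1 := key s t
  have h2 := key t s
  rw [norm_sub_rev t s] at h2
  constructor <;> linarith

variable [FiniteDimensional ℝ E] [MeasurableSpace E] [BorelSpace E]

/-- the eigenvalues are almost everywhere differentiable; their derivatives -/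
theorem fam_diff (h : IsFamily D A B K) (hS : ∀ s, (fr D (A s)).IsSurf (μ s))
    (hb : ∀ s, IsEigenbasis (fr D (A s)) (μ s) (u s) (G s) (lam s)) (ν : Measure E)
    [ν.IsAddHaarMeasure] : ∀ᵐ s ∂ν, ∀ j, DifferentiableAt ℝ (fun s => lam s j) s ∧
      ∀ w, fderiv ℝ (fun s => lam s j) s w =
        -(kap D (B s w) (μ s) (u s j) (G s j) (lam s j) * lam s j) := by
  have h0 : ∀ᵐ s ∂ν, ∀ j, DifferentiableAt ℝ (fun s => lam s j) s := by
    refine ae_all_iff.2 fun j => ?_
    by_cases h0 : ∃ t, lam t j = 0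
    · obtain ⟨t, ht⟩ := h0
      have hz : (fun s => lam s j) = fun _ => 0 := by
        funext s
        have h1 := lip_fam h hS hb j s t
        rw [ht, mul_zero] at h1
        exact le_antisymm h1 (lam_nonneg (hS s) (hb s) j)
      rw [hz]
      exact Eventually.of_forall fun s => differentiableAt_const _
    · push Not at h0
      have hp : ∀ t, 0 < lam t j := fun t =>
        lt_of_le_of_ne (lam_nonneg (hS t) (hb t) j) (h0 t).symm
      filter_upwards [(lip_log_fam h hS hb j hp).ae_differentiableAt (μ := ν)] with s hs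
      have h1 : DifferentiableAt ℝ (fun s => Real.exp (Real.log (lam s j))) s := hs.exp
      have h2 : (fun s => Real.exp (Real.log (lam s j))) = fun s => lam s j := by
        funext s
        exact Real.exp_log (hp s)
      rwa [h2] at h1
  filter_upwards [h0] with s hs j
  refine ⟨hs j, fun w => ?_⟩
  have hline : ∀ j, HasDerivAt (fun t : ℝ => lam (s + t • w) j)
      (fderiv ℝ (fun s => lam s j) s w) 0 := fun j => (hs j).hasFDerivAt.hasLineDerivAt w
  have h1 := at_pt (fun j (t : ℝ) => lam (s + t • w) j)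
    (fun j t => kap D (B (s + t • w) w) (μ (s + t • w)) (u (s + t • w) j) (G (s + t • w) j)
      (lam (s + t • w) j)) 0 (fun i' j t hij => (hb _).mono hij)
    (fun j => (hline j).differentiableAt) (by
      intro i' j hij hl ε hε
      obtain ⟨δ, hδ, h1⟩ := der (fam_path h s w) (μ := fun t : ℝ => μ (s + t • w))
        (u := fun t : ℝ => u (s + t • w)) (G := fun t : ℝ => G (s + t • w))
        (lam := fun t : ℝ => lam (s + t • w)) (fun t => hS _) (fun t => hb _) 0 i' j hij hl hε
      refine ⟨δ, hδ, fun τ hτ => ?_⟩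
      have h2 := h1 τ hτ
      rw [← kap_eq (D := D) (hS s).cover] at h2
      exact h2) j
  have h2 := (hline j).unique h1
  simp only [zero_smul, add_zero] at h2
  exact h2

/-- the mean value of the trace of the velocity -/
def mn (D : Data M) (b : Fin D.N → ℂ → ℂ →L[ℝ] ℂ) (m : Measure M) : ℝ :=
  (∫ x, trf D b x ∂m) / m.real univ

theorem fam_weak (h : IsFamily D A B K) (hS : ∀ s, (fr D (A s)).IsSurf (μ s))
    (hb : ∀ s, IsEigenbasis (fr D (A s)) (μ s) (u s) (G s) (lam s)) (ν : Measure E)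
    [ν.IsAddHaarMeasure] (w : E) (χ : E → ℝ) (hχ : Integrable χ ν) :
    Tendsto (fun j => ∫ s, χ s * kap D (B s w) (μ s) (u s j) (G s j) (lam s j) ∂ν) atTop
      (𝓝 (∫ s, χ s * mn D (B s w) (μ s) ∂ν)) := by
  have hA : ∀ s, 0 < (μ s).real univ := fun s => by
    have := (area (fam_path h s 0) (μ := fun t : ℝ => μ (s + t • (0 : E))) (fun t => hS _) 0).1
    simpa using this
  have hA' : ∀ s, HasDerivAt (fun t : ℝ => (μ (s + t • w)).real univ)
      (∫ x, trf D (B s w) x ∂μ s) 0 := fun s => by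
    have := (area (fam_path h s w) (μ := fun t : ℝ => μ (s + t • w)) (fun t => hS _) 0).2
    simpa using this
  have hW : ∀ s, Tendsto (fun j : ℕ => lam s j / (j + 1)) atTop (𝓝 (4 * π / (μ s).real univ)) := by
    intro s
    obtain ⟨a, b, -, -, -, -, hw⟩ := pack (μ s) (fr D (A s)) (hS s) (u s) (lam s) (basis_eig (hb s))
    exact hw
  obtain ⟨J, hJ⟩ : ∃ J : ℕ, ∀ j, J ≤ j → ∀ s, 0 < lam s j := by
    have h2 : (0 : ℝ) < 4 * π / (μ 0).real univ := div_pos (by positivity) (hA 0)
    obtain ⟨J, hJ⟩ := eventually_atTop.1 ((hW 0).eventually (lt_mem_nhds h2))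
    refine ⟨J, fun j hj s => ?_⟩
    have h3 := hJ j hj
    have h4 : 0 < lam 0 j := by
      rcases eq_or_lt_of_le (lam_nonneg (hS 0) (hb 0) j) with h5 | h5
      · rw [← h5, zero_div] at h3
        exact absurd h3 (lt_irrefl _)
      · exact h5
    have h5 := h4.trans_le (lip_fam h hS hb j 0 s)
    exact (pos_iff_pos_of_mul_pos h5).1 (Real.exp_pos _)
  have hdiff := fam_diff h hS hb ν
  have hlog : ∀ (j : ℕ) s, Real.log (lam s (j + J) / (((j + J : ℕ) : ℝ) + 1)) =
      Real.log (lam s (j + J)) - Real.log (((j + J : ℕ) : ℝ) + 1) := fun j s =>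
    Real.log_div (hJ (j + J) (by omega) s).ne' (by positivity)
  have h1 := wk ν (fun j s => Real.log (lam s (j + J) / (((j + J : ℕ) : ℝ) + 1)))
    (fun s => Real.log (4 * π / (μ s).real univ)) (6 * K).toNNReal (fun j => by
      have h2 := lip_log_fam h hS hb (j + J) (hJ (j + J) (by omega))
      refine LipschitzWith.of_dist_le_mul fun s s' => ?_
      rw [hlog, hlog, dist_sub_right]
      exact h2.dist_le_mul s s') (fun s =>
      ((tendsto_add_atTop_iff_nat J).2 (hW s)).log (div_pos (by positivity) (hA _)).ne') w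
    (fun j s => -kap D (B s w) (μ s) (u s (j + J)) (G s (j + J)) (lam s (j + J)))
    (fun s => -mn D (B s w) (μ s)) (fun j => ?_) ?_ (fun s => -χ s) hχ.neg
  · simp only [neg_mul_neg] at h1
    exact (tendsto_add_atTop_iff_nat (f := fun j => ∫ s, χ s *
      kap D (B s w) (μ s) (u s j) (G s j) (lam s j) ∂ν) J).1 h1
  · filter_upwards [hdiff] with s hs
    obtain ⟨d1, d2⟩ := hs (j + J)
    have hp := hJ (j + J) (by omega) s
    have d3 : HasDerivAt (fun t : ℝ => lam (s + t • w) (j + J))
        (-(kap D (B s w) (μ s) (u s (j + J)) (G s (j + J)) (lam s (j + J)) * lam s (j + J))) 0 := by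
      rw [← d2 w]
      exact d1.hasFDerivAt.hasLineDerivAt w
    have d4 := d3.log (by simpa using hp.ne')
    simp only [zero_smul, add_zero] at d4
    have d5 : HasLineDerivAt ℝ (fun s => Real.log (lam s (j + J) / (((j + J : ℕ) : ℝ) + 1)))
        (-kap D (B s w) (μ s) (u s (j + J)) (G s (j + J)) (lam s (j + J))) s w := by
      have d6 := d4.sub_const (Real.log (((j + J : ℕ) : ℝ) + 1))
      have e3 : -(kap D (B s w) (μ s) (u s (j + J)) (G s (j + J)) (lam s (j + J)) * lam s (j + J)) /
          lam s (j + J) = -kap D (B s w) (μ s) (u s (j + J)) (G s (j + J)) (lam s (j + J)) := by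
        field_simp
      rw [e3] at d6
      simp only [← hlog] at d6
      exact d6
    exact d5.lineDeriv.symm
  · refine Eventually.of_forall fun s => ?_
    have d4 := (hA' s).log (by simpa using (hA s).ne')
    simp only [zero_smul, add_zero] at d4
    have d6 := d4.const_sub (Real.log (4 * π))
    have e3 : ∀ s', Real.log (4 * π / (μ s').real univ) =
        Real.log (4 * π) - Real.log ((μ s').real univ) := fun s' =>
      Real.log_div (by positivity) (hA s').ne'
    simp only [← e3] at d6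
    have d5 : HasLineDerivAt ℝ (fun s => Real.log (4 * π / (μ s).real univ))
        (-mn D (B s w) (μ s)) s w := d6
    exact d5.lineDeriv.symm

end main

end Pool.Agent.J4.H45.PS
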