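import Pool.Agent.J4.H45.PS.Trial
import Pool.Agent.Y708.QE.Gr

/-!
# The quadratic densities of a path
-/

set_option autoImplicit false

open Set Filter Topology MeasureTheory
open scoped Real
open Pool.Agent.Y262.QE Pool.Agent.Y264.QR

noncomputable section

namespace Pool.Agent.J4.H45.PS

section QDs

variable {M : Type} [MeasurableSpace M] {E : Type*} [NormedAddCommGroup E] {μ : Measure M}

theorem sq_lip (w w' : E) : |‖w‖ ^ 2 - ‖w'‖ ^ 2| ≤ ‖w - w'‖ * (‖w‖ + ‖w'‖) := by
  have h1 : ‖w‖ ^ 2 - ‖w'‖ ^ 2 = (‖w‖ - ‖w'‖) * (‖w‖ + ‖w'‖) := by ring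
  rw [h1, abs_mul, abs_of_nonneg (by positivity : 0 ≤ ‖w‖ + ‖w'‖)]
  exact mul_le_mul_of_nonneg_right (abs_norm_sub_norm_le w w') (by positivity)

theorem QD.mono {q : M → E → ℝ} {C C' : ℝ} (h : QD μ q C) (hC : C ≤ C') : QD μ q C' where
  nonneg := h.nonneg.trans hC
  zero := h.zero
  lip := fun x w w' => (h.lip x w w').trans (mul_le_mul_of_nonneg_right hC (by positivity))
  meas := h.meas

theorem QD.add {q q' : M → E → ℝ} {C C' : ℝ} (h : QD μ q C) (h' : QD μ q' C') :
    QD μ (fun x w => q x w + q' x w) (C + C') where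
  nonneg := add_nonneg h.nonneg h'.nonneg
  zero := fun x => by rw [h.zero, h'.zero, add_zero]
  lip := fun x w w' => by
    have h1 := h.lip x w w'
    have h2 := h'.lip x w w'
    rw [abs_le] at h1 h2 ⊢
    rw [add_mul]
    constructor <;> linarith [h1.1, h1.2, h2.1, h2.2]
  meas := fun f hf => (h.meas f hf).add (h'.meas f hf)

theorem QD.smul {q : M → E → ℝ} {C : ℝ} (h : QD μ q C) (a : ℝ) :
    QD μ (fun x w => a * q x w) (|a| * C) where
  nonneg := mul_nonneg (abs_nonneg _) h.nonneg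
  zero := fun x => by rw [h.zero, mul_zero]
  lip := fun x w w' => by
    rw [← mul_sub, abs_mul, mul_assoc]
    exact mul_le_mul_of_nonneg_left (h.lip x w w') (abs_nonneg _)
  meas := fun f hf => (h.meas f hf).const_mul a

theorem QD_norm : QD μ (fun (_ : M) (w : E) => ‖w‖ ^ 2) 1 where
  nonneg := zero_le_one
  zero := fun _ => by simp
  lip := fun _ w w' => by rw [one_mul]; exact sq_lip w w'
  meas := fun f hf => hf.norm.pow 2

theorem QD_wt {β : M → ℝ} (hβ : Measurable β) {C : ℝ} (hC : 0 ≤ C) (h : ∀ x, |β x| ≤ C) :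
    QD μ (fun (x : M) (w : E) => β x * ‖w‖ ^ 2) C where
  nonneg := hC
  zero := fun _ => by simp
  lip := fun x w w' => by
    rw [← mul_sub, abs_mul]
    exact mul_le_mul (h x) (sq_lip w w') (abs_nonneg _) hC
  meas := fun f hf => hβ.aestronglyMeasurable.mul (hf.norm.pow 2)

end QDs

section path

variable {M : Type} [MetricSpace M] [CompactSpace M] [MeasurableSpace M] [BorelSpace M]
  {D : Data M} {A B : ℝ → Fin D.N → ℂ → ℂ →L[ℝ] ℂ} {K : ℝ} {μ : ℝ → Measure M}

theorem inv_cont {X : Type} [TopologicalSpace X] {s : Set X} {A : X → ℂ →L[ℝ] ℂ}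
    (hA : ContinuousOn A s) (hd : ∀ x ∈ s, (A x).det ≠ 0) :
    ContinuousOn (fun x => (A x).inverse) s := by
  intro x hx
  have h1 := contDiffAt_map_inverse (𝕜 := ℝ) (n := 0)
    ((A x).toContinuousLinearEquivOfDetNeZero (hd x hx))
  rw [(A x).coe_toContinuousLinearEquivOfDetNeZero (hd x hx)] at h1
  exact h1.continuousAt.comp_continuousWithinAt (hA x hx)

/-- the velocity is continuous in the charts -/
theorem B_cont (h : IsPath D A B K) (hS : ∀ t, (fr D (A t)).IsSurf (μ t)) (t : ℝ) (i : Fin D.N)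
    (w : ℂ) : ContinuousOn (fun z => B t i z w) (D.T i) := by
  refine continuousOn_of_uniform_approx_of_continuousOn fun U hU => ?_
  obtain ⟨ε, hε, hεU⟩ := Metric.mem_uniformity_dist.1 hU
  set ε' : ℝ := ε / (2 * (‖w‖ + 1)) with hε'
  have hε'0 : 0 < ε' := by positivity
  obtain ⟨δ, hδ, h1⟩ := h.deriv t ε' hε'0
  set τ : ℝ := δ / 2 with hτ
  have hτ0 : 0 < τ := by positivity
  have hτδ : |τ| < δ := by rw [abs_of_pos hτ0, hτ]; linarith
  refine ⟨fun z => τ⁻¹ • (A (t + τ) i z ((A t i z).inverse w) - w), ?_, fun z hz => hεU ?_⟩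
  · have c1 : ContinuousOn (A (t + τ) i) (D.T i) := (hS (t + τ)).contA i
    have c2 : ContinuousOn (fun z => (A t i z).inverse) (D.T i) :=
      inv_cont ((hS t).contA i) ((hS t).det i)
    exact ((c1.clm_apply (c2.clm_apply continuousOn_const)).sub continuousOn_const).const_smul (τ⁻¹ : ℝ)
  · rw [dist_eq_norm]
    have hd : (A t i z).det ≠ 0 := (hS t).det i z hz
    have h2 : A t i z ((A t i z).inverse w) = w := (inv_of_det _ hd).self_apply_inverse w
    have h3 := h1 τ hτδ i z hz ((A t i z).inverse w)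
    rw [h2] at h3
    have h4 : B t i z w - τ⁻¹ • (A (t + τ) i z ((A t i z).inverse w) - w) =
        -(τ⁻¹ • (A (t + τ) i z ((A t i z).inverse w) - w - τ • B t i z w)) := by
      rw [smul_sub _ (A (t + τ) i z ((A t i z).inverse w) - w), smul_smul,
        inv_mul_cancel₀ hτ0.ne', one_smul]
      abel
    rw [h4, norm_neg, norm_smul, Real.norm_eq_abs, abs_inv, inv_mul_lt_iff₀ (abs_pos.2 hτ0.ne')]
    refine lt_of_le_of_lt h3 ?_
    have h5 : ε' * |τ| * ‖w‖ ≤ |τ| * (ε / 2) := by
      have h6 : ε' * ‖w‖ ≤ ε / 2 := by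
        rw [hε', div_mul_eq_mul_div, div_le_div_iff₀ (by positivity) (by norm_num)]
        nlinarith [norm_nonneg w]
      calc ε' * |τ| * ‖w‖ = |τ| * (ε' * ‖w‖) := by ring
        _ ≤ |τ| * (ε / 2) := mul_le_mul_of_nonneg_left h6 (abs_nonneg _)
    have h7 : |τ| * (ε / 2) < |τ| * ε :=
      mul_lt_mul_of_pos_left (by linarith) (abs_pos.2 hτ0.ne')
    linarith

/-- the density of the velocity of the Dirichlet integral -/
def qd (D : Data M) (B : Fin D.N → ℂ → ℂ →L[ℝ] ℂ) (x : M) (W : ℂ) : ℝ :=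
  qf D B (fun _ => W) x

theorem qf_eq (hc : ∀ x, ∃ i, x ∈ D.U i) (B : Fin D.N → ℂ → ℂ →L[ℝ] ℂ) (G : M → ℂ) (x : M) :
    qf D B G x = qd D B x (G x) := by
  obtain ⟨i, hi⟩ := pc_ex D hc x
  unfold qd qf
  rw [pc_sum D hi, pc_sum D hi]

theorem trf_meas (h : IsPath D A B K) (hS : ∀ t, (fr D (A t)).IsSurf (μ t)) (t : ℝ) :
    Measurable (trf D (B t)) := by
  refine fld_meas (fr D (A t)) (hS t) (fun i z => tr (B t i z)) fun i => ?_
  unfold tr
  exact (Complex.continuous_re.comp_continuousOn (B_cont h hS t i 1)).add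
    (Complex.continuous_im.comp_continuousOn (B_cont h hS t i Complex.I))

theorem qd_QD (h : IsPath D A B K) (hS : ∀ t, (fr D (A t)).IsSurf (μ t)) (t : ℝ)
    (m : Measure M) : QD m (qd D (B t)) (4 * K) where
  nonneg := mul_nonneg (by norm_num) h.nonneg
  zero := fun x => by
    obtain ⟨i, hi⟩ := pc_ex D (hS t).cover x
    unfold qd qf
    rw [pc_sum D hi]
    simp
  lip := fun x W W' => by
    obtain ⟨i, hi⟩ := pc_ex D (hS t).cover x
    have hz : D.φ i x ∈ D.T i := mem_image_of_mem _ (pc_sub D i hi)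
    have htr := trf_bound h (hS t).cover t x
    unfold trf at htr
    rw [pc_sum D hi] at htr
    have hB := h.bound t i _ hz
    unfold qd qf
    rw [pc_sum D hi, pc_sum D hi]
    set b := B t i (D.φ i x)
    have h1 : inner ℝ W (b W) - inner ℝ W' (b W') =
        inner ℝ (W - W') (b W) + inner ℝ W' (b (W - W')) := by
      rw [map_sub, inner_sub_left, inner_sub_right]; ring
    have h2 : |inner ℝ W (b W) - inner ℝ W' (b W')| ≤ K * (‖W - W'‖ * (‖W‖ + ‖W'‖)) := by
      rw [h1]
      have e1 := (abs_real_inner_le_norm (W - W') (b W)).trans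
        (mul_le_mul_of_nonneg_left (hB W) (norm_nonneg _))
      have e2 := (abs_real_inner_le_norm W' (b (W - W'))).trans
        (mul_le_mul_of_nonneg_left (hB (W - W')) (norm_nonneg _))
      have e3 := abs_add_le (inner ℝ (W - W') (b W)) (inner ℝ W' (b (W - W')))
      have e4 : ‖W - W'‖ * (K * ‖W‖) + ‖W'‖ * (K * ‖W - W'‖) =
          K * (‖W - W'‖ * (‖W‖ + ‖W'‖)) := by ring
      linarith
    have h3 : |tr b * (‖W‖ ^ 2 - ‖W'‖ ^ 2)| ≤ 2 * K * (‖W - W'‖ * (‖W‖ + ‖W'‖)) := by
      rw [abs_mul]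
      exact mul_le_mul htr (sq_lip W W') (abs_nonneg _) (mul_nonneg (by norm_num) h.nonneg)
    rw [abs_le] at h2 h3 ⊢
    constructor <;> linarith [h2.1, h2.2, h3.1, h3.2]
  meas := fun f hf => by
    have m1 : Measurable fun x => ∑ i, (D.pc i).indicator (fun x => B t i (D.φ i x) 1) x := by
      refine Finset.measurable_sum _ fun i _ => ?_
      exact meas_ind (pc_meas D (hS t).openU i) (pc_sub D i)
        ((B_cont h hS t i 1).comp ((hS t).contφ i) fun x hx => mem_image_of_mem _ hx)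
    have m2 : Measurable fun x =>
        ∑ i, (D.pc i).indicator (fun x => B t i (D.φ i x) Complex.I) x := by
      refine Finset.measurable_sum _ fun i _ => ?_
      exact meas_ind (pc_meas D (hS t).openU i) (pc_sub D i)
        ((B_cont h hS t i Complex.I).comp ((hS t).contφ i) fun x hx => mem_image_of_mem _ hx)
    have e : ∀ x, qd D (B t) x (f x) = trf D (B t) x * ‖f x‖ ^ 2 -
        2 * ((f x).re * ((f x).re • (∑ i, (D.pc i).indicator (fun x => B t i (D.φ i x) 1) x) +
          (f x).im • (∑ i, (D.pc i).indicator (fun x => B t i (D.φ i x) Complex.I) x)).re +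
          (f x).im * ((f x).re • (∑ i, (D.pc i).indicator (fun x => B t i (D.φ i x) 1) x) +
          (f x).im • (∑ i, (D.pc i).indicator (fun x => B t i (D.φ i x) Complex.I) x)).im) := by
      intro x
      obtain ⟨i, hi⟩ := pc_ex D (hS t).cover x
      unfold qd qf trf
      rw [pc_sum D hi, pc_sum D hi, pc_sum D hi, pc_sum D hi, ← app_c, inner_c]
    simp only [e]
    have hre : AEStronglyMeasurable (fun x => (f x).re) m :=
      Complex.continuous_re.comp_aestronglyMeasurable hf
    have him : AEStronglyMeasurable (fun x => (f x).im) m :=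
      Complex.continuous_im.comp_aestronglyMeasurable hf
    have hY : AEStronglyMeasurable (fun x =>
        (f x).re • (∑ i, (D.pc i).indicator (fun x => B t i (D.φ i x) 1) x) +
          (f x).im • (∑ i, (D.pc i).indicator (fun x => B t i (D.φ i x) Complex.I) x)) m :=
      (hre.smul m1.aestronglyMeasurable).add (him.smul m2.aestronglyMeasurable)
    exact ((trf_meas h hS t).aestronglyMeasurable.mul (hf.norm.pow 2)).sub
      (((hre.mul (Complex.continuous_re.comp_aestronglyMeasurable hY)).add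
        (him.mul (Complex.continuous_im.comp_aestronglyMeasurable hY))).const_mul 2)

/-- homogeneity -/
theorem qd_smul (hc : ∀ x, ∃ i, x ∈ D.U i) (B : Fin D.N → ℂ → ℂ →L[ℝ] ℂ) (x : M) (a : ℝ) (W : ℂ) :
    qd D B x (a • W) = a ^ 2 * qd D B x W := by
  obtain ⟨i, hi⟩ := pc_ex D hc x
  unfold qd qf
  rw [pc_sum D hi, pc_sum D hi, map_smul, norm_smul, inner_smul_left, inner_smul_right]
  simp only [Real.norm_eq_abs, mul_pow, sq_abs, conj_trivial]
  ring

end path

end Pool.Agent.J4.H45.PS
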