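import Pool.Agent.J4.H45.PS.Mea

/-!
# Upper bounds of the eigenvalues by trial functions, Weyl's law
-/

set_option autoImplicit false

open Set Filter Topology MeasureTheory
open scoped Real
open Pool.Agent.Y262.QE Pool.Agent.Y264.QR

noncomputable section

namespace Pool.Agent.J4.H45.PS

variable {M : Type} [MetricSpace M] [CompactSpace M] [MeasurableSpace M] [BorelSpace M]
  [Nonempty M]

omit [MetricSpace M] [CompactSpace M] [BorelSpace M] [Nonempty M] in
theorem coe_sum {E : Type*} [NormedAddCommGroup E] [NormedSpace ℝ E] {μ : Measure M}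
    {ι : Type*} (s : Finset ι) (c : ι → ℝ) (f : ι → Lp E 2 μ) (F : ι → M → E)
    (h : ∀ p, (f p : M → E) =ᵐ[μ] F p) :
    ((∑ p ∈ s, c p • f p : Lp E 2 μ) : M → E) =ᵐ[μ] fun x => ∑ p ∈ s, c p • F p x := by
  classical
  induction s using Finset.induction_on with
  | empty =>
    simp only [Finset.sum_empty]
    exact Lp.coeFn_zero E 2 μ
  | insert p s hp ih =>
    rw [Finset.sum_insert hp]
    filter_upwards [Lp.coeFn_add (c p • f p) (∑ p ∈ s, c p • f p), Lp.coeFn_smul (c p) (f p), ih, h p]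
      with x h1 h2 h3 h4
    rw [h1, Pi.add_apply, h2, Pi.smul_apply, h3, h4, Finset.sum_insert hp]

theorem conf_zero (D : Data M) : (D.conf fun x => Real.exp ((0 : C(M, ℝ)) x)) = D := by
  unfold Data.conf
  simp only [ContinuousMap.zero_apply, Real.exp_zero, Real.sqrt_one, one_smul]

theorem wm_zero (μ : Measure M) : (wm μ fun x => Real.exp ((0 : C(M, ℝ)) x)) = μ := by
  unfold wm
  simp only [ContinuousMap.zero_apply, Real.exp_zero, ENNReal.ofReal_one]
  exact withDensity_one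

/-- the package of the forms for the metric itself -/
theorem pack (μ : Measure M) (D : Data M) (hD : D.IsSurf μ) (u : ℕ → M → ℝ) (lam : ℕ → ℝ)
    (hu : EigBasis D μ u lam) : ∃ (a b : HF D μ →L[ℝ] HF D μ →L[ℝ] ℝ), Fm a b ∧
      (∀ v w, a v w = inner ℝ v.1.snd w.1.snd) ∧ (∀ v w, b v w = ∫ x, v.1.fst x * w.1.fst x ∂μ) ∧
      (∀ i, Ev a b i = lam i) ∧
      Tendsto (fun j : ℕ => lam j / (j + 1)) atTop (𝓝 (4 * π / μ.real univ)) := by
  obtain ⟨hfin, -⟩ := tFin M μ D hD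
  haveI := hfin
  obtain ⟨ι, a, hSf, hi, ha⟩ := tPackF M μ D hD inferInstance
  obtain ⟨b, hB, hFm, -, -, -⟩ := tFm M μ (HF D μ) ι a hSf
  have hu' : EigBasis (D.conf fun x => Real.exp ((0 : C(M, ℝ)) x))
      (wm μ fun x => Real.exp ((0 : C(M, ℝ)) x)) u lam := by
    rw [conf_zero, wm_zero]; exact hu
  obtain ⟨e, he1, he2⟩ := tBr M μ D hD ι a b hSf hi ha hB hFm 0 u lam hu'
  have hEv := Pool.Agent.Y592.QE.mm (HF D μ) a (b 0) (hFm 0) e lam he2
  have hW := tWl M μ D hD inferInstance ι a b hSf hi ha hB 0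
  refine ⟨a, b 0, hFm 0, ha, ?_, hEv, ?_⟩
  · intro v w
    rw [hB, hi, hi]
    refine integral_congr_ae (Eventually.of_forall fun x => ?_)
    simp only [ContinuousMap.zero_apply, Real.exp_zero, one_mul]
  · simp only [hEv] at hW
    have : ∫ x, Real.exp ((0 : C(M, ℝ)) x) ∂μ = μ.real univ := by simp
    rw [this] at hW
    exact hW

theorem mm_upper (μ : Measure M) (D : Data M) (hD : D.IsSurf μ) (u : ℕ → M → ℝ) (lam : ℕ → ℝ)
    (hu : EigBasis D μ u lam) (i : ℕ) (F : Fin (i + 1) → M → ℝ) (hF : ∀ p, D.C1 (F p)) (Λ : ℝ)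
    (hΛ : 0 ≤ Λ) (hpos : ∀ c : Fin (i + 1) → ℝ, c ≠ 0 → 0 < ∫ x, (∑ p, c p * F p x) ^ 2 ∂μ)
    (hle : ∀ c : Fin (i + 1) → ℝ, ∫ x, ‖∑ p, c p • D.gr (F p) x‖ ^ 2 ∂μ ≤
      Λ * ∫ x, (∑ p, c p * F p x) ^ 2 ∂μ) : lam i ≤ Λ := by
  obtain ⟨a, b, hFm, ha, hb, hEv, -⟩ := pack μ D hD u lam hu
  rw [← hEv i]
  choose v hv1 hv2 hv3 using fun p => (tDenF M μ D hD).1 (F p) (hF p)
  let w : Fin (i + 1) → HF D μ := fun p => ⟨v p, hv1 p⟩
  have hfst : ∀ c : Fin (i + 1) → ℝ, (((∑ p, c p • w p : HF D μ).1.fst : Lp ℝ 2 μ) : M → ℝ) =ᵐ[μ]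
      fun x => ∑ p, c p * F p x := by
    intro c
    have h1 : (∑ p, c p • w p : HF D μ).1.fst = ∑ p, c p • (v p).fst := by
      rw [← ii_apply, map_sum]
      refine Finset.sum_congr rfl fun p _ => ?_
      rw [map_smul, ii_apply]
    rw [h1]
    exact coe_sum Finset.univ c (fun p => (v p).fst) F hv2
  have hsnd : ∀ c : Fin (i + 1) → ℝ, (((∑ p, c p • w p : HF D μ).1.snd : Lp ℂ 2 μ) : M → ℂ) =ᵐ[μ]
      fun x => ∑ p, c p • D.gr (F p) x := by
    intro c
    have h1 : (∑ p, c p • w p : HF D μ).1.snd = ∑ p, c p • (v p).snd := by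
      rw [← gg_apply, map_sum]
      refine Finset.sum_congr rfl fun p _ => ?_
      rw [map_smul, gg_apply]
    rw [h1]
    exact coe_sum Finset.univ c (fun p => (v p).snd) (fun p => D.gr (F p)) hv3
  have hbb : ∀ c : Fin (i + 1) → ℝ, b (∑ p, c p • w p) (∑ p, c p • w p) =
      ∫ x, (∑ p, c p * F p x) ^ 2 ∂μ := by
    intro c
    rw [hb]
    refine integral_congr_ae ?_
    filter_upwards [hfst c] with x hx
    rw [hx, sq]
  have haa : ∀ c : Fin (i + 1) → ℝ, a (∑ p, c p • w p) (∑ p, c p • w p) =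
      ∫ x, ‖∑ p, c p • D.gr (F p) x‖ ^ 2 ∂μ := by
    intro c
    rw [ha, innC]
    refine integral_congr_ae ?_
    filter_upwards [hsnd c] with x hx
    rw [hx, real_inner_self_eq_norm_sq]
  have hlin : LinearIndependent ℝ w := by
    rw [Fintype.linearIndependent_iff]
    intro c hc
    by_contra hcon
    push Not at hcon
    obtain ⟨p, hp⟩ := hcon
    have hc0 : c ≠ 0 := fun h => hp (by rw [h]; rfl)
    have h1 := hpos c hc0
    rw [← hbb c, hc] at h1
    simp at h1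
  refine csInf_le ⟨0, fun x hx => hx.1⟩ ⟨hΛ, Submodule.span ℝ (range w), ?_, ?_⟩
  · rw [finrank_span_eq_card hlin, Fintype.card_fin]
  · intro y hy
    obtain ⟨c, rfl⟩ := (Submodule.mem_span_range_iff_exists_fun ℝ).1 hy
    rw [hbb, haa]
    exact hle c

end Pool.Agent.J4.H45.PS
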