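import Pool.Agent.J4.H45.PS.Def
import Pool.Agent.Y264.QR.All

/-!
# Comparison of the metrics of a path
-/

set_option autoImplicit false

open Set Filter Topology MeasureTheory
open Pool.Agent.Y262.QE Pool.Agent.Y264.QR

noncomputable section

namespace Pool.Agent.J4.H45.PS

section pieces

variable {M : Type} (D : Data M)

theorem pc_sub (i : Fin D.N) : D.pc i ⊆ D.U i := fun _ h => h.1

theorem pc_sum {E : Type*} [AddCommMonoid E] {x : M} {i : Fin D.N} (hi : x ∈ D.pc i)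
    (f : Fin D.N → M → E) : ∑ j, (D.pc j).indicator (f j) x = f i x := by
  rw [Finset.sum_eq_single i]
  · rw [indicator_of_mem hi]
  · intro j _ hj
    apply indicator_of_notMem
    intro hxj
    rcases lt_or_gt_of_ne hj with h | h
    · exact hi.2 (mem_iUnion.2 ⟨⟨j, h⟩, hxj.1⟩)
    · exact hxj.2 (mem_iUnion.2 ⟨⟨i, h⟩, hi.1⟩)
  · intro h
    exact absurd (Finset.mem_univ i) h

theorem pc_ex (hc : ∀ x, ∃ i, x ∈ D.U i) (x : M) : ∃ i, x ∈ D.pc i := by
  obtain ⟨i, hi, hmin⟩ := WellFounded.has_min (wellFounded_lt (α := Fin D.N)) {i | x ∈ D.U i} (hc x)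
  refine ⟨i, hi, ?_⟩
  intro h
  obtain ⟨k, hk⟩ := mem_iUnion.1 h
  exact hmin k.1 hk k.2

end pieces

section meas

variable {M : Type} [MetricSpace M] [MeasurableSpace M] [BorelSpace M]

theorem meas_ind {E : Type*} [TopologicalSpace E] [MeasurableSpace E] [BorelSpace E] [Zero E]
    {s U : Set M} (hs : MeasurableSet s) (hsU : s ⊆ U) {f : M → E} (hf : ContinuousOn f U) :
    Measurable (s.indicator f) := by
  classical
  rw [← piecewise_eq_indicator]
  exact (hf.mono hsU).measurable_piecewise continuousOn_const hs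

theorem pc_meas (D : Data M) (hU : ∀ i, IsOpen (D.U i)) (i : Fin D.N) : MeasurableSet (D.pc i) := by
  unfold Data.pc
  exact (hU i).measurableSet.diff (MeasurableSet.iUnion fun k => (hU k.1).measurableSet)

/-- a field which is continuous in the charts is measurable -/
theorem fld_meas (D : Data M) {μ : Measure M} (hD : D.IsSurf μ) (β : Fin D.N → ℂ → ℝ)
    (hβ : ∀ i, ContinuousOn (β i) (D.T i)) :
    Measurable fun x => ∑ i, (D.pc i).indicator (fun x => β i (D.φ i x)) x := by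
  refine Finset.measurable_sum _ fun i _ => ?_
  exact meas_ind (pc_meas D hD.openU i) (pc_sub D i)
    ((hβ i).comp (hD.contφ i) fun x hx => mem_image_of_mem _ hx)

end meas

section two

variable {M : Type} [MetricSpace M] [CompactSpace M] [MeasurableSpace M] [BorelSpace M]
  {D : Data M} {A₀ A₁ : Fin D.N → ℂ → ℂ →L[ℝ] ℂ} {μ₀ μ₁ : Measure M}

/-- the density of the area of the second metric -/
def rho (D : Data M) (A₀ A₁ : Fin D.N → ℂ → ℂ →L[ℝ] ℂ) (x : M) : ℝ :=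
  ∑ i, (D.pc i).indicator (fun x => |(A₁ i (D.φ i x)).det| / |(A₀ i (D.φ i x)).det|) x

theorem rho_nonneg (hc : ∀ x, ∃ i, x ∈ D.U i) (x : M) : 0 ≤ rho D A₀ A₁ x := by
  obtain ⟨i, hi⟩ := pc_ex D hc x
  unfold rho
  rw [pc_sum D hi]
  positivity

theorem rho_meas (h₀ : (fr D A₀).IsSurf μ₀) (h₁ : (fr D A₁).IsSurf μ₁) :
    Measurable (rho D A₀ A₁) := by
  refine fld_meas (fr D A₀) h₀ (fun i z => |(A₁ i z).det| / |(A₀ i z).det|) fun i => ?_
  have c0 : ContinuousOn (fun z => |(A₀ i z).det|) (D.T i) :=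
    (ContinuousLinearMap.continuous_det.comp_continuousOn (h₀.contA i)).abs
  have c1 : ContinuousOn (fun z => |(A₁ i z).det|) (D.T i) :=
    (ContinuousLinearMap.continuous_det.comp_continuousOn (h₁.contA i)).abs
  exact c1.div c0 fun z hz => abs_ne_zero.2 (h₀.det i z hz)

theorem mea (h₀ : (fr D A₀).IsSurf μ₀) (h₁ : (fr D A₁).IsSurf μ₁) :
    μ₁ = μ₀.withDensity fun x => ENNReal.ofReal (rho D A₀ A₁ x) := by
  have hρ : Measurable fun x => ENNReal.ofReal (rho D A₀ A₁ x) :=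
    (rho_meas h₀ h₁).ennreal_ofReal
  have key : ∀ (i : Fin D.N) (s : Set M), MeasurableSet s → s ⊆ D.pc i →
      μ₁ s = (μ₀.withDensity fun x => ENNReal.ofReal (rho D A₀ A₁ x)) s := by
    intro i s hs hsi
    have hsU : s ⊆ D.U i := hsi.trans (pc_sub D i)
    have h1 := (Pool.Agent.Y960.QE.int_chart M μ₀ (fr D A₀) h₀ i).1
      (s.indicator fun x => ENNReal.ofReal (rho D A₀ A₁ x)) (hρ.indicator hs)
    have h2 : ∫⁻ x in (fr D A₀).U i, s.indicator (fun x => ENNReal.ofReal (rho D A₀ A₁ x)) x ∂μ₀ =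
        (μ₀.withDensity fun x => ENNReal.ofReal (rho D A₀ A₁ x)) s := by
      rw [lintegral_indicator hs, Measure.restrict_restrict hs]
      have : s ∩ (fr D A₀).U i = s := inter_eq_left.2 hsU
      rw [this, withDensity_apply _ hs]
    rw [← h2, h1, h₁.area i s hsU hs]
    have him : ∀ z ∈ D.T i, (D.ψ i z ∈ s ↔ z ∈ D.φ i '' s) := by
      rintro z ⟨x, hx, rfl⟩
      have hl : D.ψ i (D.φ i x) = x := h₀.left i x hx
      rw [hl]
      constructor
      · intro h; exact ⟨x, h, rfl⟩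
      · rintro ⟨y, hy, hxy⟩
        have h3 : D.ψ i (D.φ i y) = D.ψ i (D.φ i x) := by rw [hxy]
        rw [hl, show D.ψ i (D.φ i y) = y from h₀.left i y (hsU hy)] at h3
        exact h3 ▸ hy
    have hTm : MeasurableSet (D.T i) := (h₀.openT i).measurableSet
    have hsm : MeasurableSet (D.φ i '' s) := Pool.Agent.Y960.QE.meas_im h₀ i hsU hs
    have hsub : D.φ i '' s ⊆ D.T i := image_mono hsU
    have h4 : ∫⁻ z in D.φ i '' s, ENNReal.ofReal |(A₁ i z).det| =
        ∫⁻ z in D.T i, (D.φ i '' s).indicator (fun z => ENNReal.ofReal |(A₁ i z).det|) z := by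
      rw [lintegral_indicator hsm, Measure.restrict_restrict hsm, inter_eq_left.2 hsub]
    show ∫⁻ z in D.φ i '' s, ENNReal.ofReal |(A₁ i z).det| = _
    rw [h4]
    refine setLIntegral_congr_fun hTm fun z hz => ?_
    show (D.φ i '' s).indicator (fun z => ENNReal.ofReal |(A₁ i z).det|) z =
      s.indicator (fun x => ENNReal.ofReal (rho D A₀ A₁ x)) (D.ψ i z) *
        ENNReal.ofReal |(A₀ i z).det|
    by_cases h5 : z ∈ D.φ i '' s
    · rw [indicator_of_mem h5, indicator_of_mem ((him z hz).2 h5)]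
      obtain ⟨x, hx, rfl⟩ := h5
      have hl : D.ψ i (D.φ i x) = x := h₀.left i x (hsU hx)
      rw [hl]
      have hd : (A₀ i (D.φ i x)).det ≠ 0 := h₀.det i _ (mem_image_of_mem _ (hsU hx))
      unfold rho
      rw [pc_sum D (hsi hx), ← ENNReal.ofReal_mul (by positivity),
        div_mul_cancel₀ _ (abs_ne_zero.2 hd)]
    · rw [indicator_of_notMem h5, indicator_of_notMem fun h6 => h5 ((him z hz).1 h6), zero_mul]
  ext B hB
  have hBu : B = ⋃ i, B ∩ D.pc i := by
    ext x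
    constructor
    · intro hx
      obtain ⟨i, hi⟩ := pc_ex D h₀.cover x
      exact mem_iUnion.2 ⟨i, hx, hi⟩
    · intro hx
      obtain ⟨i, hi⟩ := mem_iUnion.1 hx
      exact hi.1
  have hdis : Pairwise (Function.onFun Disjoint fun i => B ∩ D.pc i) := by
    intro i j hij
    rw [Function.onFun, Set.disjoint_left]
    rintro x ⟨-, hi⟩ ⟨-, hj⟩
    rcases lt_or_gt_of_ne hij with h | h
    · exact hj.2 (mem_iUnion.2 ⟨⟨i, h⟩, hi.1⟩)
    · exact hi.2 (mem_iUnion.2 ⟨⟨j, h⟩, hj.1⟩)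
  have hm : ∀ i, MeasurableSet (B ∩ D.pc i) := fun i => hB.inter (pc_meas D h₀.openU i)
  rw [hBu, measure_iUnion hdis hm, measure_iUnion hdis hm]
  exact tsum_congr fun i => key i _ (hm i) inter_subset_right

/-- integrals for the second metric -/
theorem mea_int (h₀ : (fr D A₀).IsSurf μ₀) (h₁ : (fr D A₁).IsSurf μ₁) (g : M → ℝ) :
    ∫ x, g x ∂μ₁ = ∫ x, rho D A₀ A₁ x * g x ∂μ₀ := by
  rw [mea h₀ h₁, integral_withDensity_eq_integral_toReal_smul (rho_meas h₀ h₁).ennreal_ofReal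
    (Eventually.of_forall fun x => ENNReal.ofReal_lt_top)]
  refine integral_congr_ae (Eventually.of_forall fun x => ?_)
  show (ENNReal.ofReal (rho D A₀ A₁ x)).toReal • g x = _
  rw [ENNReal.toReal_ofReal (rho_nonneg (D := D) h₀.cover x), smul_eq_mul]

theorem gr_at (A : Fin D.N → ℂ → ℂ →L[ℝ] ℂ) {x : M} {i : Fin D.N} (hi : x ∈ D.pc i) (F : M → ℝ) :
    (fr D A).gr F x = grd (A i (D.φ i x)) (D.dc i F x) :=
  pc_sum D hi fun i x => grd (A i (D.φ i x)) (D.dc i F x)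

end two

section path

variable {M : Type} [MetricSpace M] [CompactSpace M] [MeasurableSpace M] [BorelSpace M]
  {D : Data M} {A B : ℝ → Fin D.N → ℂ → ℂ →L[ℝ] ℂ} {K : ℝ} {μ : ℝ → Measure M}

theorem trf_bound (h : IsPath D A B K) (hc : ∀ x, ∃ i, x ∈ D.U i) (t : ℝ) (x : M) :
    |trf D (B t) x| ≤ 2 * K := by
  obtain ⟨i, hi⟩ := pc_ex D hc x
  unfold trf
  rw [pc_sum D hi]
  unfold tr
  have hz : D.φ i x ∈ D.T i := mem_image_of_mem _ (pc_sub D i hi)
  have h1 := h.bound t i _ hz 1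
  have h2 := h.bound t i _ hz Complex.I
  rw [norm_one, mul_one] at h1
  rw [Complex.norm_I, mul_one] at h2
  have h3 := (Complex.abs_re_le_norm _).trans h1
  have h4 := (Complex.abs_im_le_norm _).trans h2
  have h5 := abs_add_le (B t i (D.φ i x) 1).re (B t i (D.φ i x) Complex.I).im
  linarith

/-- the first order behaviour of the metric -/
theorem path_first (h : IsPath D A B K) (hS : ∀ t, (fr D (A t)).IsSurf (μ t)) (t : ℝ) (ε : ℝ)
    (hε : 0 < ε) : ∃ δ : ℝ, 0 < δ ∧ ∀ τ : ℝ, |τ| < δ → ∀ x : M,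
      |rho D (A t) (A (t + τ)) x - 1 - τ * trf D (B t) x| ≤ ε * |τ| ∧
      ∀ F : M → ℝ, |rho D (A t) (A (t + τ)) x * ‖(fr D (A (t + τ))).gr F x‖ ^ 2 -
        ‖(fr D (A t)).gr F x‖ ^ 2 - τ * qf D (B t) ((fr D (A t)).gr F) x| ≤
          ε * |τ| * ‖(fr D (A t)).gr F x‖ ^ 2 := by
  have hK := h.nonneg
  set ε₁ : ℝ := min (ε / 32) 1 with hε₁
  have hε₁p : 0 < ε₁ := by positivity
  have hε₁a : ε₁ ≤ ε / 32 := min_le_left _ _
  have hε₁b : ε₁ ≤ 1 := min_le_right _ _
  obtain ⟨δ₁, hδ₁, h1⟩ := h.deriv t ε₁ hε₁p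
  refine ⟨min δ₁ (min (ε / (80 * (K + 1) ^ 2 + 1)) (1 / (16 * (K + 1) ^ 2))), by positivity, ?_⟩
  intro τ hτ x
  have ht := abs_nonneg τ
  have hτ1 : |τ| < δ₁ := lt_of_lt_of_le hτ (min_le_left _ _)
  have hτ2 : |τ| ≤ ε / (80 * (K + 1) ^ 2 + 1) :=
    (lt_of_lt_of_le hτ ((min_le_right _ _).trans (min_le_left _ _))).le
  have hτ3 : |τ| ≤ 1 / (16 * (K + 1) ^ 2) :=
    (lt_of_lt_of_le hτ ((min_le_right _ _).trans (min_le_right _ _))).le
  rw [le_div_iff₀ (by positivity)] at hτ2 hτ3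
  have hq : (K + 1) ≤ (K + 1) ^ 2 := by nlinarith
  have hθ1 : K * |τ| + ε₁ * |τ| ≤ (K + 1) * |τ| := by nlinarith
  have hθ2 : (K + 1) * |τ| ≤ 1 / 16 := by nlinarith
  have hθ0 : 0 ≤ K * |τ| + ε₁ * |τ| := by positivity
  have hθsq : (K * |τ| + ε₁ * |τ|) ^ 2 ≤ ((K + 1) * |τ|) ^ 2 := pow_le_pow_left₀ hθ0 hθ1 2
  obtain ⟨i, hi⟩ := pc_ex D (hS t).cover x
  have hz : D.φ i x ∈ D.T i := mem_image_of_mem _ (pc_sub D i hi)
  set z := D.φ i x with hzd
  have d0 : (A t i z).det ≠ 0 := (hS t).det i z hz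
  have d1 : (A (t + τ) i z).det ≠ 0 := (hS (t + τ)).det i z hz
  have hSy : ∀ y, ‖Sd (A t i z) (A (t + τ) i z) y - y - τ • B t i z y‖ ≤ (ε₁ * |τ|) * ‖y‖ := by
    intro y
    have h2 : A t i z ((A t i z).inverse y) = y := (inv_of_det _ d0).self_apply_inverse y
    have h3 := h1 τ hτ1 i z hz ((A t i z).inverse y)
    rw [h2] at h3
    exact h3
  have hfirst := fun F : M → ℝ => first (S := Sd (A t i z) (A (t + τ) i z)) (B := B t i z)
    (w₀ := (fr D (A t)).gr F x) (w₁ := (fr D (A (t + τ))).gr F x) (K := K) (η := ε₁ * |τ|) (τ := τ)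
    (by
      intro y
      rw [gr_at (A t) hi, gr_at (A (t + τ)) hi]
      exact grd_pair d1 _ y) hK (by positivity) (h.bound t i z hz) hSy (by linarith)
  have hdet0 := (hfirst 0).1
  have hdetpos : 0 < (Sd (A t i z) (A (t + τ) i z)).det := by
    have h4 : |τ * tr (B t i z)| ≤ 1 / 8 := by
      rw [abs_mul]
      have h5 : |tr (B t i z)| ≤ 2 * K := by
        have := trf_bound h (hS t).cover t x
        unfold trf at this
        rwa [pc_sum D hi] at this
      have h6 := mul_le_mul_of_nonneg_left h5 ht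
      nlinarith
    have h5 : 2 * (ε₁ * |τ|) + 2 * (K * |τ| + ε₁ * |τ|) ^ 2 ≤ 1 / 4 := by
      have h6 : ε₁ * |τ| ≤ 1 / 16 := by nlinarith
      have h7 : (K * |τ| + ε₁ * |τ|) ^ 2 ≤ (1 / 16) ^ 2 :=
        pow_le_pow_left₀ hθ0 (hθ1.trans hθ2) 2
      nlinarith
    have h6 := (abs_le.1 (hdet0.trans h5)).1
    have h7 := (abs_le.1 h4).1
    linarith
  have hrho : rho D (A t) (A (t + τ)) x = (Sd (A t i z) (A (t + τ) i z)).det := by
    unfold rho
    rw [pc_sum D hi, ← Sd_det (A₀ := A t i z) (A₁ := A (t + τ) i z) d0, abs_mul,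
      mul_div_cancel_right₀ _ (abs_ne_zero.2 d0), abs_of_pos hdetpos]
  have htr : trf D (B t) x = tr (B t i z) := by
    unfold trf
    rw [pc_sum D hi]
  have hsmall : 16 * (ε₁ * |τ|) + 40 * (K * |τ| + ε₁ * |τ|) ^ 2 ≤ ε * |τ| := by
    have h4 : 40 * ((K + 1) * |τ|) ^ 2 ≤ ε / 2 * |τ| := by
      have h5 : 40 * ((K + 1) * |τ|) ^ 2 = (|τ| * (40 * (K + 1) ^ 2)) * |τ| := by ring
      rw [h5]
      refine mul_le_mul_of_nonneg_right ?_ ht
      nlinarith
    have h5 : 16 * (ε₁ * |τ|) ≤ ε / 2 * |τ| := by nlinarith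
    linarith
  constructor
  · rw [hrho, htr]
    refine hdet0.trans ?_
    nlinarith [mul_nonneg hε₁p.le ht, sq_nonneg (K * |τ| + ε₁ * |τ|)]
  · intro F
    have h5 := (hfirst F).2
    have hqf : qf D (B t) ((fr D (A t)).gr F) x = tr (B t i z) * ‖(fr D (A t)).gr F x‖ ^ 2 -
        2 * inner ℝ ((fr D (A t)).gr F x) (B t i z ((fr D (A t)).gr F x)) := by
      unfold qf
      rw [pc_sum D hi]
    rw [hrho, hqf, mul_comm]
    exact h5.trans (mul_le_mul_of_nonneg_right hsmall (sq_nonneg _))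

/-- the comparison of the metrics along the path -/
theorem path_comp (h : IsPath D A B K) (hS : ∀ t, (fr D (A t)).IsSurf (μ t)) (s t : ℝ) (x : M) :
    rho D (A t) (A s) x ≤ Real.exp (2 * K * |s - t|) ∧
    Real.exp (-(2 * K * |s - t|)) ≤ rho D (A t) (A s) x ∧
    ∀ F : M → ℝ, ‖(fr D (A s)).gr F x‖ ≤ Real.exp (K * |s - t|) * ‖(fr D (A t)).gr F x‖ := by
  obtain ⟨i, hi⟩ := pc_ex D (hS t).cover x
  have hz : D.φ i x ∈ D.T i := mem_image_of_mem _ (pc_sub D i hi)
  set z := D.φ i x with hzd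
  have d0 : (A t i z).det ≠ 0 := (hS t).det i z hz
  have d1 : (A s i z).det ≠ 0 := (hS s).det i z hz
  have hle := path_le h s t i z hz
  have hle' := path_le h t s i z hz
  have hrho : rho D (A t) (A s) x = |(A s i z).det| / |(A t i z).det| := by
    unfold rho
    rw [pc_sum D hi]
  have e2 : Real.exp (K * |s - t|) ^ 2 = Real.exp (2 * K * |s - t|) := by
    rw [← Real.exp_nat_mul]; congr 1; push_cast; ring
  have p0 : 0 < |(A t i z).det| := abs_pos.2 d0
  have p1 : 0 < |(A s i z).det| := abs_pos.2 d1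
  refine ⟨?_, ?_, ?_⟩
  · rw [hrho, div_le_iff₀ p0, ← e2]
    exact det_pair d0 _ hle
  · rw [hrho, le_div_iff₀ p0]
    have h3 := det_pair d1 _ hle'
    rw [abs_sub_comm t s, e2] at h3
    rw [Real.exp_neg, inv_mul_le_iff₀ (Real.exp_pos _)]
    exact h3
  · intro F
    rw [gr_at (A t) hi, gr_at (A s) hi]
    refine grd_le' d0 d1 _ (fun v => ?_) _
    have := hle' v
    rw [abs_sub_comm t s] at this
    exact this

end path

end Pool.Agent.J4.H45.PS
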