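import Pool.Agent.J4.H45.PS.Fam
import Pool.Agent.Y264.QR.All

/-!
# Quadratic phase space observables
-/

set_option autoImplicit false

open Set Filter Topology MeasureTheory
open scoped Real NNReal
open Pool.Agent.Y262.QE Pool.Agent.Y264.QR

noncomputable section

namespace Pool.Agent.J4.H45.PS

section one

variable {M : Type} [MetricSpace M] [CompactSpace M] [MeasurableSpace M] [BorelSpace M]
  {D : Data M} {μ : Measure M} {u : ℕ → M → ℝ} {G : ℕ → M → ℂ} {lam : ℕ → ℝ}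

omit [MetricSpace M] [CompactSpace M] [BorelSpace M] in
theorem int_inner {E : Type*} [NormedAddCommGroup E] [InnerProductSpace ℝ E] {f g : M → E}
    (hf : MemLp f 2 μ) (hg : MemLp g 2 μ) : Integrable (fun x => inner ℝ (f x) (g x)) μ := by
  refine (L2.integrable_inner (𝕜 := ℝ) hf.toLp hg.toLp).congr ?_
  filter_upwards [hf.coeFn_toLp, hg.coeFn_toLp] with x h1 h2
  rw [h1, h2]

/-- the product rule -/
theorem gr_mul (hD : D.IsSurf μ) {β F : M → ℝ} (hβ : D.C1 β) (hF : D.C1 F) :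
    D.C1 (fun x => β x * F x) ∧
      ∀ x, D.gr (fun x => β x * F x) x = β x • D.gr F x + F x • D.gr β x := by
  refine ⟨fun i => (hβ i).mul (hF i), fun x => ?_⟩
  obtain ⟨i, hi⟩ := pc_ex D hD.cover x
  have hxU : x ∈ D.U i := pc_sub D i hi
  have hg : ∀ F : M → ℝ, D.gr F x = D.gc i F x := fun F => pc_sum D hi fun i => D.gc i F
  rw [hg, hg, hg]
  unfold Data.gc
  have h1 : D.dc i (fun x => β x * F x) x = β x • D.dc i F x + F x • D.dc i β x := by
    unfold Data.dc
    have d1 := Pool.Agent.Y708.QE.diff_at hD hβ hxU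
    have d2 := Pool.Agent.Y708.QE.diff_at hD hF hxU
    have h2 := fderiv_fun_mul d1 d2
    rw [h2, hD.left i x hxU]
  rw [h1, Pool.Agent.Y708.QE.grd_lin]

theorem comm1 (hD : D.IsSurf μ) (hb : IsEigenbasis D μ u G lam) {β : M → ℝ} (hβ : D.C1 β) :
    ∃ C : ℝ, ∀ j, |lam j * ∫ x, β x * u j x ^ 2 ∂μ - ∫ x, β x * ‖G j x‖ ^ 2 ∂μ| ≤
      C * Real.sqrt (lam j) := by
  obtain ⟨hfin, -⟩ := tFin M μ D hD
  have := hfin
  obtain ⟨hβc, hβm, C₀, hC₀⟩ := (tGr M μ D hD).1 β hβ
  obtain ⟨C', hC'⟩ := isCompact_univ.exists_bound_of_continuousOn hβc.continuousOn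
  set C : ℝ := max C₀ 0 with hCd
  have hC0 : 0 ≤ C := le_max_right _ _
  have hC : ∀ x, ‖D.gr β x‖ ≤ C := fun x => (hC₀ x).trans (le_max_left _ _)
  refine ⟨C, fun j => ?_⟩
  obtain ⟨F, hF1, hF2, hF3⟩ := hb.grad j
  have hG := hb.memG j
  have hu := (hb.eig j).mem
  -- the three test functions
  have m1 : MemLp (fun x => β x • G j x) 2 μ := by
    refine MemLp.of_le_mul (c := C') hG (hβc.aestronglyMeasurable.smul hG.aestronglyMeasurable)
      (Eventually.of_forall fun x => ?_)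
    rw [norm_smul]
    exact mul_le_mul_of_nonneg_right (hC' x (mem_univ x)) (norm_nonneg _)
  have m2 : MemLp (fun x => inner ℝ (G j x) (D.gr β x)) 2 μ := by
    refine MemLp.of_le_mul (c := C) hG
      (hG.aestronglyMeasurable.inner hβm.aestronglyMeasurable)
      (Eventually.of_forall fun x => ?_)
    rw [Real.norm_eq_abs, mul_comm]
    exact (abs_real_inner_le_norm _ _).trans (mul_le_mul_of_nonneg_left (hC x) (norm_nonneg _))
  have m3 : MemLp (fun x => β x * u j x) 2 μ := by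
    refine MemLp.of_le_mul (c := C') hu (hβc.aestronglyMeasurable.mul hu.aestronglyMeasurable)
      (Eventually.of_forall fun x => ?_)
    rw [norm_mul]
    exact mul_le_mul_of_nonneg_right (hC' x (mem_univ x)) (norm_nonneg _)
  have h2 : Tendsto (fun k => ∫ x, ‖F k x - u j x‖ ^ 2 ∂μ) atTop (𝓝 0) := by
    simp only [Real.norm_eq_abs, sq_abs]
    exact hF2
  have e : ∀ a b : ℝ, inner ℝ a b = a * b := fun a b => by simp [mul_comm]
  have l1 := inner_lim m1 (fun k => memgr hD (hF1 k)) hG hF3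
  have l2 := inner_lim m2 (fun k => memF hD (hF1 k)) hu h2
  have l3 := inner_lim m3 (fun k => memF hD (hF1 k)) hu h2
  simp only [e] at l2 l3
  have hw : ∀ k, lam j * ∫ x, β x * u j x * F k x ∂μ =
      ∫ x, inner ℝ (β x • G j x) (D.gr (F k) x) ∂μ +
        ∫ x, inner ℝ (G j x) (D.gr β x) * F k x ∂μ := by
    intro k
    have h3 := hb.weak j _ (gr_mul hD hβ (hF1 k)).1
    have e1 : ∫ x, u j x * (β x * F k x) ∂μ = ∫ x, β x * u j x * F k x ∂μ :=
      integral_congr_ae (Eventually.of_forall fun x => by ring)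
    rw [← e1, ← h3]
    have i1 : Integrable (fun x => inner ℝ (β x • G j x) (D.gr (F k) x)) μ :=
      int_inner m1 (memgr hD (hF1 k))
    have i2 : Integrable (fun x => inner ℝ (G j x) (D.gr β x) * F k x) μ :=
      m2.integrable_mul (memF hD (hF1 k))
    rw [← integral_add i1 i2]
    refine integral_congr_ae (Eventually.of_forall fun x => ?_)
    show inner ℝ (G j x) (D.gr (fun x => β x * F k x) x) =
      inner ℝ (β x • G j x) (D.gr (F k) x) + inner ℝ (G j x) (D.gr β x) * F k x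
    rw [(gr_mul hD hβ (hF1 k)).2 x, inner_add_right, inner_smul_right, inner_smul_right,
      inner_smul_left]
    simp only [conj_trivial]
    ring
  have h3 := tendsto_nhds_unique (l3.const_mul (lam j))
    ((l1.add l2).congr fun k => (hw k).symm)
  have e2 : ∫ x, β x * u j x * u j x ∂μ = ∫ x, β x * u j x ^ 2 ∂μ :=
    integral_congr_ae (Eventually.of_forall fun x => by ring)
  have e3 : ∫ x, inner ℝ (β x • G j x) (G j x) ∂μ = ∫ x, β x * ‖G j x‖ ^ 2 ∂μ :=
    integral_congr_ae (Eventually.of_forall fun x => by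
      show inner ℝ (β x • G j x) (G j x) = _
      rw [inner_smul_left, real_inner_self_eq_norm_sq]
      simp)
  rw [e2, e3] at h3
  rw [h3, add_sub_cancel_left]
  -- the Cauchy-Schwarz inequality
  have h4 : |∫ x, inner ℝ (G j x) (D.gr β x) * u j x ∂μ| ≤ ‖m2.toLp‖ * ‖hu.toLp‖ := by
    have h5 := l2_inner m2 hu
    simp only [e] at h5
    rw [← h5]
    exact abs_real_inner_le_norm _ _
  refine h4.trans ?_
  have h5 : ‖hu.toLp‖ = 1 := by
    rw [← Real.sqrt_sq (norm_nonneg hu.toLp), l2_norm hu, normU hb, Real.sqrt_one]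
  have h6 : ‖m2.toLp‖ ≤ C * Real.sqrt (lam j) := by
    rw [← Real.sqrt_sq (norm_nonneg m2.toLp), l2_norm m2, ← Real.sqrt_sq hC0,
      ← Real.sqrt_mul (sq_nonneg C)]
    refine Real.sqrt_le_sqrt ?_
    rw [← normG hD hb j, ← integral_const_mul]
    refine integral_mono_of_nonneg (Eventually.of_forall fun x => sq_nonneg _)
      (hG.norm.integrable_sq.const_mul _) (Eventually.of_forall fun x => ?_)
    show ‖inner ℝ (G j x) (D.gr β x)‖ ^ 2 ≤ C ^ 2 * ‖G j x‖ ^ 2
    rw [← mul_pow]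
    refine pow_le_pow_left₀ (norm_nonneg _) ?_ 2
    rw [Real.norm_eq_abs, mul_comm]
    exact (abs_real_inner_le_norm _ _).trans (mul_le_mul_of_nonneg_left (hC x) (norm_nonneg _))
  rw [h5, mul_one]
  exact h6

theorem lam_top [Nonempty M] (hD : D.IsSurf μ) (hb : IsEigenbasis D μ u G lam) :
    Tendsto lam atTop atTop := by
  obtain ⟨hfin, hpos⟩ := tFin M μ D hD
  have := hfin
  obtain ⟨a, b, -, -, -, -, hw⟩ := pack μ D hD u lam (basis_eig hb)
  have hμ : 0 < μ.real univ :=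
    ENNReal.toReal_pos (hpos univ isOpen_univ univ_nonempty).ne' (measure_ne_top _ _)
  have h1 : Tendsto (fun j : ℕ => ((j : ℝ) + 1)) atTop atTop :=
    tendsto_atTop_add_const_right _ _ tendsto_natCast_atTop_atTop
  refine (hw.pos_mul_atTop (by positivity) h1).congr fun j => ?_
  have : (j : ℝ) + 1 ≠ 0 := by positivity
  field_simp

theorem comm_lim [Nonempty M] (hD : D.IsSurf μ) (hb : IsEigenbasis D μ u G lam) {β : M → ℝ}
    (hβ : Continuous β) :
    Tendsto (fun j => ∫ x, β x * u j x ^ 2 ∂μ - (lam j)⁻¹ * ∫ x, β x * ‖G j x‖ ^ 2 ∂μ) atTop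
      (𝓝 0) := by
  have htop := lam_top hD hb
  rw [Metric.tendsto_atTop]
  intro ε hε
  have hden := ContinuousMap.subalgebra_topologicalClosure_eq_top_of_separatesPoints
    (alg tGr μ D hD) (sep tGr tLoc μ D hD)
  have hmem : (⟨β, hβ⟩ : C(M, ℝ)) ∈ closure {F : C(M, ℝ) | D.C1 F} := by
    have h1 : (⟨β, hβ⟩ : C(M, ℝ)) ∈ (alg tGr μ D hD).topologicalClosure := by rw [hden]; trivial
    exact h1
  obtain ⟨β', hβ'1, hβ'2⟩ := Metric.mem_closure_iff.1 hmem (ε / 4) (by positivity)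
  have hclose : ∀ x, |β x - β' x| ≤ ε / 4 := by
    intro x
    have h1 := ((⟨β, hβ⟩ : C(M, ℝ)) - β').norm_coe_le_norm x
    rw [dist_eq_norm] at hβ'2
    exact h1.trans hβ'2.le
  obtain ⟨C, hC⟩ := comm1 hD hb hβ'1
  have hlim : Tendsto (fun j => C * (Real.sqrt (lam j))⁻¹) atTop (𝓝 0) := by
    have h1 := (tendsto_inv_atTop_zero.comp (Real.tendsto_sqrt_atTop.comp htop)).const_mul C
    rw [mul_zero] at h1
    exact h1
  obtain ⟨J, hJ⟩ := eventually_atTop.1 ((hlim.eventually (gt_mem_nhds (by positivity :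
    (0 : ℝ) < ε / 4))).and (htop.eventually_gt_atTop 0))
  refine ⟨J, fun j hj => ?_⟩
  obtain ⟨hj1, hj2⟩ := hJ j hj
  rw [Real.dist_eq, sub_zero]
  have hG := hb.memG j
  have hu := (hb.eig j).mem
  obtain ⟨C₁, hC₁⟩ := isCompact_univ.exists_bound_of_continuousOn hβ.continuousOn
  obtain ⟨C₂, hC₂⟩ := isCompact_univ.exists_bound_of_continuousOn β'.continuous.continuousOn
  have iu : Integrable (fun x => u j x ^ 2) μ := hu.integrable_sq
  have iG : Integrable (fun x => ‖G j x‖ ^ 2) μ := hG.norm.integrable_sq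
  have a1 : Integrable (fun x => β x * u j x ^ 2) μ :=
    iu.bdd_mul hβ.aestronglyMeasurable (Eventually.of_forall fun x => hC₁ x (mem_univ x))
  have a2 : Integrable (fun x => β' x * u j x ^ 2) μ :=
    iu.bdd_mul β'.continuous.aestronglyMeasurable (Eventually.of_forall fun x => hC₂ x (mem_univ x))
  have a3 : Integrable (fun x => β x * ‖G j x‖ ^ 2) μ :=
    iG.bdd_mul hβ.aestronglyMeasurable (Eventually.of_forall fun x => hC₁ x (mem_univ x))
  have a4 : Integrable (fun x => β' x * ‖G j x‖ ^ 2) μ :=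
    iG.bdd_mul β'.continuous.aestronglyMeasurable (Eventually.of_forall fun x => hC₂ x (mem_univ x))
  have nu : ∫ x, u j x ^ 2 ∂μ = 1 := by
    have := normU hb j
    simp only [Real.norm_eq_abs, sq_abs] at this
    exact this
  have b1 : |∫ x, β x * u j x ^ 2 ∂μ - ∫ x, β' x * u j x ^ 2 ∂μ| ≤ ε / 4 := by
    rw [← integral_sub a1 a2, ← Real.norm_eq_abs, ← mul_one (ε / 4), ← nu, ← integral_const_mul]
    refine norm_integral_le_of_norm_le (iu.const_mul _) (Eventually.of_forall fun x => ?_)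
    rw [← sub_mul, norm_mul, Real.norm_eq_abs, Real.norm_eq_abs, abs_of_nonneg (sq_nonneg (u j x))]
    exact mul_le_mul_of_nonneg_right (hclose x) (sq_nonneg _)
  have b2 : |∫ x, β x * ‖G j x‖ ^ 2 ∂μ - ∫ x, β' x * ‖G j x‖ ^ 2 ∂μ| ≤ ε / 4 * lam j := by
    rw [← integral_sub a3 a4, ← Real.norm_eq_abs, ← normG hD hb j, ← integral_const_mul]
    refine norm_integral_le_of_norm_le (iG.const_mul _) (Eventually.of_forall fun x => ?_)
    rw [← sub_mul, norm_mul, Real.norm_eq_abs, Real.norm_eq_abs,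
      abs_of_nonneg (sq_nonneg ‖G j x‖)]
    exact mul_le_mul_of_nonneg_right (hclose x) (sq_nonneg _)
  have b3 := hC j
  set X := ∫ x, β x * u j x ^ 2 ∂μ
  set X' := ∫ x, β' x * u j x ^ 2 ∂μ
  set Y := ∫ x, β x * ‖G j x‖ ^ 2 ∂μ
  set Y' := ∫ x, β' x * ‖G j x‖ ^ 2 ∂μ
  have hs : 0 < Real.sqrt (lam j) := Real.sqrt_pos.2 hj2
  have hss : Real.sqrt (lam j) * Real.sqrt (lam j) = lam j := Real.mul_self_sqrt hj2.le
  have c1 : |X' - (lam j)⁻¹ * Y'| ≤ C * (Real.sqrt (lam j))⁻¹ := by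
    have e1 : X' - (lam j)⁻¹ * Y' = (lam j)⁻¹ * (lam j * X' - Y') := by field_simp
    rw [e1, abs_mul, abs_of_pos (inv_pos.2 hj2)]
    have h1 := mul_le_mul_of_nonneg_left b3 (inv_pos.2 hj2).le
    refine h1.trans (le_of_eq ?_)
    have e2 : (lam j)⁻¹ = (Real.sqrt (lam j))⁻¹ * (Real.sqrt (lam j))⁻¹ := by
      rw [← mul_inv, hss]
    rw [e2]
    field_simp
  have c2 : |(lam j)⁻¹ * Y - (lam j)⁻¹ * Y'| ≤ ε / 4 := by
    rw [← mul_sub, abs_mul, abs_of_pos (inv_pos.2 hj2), inv_mul_le_iff₀ hj2, mul_comm]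
    exact b2
  rw [abs_le] at b1 c1 c2
  rw [abs_lt]
  constructor <;> linarith [b1.1, b1.2, c1.1, c1.2, c2.1, c2.2]

end one

section trace

theorem det_sq {P Q : ℂ →L[ℝ] ℂ} (h : ∀ v, ‖P v‖ = ‖Q v‖) : P.det ^ 2 = Q.det ^ 2 := by
  have gram : ∀ P : ℂ →L[ℝ] ℂ, P.det ^ 2 = ‖P 1‖ ^ 2 * ‖P Complex.I‖ ^ 2 -
      ((‖P (1 + Complex.I)‖ ^ 2 - ‖P 1‖ ^ 2 - ‖P Complex.I‖ ^ 2) / 2) ^ 2 := by
    intro P
    rw [det_c, map_add, Complex.sq_norm, Complex.sq_norm, Complex.sq_norm, Complex.normSq_apply,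
      Complex.normSq_apply, Complex.normSq_apply, Complex.add_re, Complex.add_im]
    ring
  rw [gram, gram, h, h, h]

variable {M : Type} [MetricSpace M] [CompactSpace M] [MeasurableSpace M] [BorelSpace M]
  {D : Data M} {A B : ℝ → Fin D.N → ℂ → ℂ →L[ℝ] ℂ} {K : ℝ} {μ : ℝ → Measure M}

omit [MetricSpace M] [CompactSpace M] [MeasurableSpace M] [BorelSpace M] in
theorem det_deriv (h : IsPath D A B K) (t : ℝ) (i : Fin D.N) (z : ℂ) (hz : z ∈ D.T i) :
    HasDerivAt (fun s => (A s i z).det) (tr (B t i z) * (A t i z).det) t := by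
  have h1 := path_deriv h t i z hz 1
  have h2 := path_deriv h t i z hz Complex.I
  have r1 : HasDerivAt (fun s => (A s i z 1).re) (B t i z (A t i z 1)).re t :=
    Complex.reCLM.hasFDerivAt.comp_hasDerivAt t h1
  have r2 : HasDerivAt (fun s => (A s i z 1).im) (B t i z (A t i z 1)).im t :=
    Complex.imCLM.hasFDerivAt.comp_hasDerivAt t h1
  have r3 : HasDerivAt (fun s => (A s i z Complex.I).re) (B t i z (A t i z Complex.I)).re t :=
    Complex.reCLM.hasFDerivAt.comp_hasDerivAt t h2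
  have r4 : HasDerivAt (fun s => (A s i z Complex.I).im) (B t i z (A t i z Complex.I)).im t :=
    Complex.imCLM.hasFDerivAt.comp_hasDerivAt t h2
  have h3 := (r1.mul r4).sub (r3.mul r2)
  have e1 : (fun s => (A s i z).det) = fun s => (A s i z 1).re * (A s i z Complex.I).im -
      (A s i z Complex.I).re * (A s i z 1).im := by
    funext s
    exact det_c _
  rw [e1]
  refine h3.congr_deriv ?_
  rw [det_c, app_c (B t i z) (A t i z 1), app_c (B t i z) (A t i z Complex.I)]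
  unfold tr
  simp only [Complex.add_re, Complex.add_im, Complex.real_smul, Complex.mul_re, Complex.mul_im,
    Complex.ofReal_re, Complex.ofReal_im]
  ring

theorem tr_eq (h : IsPath D A B K) (hS : ∀ t, (fr D (A t)).IsSurf (μ t)) (t : ℝ)
    {i j : Fin D.N} {x : M} (hi : x ∈ D.U i) (hj : x ∈ D.U j) :
    tr (B t i (D.φ i x)) = tr (B t j (D.φ j x)) := by
  set J := fderiv ℝ (fun z => D.φ j (D.ψ i z)) (D.φ i x) with hJ
  have hiT : D.φ i x ∈ D.T i := mem_image_of_mem _ hi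
  have hjT : D.φ j x ∈ D.T j := mem_image_of_mem _ hj
  have h1 : ∀ s, (A s j (D.φ j x)).det ^ 2 * J.det ^ 2 = (A s i (D.φ i x)).det ^ 2 := by
    intro s
    rw [← mul_pow, ← det_mul]
    exact det_sq fun v => ((hS s).tr i j x hi hj).2 v
  have d1 := (det_deriv h t i _ hiT).pow 2
  have d2 := ((det_deriv h t j _ hjT).pow 2).mul_const (J.det ^ 2)
  have e1 : (fun s => (A s j (D.φ j x)).det ^ 2 * J.det ^ 2) =
      fun s => (A s i (D.φ i x)).det ^ 2 := funext h1
  have d3 : HasDerivAt (fun s => (A s j (D.φ j x)).det ^ 2 * J.det ^ 2)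
      (((2 : ℕ) : ℝ) * (A t j (D.φ j x)).det ^ (2 - 1) *
        (tr (B t j (D.φ j x)) * (A t j (D.φ j x)).det) * J.det ^ 2) t := d2
  rw [e1] at d3
  have h2 := d1.unique d3
  have h3 : (A t i (D.φ i x)).det ≠ 0 := (hS t).det i _ hiT
  have h4 : (A t i (D.φ i x)).det ^ 2 ≠ 0 := pow_ne_zero _ h3
  have h5 : tr (B t i (D.φ i x)) * (A t i (D.φ i x)).det ^ 2 =
      tr (B t j (D.φ j x)) * (A t i (D.φ i x)).det ^ 2 := by
    have h6 := h1 t
    simp only [Nat.cast_ofNat, Nat.add_one_sub_one, pow_one] at h2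
    linear_combination (1 / 2 : ℝ) * h2 + tr (B t j (D.φ j x)) * h6
  exact mul_right_cancel₀ h4 h5

theorem trf_at (h : IsPath D A B K) (hS : ∀ t, (fr D (A t)).IsSurf (μ t)) (t : ℝ)
    {i : Fin D.N} {x : M} (hi : x ∈ D.U i) : trf D (B t) x = tr (B t i (D.φ i x)) := by
  obtain ⟨j, hj⟩ := pc_ex D (hS t).cover x
  unfold trf
  rw [pc_sum D hj]
  exact tr_eq h hS t (pc_sub D j hj) hi

theorem trf_cont (h : IsPath D A B K) (hS : ∀ t, (fr D (A t)).IsSurf (μ t)) (t : ℝ) :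
    Continuous (trf D (B t)) := by
  rw [continuous_iff_continuousAt]
  intro x
  obtain ⟨i, hi⟩ := (hS t).cover x
  have h1 : ContinuousOn (fun x => tr (B t i (D.φ i x))) (D.U i) := by
    unfold tr
    have b1 := (B_cont h hS t i 1).comp ((hS t).contφ i) fun x hx => mem_image_of_mem _ hx
    have b2 := (B_cont h hS t i Complex.I).comp ((hS t).contφ i) fun x hx => mem_image_of_mem _ hx
    exact (Complex.continuous_re.comp_continuousOn b1).add
      (Complex.continuous_im.comp_continuousOn b2)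
  have h2 : ContinuousOn (trf D (B t)) (D.U i) :=
    h1.congr fun x hx => trf_at h hS t hx
  exact h2.continuousAt (((hS t).openU i).mem_nhds hi)

end trace

section qq

variable {M : Type}

/-- the quadratic observable `⟪G, b G⟫` -/
def qq (D : Data M) (b : Fin D.N → ℂ → ℂ →L[ℝ] ℂ) (G : M → ℂ) (x : M) : ℝ :=
  ∑ i, (D.pc i).indicator (fun x => inner ℝ (G x) (b i (D.φ i x) (G x))) x

theorem qf_qq {D : Data M} (hc : ∀ x, ∃ i, x ∈ D.U i) (b : Fin D.N → ℂ → ℂ →L[ℝ] ℂ) (G : M → ℂ)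
    (x : M) : qf D b G x = trf D b x * ‖G x‖ ^ 2 - 2 * qq D b G x := by
  obtain ⟨i, hi⟩ := pc_ex D hc x
  unfold qf trf qq
  rw [pc_sum D hi, pc_sum D hi, pc_sum D hi]

variable [MetricSpace M] [CompactSpace M] [MeasurableSpace M] [BorelSpace M] [Nonempty M]
  {D : Data M} {A B : ℝ → Fin D.N → ℂ → ℂ →L[ℝ] ℂ} {K : ℝ} {μ : ℝ → Measure M}
  {u : ℝ → ℕ → M → ℝ} {G : ℝ → ℕ → M → ℂ} {lam : ℝ → ℕ → ℝ}

theorem kap_split (h : IsPath D A B K) (hS : ∀ t, (fr D (A t)).IsSurf (μ t))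
    (hb : ∀ t, IsEigenbasis (fr D (A t)) (μ t) (u t) (G t) (lam t)) (t : ℝ) (j : ℕ) :
    kap D (B t) (μ t) (u t j) (G t j) (lam t j) -
      2 * ((lam t j)⁻¹ * ∫ x, qq D (B t) (G t j) x ∂μ t) =
      ∫ x, trf D (B t) x * u t j x ^ 2 ∂μ t -
        (lam t j)⁻¹ * ∫ x, trf D (B t) x * ‖G t j x‖ ^ 2 ∂μ t := by
  have hG := (hb t).memG j
  have i1 : Integrable (fun x => trf D (B t) x * ‖G t j x‖ ^ 2) (μ t) :=
    (hG.norm.integrable_sq).bdd_mul (trf_meas h hS t).aestronglyMeasurable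
      (Eventually.of_forall fun x => trf_bound h (hS t).cover t x)
  have i2 : Integrable (fun x => qf D (B t) (G t j) x) (μ t) := by
    have := quad_int (qd_QD h hS t (μ t)) hG
    simp only [← qf_eq (D := D) (hS t).cover] at this
    exact this
  have i3 : ∫ x, qq D (B t) (G t j) x ∂μ t =
      (∫ x, trf D (B t) x * ‖G t j x‖ ^ 2 ∂μ t - ∫ x, qf D (B t) (G t j) x ∂μ t) / 2 := by
    rw [← integral_sub i1 i2, ← integral_div]
    refine integral_congr_ae (Eventually.of_forall fun x => ?_)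
    show qq D (B t) (G t j) x = (trf D (B t) x * ‖G t j x‖ ^ 2 - qf D (B t) (G t j) x) / 2
    rw [qf_qq (D := D) (hS t).cover]
    ring
  rw [i3]
  unfold kap
  ring

end qq

section main

variable {M : Type} [MetricSpace M] [CompactSpace M] [MeasurableSpace M] [BorelSpace M]
  [Nonempty M] {E : Type*} [NormedAddCommGroup E] [NormedSpace ℝ E] {D : Data M}
  {A : E → Fin D.N → ℂ → ℂ →L[ℝ] ℂ} {B : E → E →ₗ[ℝ] (Fin D.N → ℂ → ℂ →L[ℝ] ℂ)} {K : ℝ}
  {μ : E → Measure M} {u : E → ℕ → M → ℝ} {G : E → ℕ → M → ℂ} {lam : E → ℕ → ℝ}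

theorem kap_lim (h : IsFamily D A B K) (hS : ∀ s, (fr D (A s)).IsSurf (μ s))
    (hb : ∀ s, IsEigenbasis (fr D (A s)) (μ s) (u s) (G s) (lam s)) (s w : E) :
    Tendsto (fun j => kap D (B s w) (μ s) (u s j) (G s j) (lam s j) -
      2 * ((lam s j)⁻¹ * ∫ x, qq D (B s w) (G s j) x ∂μ s)) atTop (𝓝 0) := by
  have hp := fam_path h s w
  have e1 := fun j => kap_split hp (μ := fun t : ℝ => μ (s + t • w))
    (u := fun t : ℝ => u (s + t • w)) (G := fun t : ℝ => G (s + t • w))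
    (lam := fun t : ℝ => lam (s + t • w)) (fun t => hS _) (fun t => hb _) 0 j
  simp only [zero_smul, add_zero] at e1
  simp only [e1]
  have hc := trf_cont hp (μ := fun t : ℝ => μ (s + t • w)) (fun t => hS _) 0
  simp only [zero_smul, add_zero] at hc
  exact comm_lim (hS s) (hb s) hc

theorem kap_le (h : IsFamily D A B K) (hS : ∀ s, (fr D (A s)).IsSurf (μ s))
    (hb : ∀ s, IsEigenbasis (fr D (A s)) (μ s) (u s) (G s) (lam s)) (s w : E) (j : ℕ) :
    |kap D (B s w) (μ s) (u s j) (G s j) (lam s j)| ≤ 6 * (K * ‖w‖) ∧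
    |kap D (B s w) (μ s) (u s j) (G s j) (lam s j) -
      2 * ((lam s j)⁻¹ * ∫ x, qq D (B s w) (G s j) x ∂μ s)| ≤ 4 * (K * ‖w‖) := by
  have hp := fam_path h s w
  have hK : 0 ≤ K * ‖w‖ := hp.nonneg
  have e1 := (kap_bounds hp (μ := fun t : ℝ => μ (s + t • w))
    (u := fun t : ℝ => u (s + t • w)) (G := fun t : ℝ => G (s + t • w))
    (lam := fun t : ℝ => lam (s + t • w)) (fun t => hS _) (fun t => hb _) 0 j).2.2.1
  have e2 := kap_split hp (μ := fun t : ℝ => μ (s + t • w))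
    (u := fun t : ℝ => u (s + t • w)) (G := fun t : ℝ => G (s + t • w))
    (lam := fun t : ℝ => lam (s + t • w)) (fun t => hS _) (fun t => hb _) 0 j
  have q1 := wt_meas hp (μ := fun t : ℝ => μ (s + t • w)) (fun t => hS _) 0
  have m1 := trf_meas hp (μ := fun t : ℝ => μ (s + t • w)) (fun t => hS _) 0
  have b1 := trf_bound hp (hS s).cover 0
  simp only [zero_smul, add_zero] at e1 e2 q1 m1 b1
  refine ⟨?_, ?_⟩
  · rw [kap_eq (D := D) (hS s).cover]
    exact e1
  rw [e2]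
  have q2 : QD (μ s) (fun (x : M) (w' : ℂ) => trf D (B s w) x * ‖w'‖ ^ 2) (2 * (K * ‖w‖)) :=
    QD_wt m1 (by positivity) b1
  have h1 := quad_bd q1 ((hb s).eig j).mem
  rw [normU (hb s), mul_one] at h1
  simp only [Real.norm_eq_abs, sq_abs] at h1
  have h2 := quad_bd q2 ((hb s).memG j)
  rw [normG (hS s) (hb s)] at h2
  have hl := lam_nonneg (hS s) (hb s) j
  have h3 : |(lam s j)⁻¹ * ∫ x, trf D (B s w) x * ‖G s j x‖ ^ 2 ∂μ s| ≤ 2 * (K * ‖w‖) := by
    rw [abs_mul, abs_of_nonneg (inv_nonneg.2 hl)]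
    rcases eq_or_lt_of_le hl with h0 | h0
    · rw [← h0, inv_zero, zero_mul]; positivity
    · calc (lam s j)⁻¹ * |∫ x, trf D (B s w) x * ‖G s j x‖ ^ 2 ∂μ s| ≤
          (lam s j)⁻¹ * (2 * (K * ‖w‖) * lam s j) :=
          mul_le_mul_of_nonneg_left h2 (inv_nonneg.2 hl)
        _ = 2 * (K * ‖w‖) := by field_simp
  refine (abs_sub _ _).trans ?_
  linarith

variable [FiniteDimensional ℝ E] [MeasurableSpace E] [BorelSpace E]

/-- the measurability of the derivatives of the eigenvalues -/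
theorem kap_meas (h : IsFamily D A B K) (hS : ∀ s, (fr D (A s)).IsSurf (μ s))
    (hb : ∀ s, IsEigenbasis (fr D (A s)) (μ s) (u s) (G s) (lam s)) (ν : Measure E)
    [ν.IsAddHaarMeasure] : ∃ J : ℕ, ∀ j, J ≤ j → Measurable (fun s => lam s j) ∧
      ∀ w, AEMeasurable (fun s => kap D (B s w) (μ s) (u s j) (G s j) (lam s j)) ν := by
  obtain ⟨J, hJ⟩ : ∃ J : ℕ, ∀ j, J ≤ j → ∀ s, 0 < lam s j := by
    obtain ⟨J, hJ⟩ := eventually_atTop.1 ((lam_top (hS 0) (hb 0)).eventually_gt_atTop 0)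
    refine ⟨J, fun j hj s => ?_⟩
    have h5 := (hJ j hj).trans_le (lip_fam h hS hb j 0 s)
    exact (pos_iff_pos_of_mul_pos h5).1 (Real.exp_pos _)
  refine ⟨J, fun j hj => ?_⟩
  have hm : Measurable (fun s => lam s j) := by
    have h1 := (lip_log_fam h hS hb j (hJ j hj)).continuous.measurable.exp
    have h2 : (fun s => Real.exp (Real.log (lam s j))) = fun s => lam s j := by
      funext s
      exact Real.exp_log (hJ j hj s)
    rwa [h2] at h1
  refine ⟨hm, fun w => ?_⟩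
  refine AEMeasurable.congr (f := fun s => -(fderiv ℝ (fun s => lam s j) s w) / lam s j)
    ((measurable_fderiv_apply_const ℝ _ w).neg.div hm).aemeasurable ?_
  filter_upwards [fam_diff h hS hb ν] with s hs
  rw [(hs j).2 w]
  have := (hJ j hj s).ne'
  field_simp

/-- quadratic phase space observables -/
theorem fam_mic (h : IsFamily D A B K) (hS : ∀ s, (fr D (A s)).IsSurf (μ s))
    (hb : ∀ s, IsEigenbasis (fr D (A s)) (μ s) (u s) (G s) (lam s)) (ν : Measure E)
    [ν.IsAddHaarMeasure] (w : E)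
    (hm : ∀ j, AEMeasurable (fun s => ∫ x, qq D (B s w) (G s j) x ∂μ s) ν)
    (χ : E → ℝ) (hχ : Integrable χ ν) :
    Tendsto (fun j => ∫ s, χ s * ((lam s j)⁻¹ * ∫ x, qq D (B s w) (G s j) x ∂μ s) ∂ν) atTop
      (𝓝 (∫ s, χ s * (mn D (B s w) (μ s) / 2) ∂ν)) := by
  obtain ⟨J, hJ⟩ := kap_meas h hS hb ν
  have h1 := fam_weak h hS hb ν w χ hχ
  set dd : ℕ → E → ℝ := fun j s => kap D (B s w) (μ s) (u s j) (G s j) (lam s j) -
      2 * ((lam s j)⁻¹ * ∫ x, qq D (B s w) (G s j) x ∂μ s) with hdd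
  have md : ∀ j, J ≤ j → AEMeasurable (dd j) ν := fun j hj =>
    ((hJ j hj).2 w).sub (((hJ j hj).1.inv.aemeasurable.mul (hm j)).const_mul 2)
  have h2 : Tendsto (fun j => ∫ s, χ s * dd (j + J) s ∂ν) atTop (𝓝 (∫ s, χ s * 0 ∂ν)) := by
    refine tendsto_integral_of_dominated_convergence (fun s => ‖χ s‖ * (4 * (K * ‖w‖))) ?_ ?_ ?_ ?_
    · exact fun j => hχ.aestronglyMeasurable.mul (md (j + J) (by omega)).aestronglyMeasurable
    · exact hχ.norm.mul_const _
    · refine fun j => Eventually.of_forall fun s => ?_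
      rw [norm_mul]
      exact mul_le_mul_of_nonneg_left (kap_le h hS hb s w (j + J)).2 (norm_nonneg _)
    · refine Eventually.of_forall fun s => ?_
      exact ((tendsto_add_atTop_iff_nat J).2 (kap_lim h hS hb s w)).const_mul _
  simp only [mul_zero, integral_zero] at h2
  have h3 := (((tendsto_add_atTop_iff_nat J).2 h1).sub h2).div_const 2
  rw [sub_zero, ← integral_div] at h3
  refine (tendsto_add_atTop_iff_nat J).1 ?_
  have e0 : ∫ s, χ s * mn D (B s w) (μ s) / 2 ∂ν = ∫ s, χ s * (mn D (B s w) (μ s) / 2) ∂ν :=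
    integral_congr_ae (Eventually.of_forall fun s => by ring)
  rw [e0] at h3
  refine h3.congr fun j => ?_
  have i1 : Integrable (fun s => χ s * kap D (B s w) (μ s) (u s (j + J)) (G s (j + J))
      (lam s (j + J))) ν :=
    hχ.mul_bdd ((hJ (j + J) (by omega)).2 w).aestronglyMeasurable
      (Eventually.of_forall fun s => (kap_le h hS hb s w (j + J)).1)
  have i2 : Integrable (fun s => χ s * dd (j + J) s) ν :=
    hχ.mul_bdd (md (j + J) (by omega)).aestronglyMeasurable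
      (Eventually.of_forall fun s => (kap_le h hS hb s w (j + J)).2)
  rw [← integral_sub i1 i2, ← integral_div]
  refine integral_congr_ae (Eventually.of_forall fun s => ?_)
  simp only [hdd]
  ring

end main

end Pool.Agent.J4.H45.PS
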