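import Pool.Agent.J4.H45.PS.Der
import Pool.Agent.Y147.QR.AE
import Pool.Agent.Y401.QR.Dens

/-!
# Equidistribution in the mean along a path of metrics
-/

set_option autoImplicit false

open Set Filter Topology MeasureTheory
open scoped Real
open Pool.Agent.Y262.QE Pool.Agent.Y264.QR

noncomputable section

namespace Pool.Agent.J4.H45.PS

variable {M : Type} [MetricSpace M] [CompactSpace M] [MeasurableSpace M] [BorelSpace M]
  [Nonempty M] {D : Data M} {A B : ℝ → Fin D.N → ℂ → ℂ →L[ℝ] ℂ} {K : ℝ} {μ : ℝ → Measure M}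
  {u : ℝ → ℕ → M → ℝ} {G : ℝ → ℕ → M → ℂ} {lam : ℝ → ℕ → ℝ}

/-- the eigenvalues are Lipschitz along the path -/
theorem lip (h : IsPath D A B K) (hS : ∀ t, (fr D (A t)).IsSurf (μ t))
    (hb : ∀ t, IsEigenbasis (fr D (A t)) (μ t) (u t) (G t) (lam t)) (j : ℕ) (s t : ℝ) :
    lam s j ≤ Real.exp (6 * K * |s - t|) * lam t j := by
  have hK := h.nonneg
  set d := |s - t| with hd
  have hd0 : 0 ≤ d := abs_nonneg _
  have hl := lam_nonneg (hS t) (hb t) j
  set X := Real.exp (6 * K * d) * lam t j with hX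
  have hX0 : 0 ≤ X := mul_nonneg (Real.exp_pos _).le hl
  set b := Real.exp (4 * K * d) with hbd
  set a := Real.exp (-(2 * K * d)) with ha
  have ha0 : 0 < a := Real.exp_pos _
  have hb0 : 0 < b := Real.exp_pos _
  have hXa : X * a = b * lam t j := by
    have e1 : Real.exp (6 * K * d) * a = b := by
      rw [ha, hbd, ← Real.exp_add]
      congr 1
      ring
    calc X * a = (Real.exp (6 * K * d) * a) * lam t j := by rw [hX]; ring
      _ = b * lam t j := by rw [e1]
  refine le_of_forall_pos_le_add fun r hr => ?_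
  set η := min (a / 2) (r * a / (1 + X + r)) with hη
  have hη0 : 0 < η := by positivity
  have hη1 : η ≤ a / 2 := min_le_left _ _
  have hη2 : η * (1 + X + r) ≤ r * a := by
    have : η ≤ r * a / (1 + X + r) := min_le_right _ _
    rwa [le_div_iff₀ (by positivity)] at this
  have hbG := (hb t).memG
  have hbu : ∀ p, MemLp (u t p) 2 (μ t) := fun p => ((hb t).eig p).mem
  have C1 : QD (μ t) (fun (_ : M) (w : ℂ) => b * ‖w‖ ^ 2) (|b| * 1 + |a| * 1) :=
    ((QD_norm (μ := μ t) (E := ℂ) (M := M)).smul b).mono (by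
      have := abs_nonneg a
      linarith)
  have C2 : QD (μ t) (fun (_ : M) (w : ℝ) => a * ‖w‖ ^ 2) (|b| * 1 + |a| * 1) :=
    ((QD_norm (μ := μ t) (E := ℝ) (M := M)).smul a).mono (by
      have := abs_nonneg b
      linarith)
  have j1 : ∀ c : Fin (j + 1) → ℝ, ∫ x, b * ‖∑ p, c p • G t p x‖ ^ 2 ∂μ t =
      b * ∑ p : Fin (j + 1), lam t p * c p ^ 2 := by
    intro c
    rw [integral_const_mul, orth_sum (X := fun p : Fin (j + 1) => G t p)
      (e := fun p : Fin (j + 1) => lam t p) (fun p => hbG _) (fun p q => ?_) c]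
    rw [orthG (hS t) (hb t)]
    simp only [Fin.val_inj]
  have j2 : ∀ c : Fin (j + 1) → ℝ, ∫ x, a * ‖∑ p, c p * u t p x‖ ^ 2 ∂μ t =
      a * ∑ p : Fin (j + 1), c p ^ 2 := by
    intro c
    have := orth_sum (X := fun p : Fin (j + 1) => u t p)
      (e := fun p : Fin (j + 1) => 1) (fun p => hbu _) (fun p q => by
        rw [orthU (hb t)]
        simp only [Fin.val_inj]) c
    simp only [smul_eq_mul, one_mul] at this
    rw [integral_const_mul, this]
  refine trial (hS t) (hS s) ⟨_, fun x => (path_comp h hS s t x).1⟩ (hb t)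
    (basis_eig (hb s)) j (fun p => p.1) C1 C2 ?_ ?_ (X + r) (by positivity) η hη0 ?_ ?_
  · intro F hF x
    obtain ⟨p1, p2, p3⟩ := path_comp h hS s t x
    have q1 : ‖(fr D (A s)).gr F x‖ ^ 2 ≤
        (Real.exp (K * |s - t|) * ‖(fr D (A t)).gr F x‖) ^ 2 :=
      pow_le_pow_left₀ (norm_nonneg _) (p3 F) 2
    have q2 := mul_le_mul p1 q1 (sq_nonneg _) (Real.exp_pos _).le
    refine q2.trans (le_of_eq ?_)
    rw [mul_pow, ← mul_assoc, ← Real.exp_nat_mul, ← Real.exp_add, hbd, ← hd]
    congr 2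
    push_cast
    ring
  · intro x w
    obtain ⟨p1, p2, p3⟩ := path_comp h hS s t x
    rw [Real.norm_eq_abs, sq_abs]
    exact mul_le_mul_of_nonneg_right p2 (sq_nonneg _)
  · intro c
    rw [j1, j2]
    have hs : 0 ≤ ∑ p, c p ^ 2 := Finset.sum_nonneg fun p _ => sq_nonneg _
    have h1 : ∑ p : Fin (j + 1), lam t p * c p ^ 2 ≤ lam t j * ∑ p, c p ^ 2 := by
      rw [Finset.mul_sum]
      refine Finset.sum_le_sum fun p _ => mul_le_mul_of_nonneg_right ?_ (sq_nonneg _)
      exact (hb t).mono (by have := p.2; omega)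
    have h2 : b * lam t j + η ≤ (X + r) * (a - η) := by
      rw [← hXa]
      linear_combination hη2
    have h3 := mul_le_mul_of_nonneg_right h2 hs
    have h4 := mul_le_mul_of_nonneg_left h1 hb0.le
    linear_combination h3 + h4
  · intro c hc
    have hs : 0 < ∑ p, c p ^ 2 := by
      obtain ⟨p, hp⟩ := Function.ne_iff.1 hc
      exact lt_of_lt_of_le (sq_pos_of_ne_zero hp : 0 < c p ^ 2)
        (Finset.single_le_sum (f := fun p => c p ^ 2) (fun p _ => sq_nonneg _) (Finset.mem_univ p))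
    rw [j2]
    have : 0 < (a - η) * ∑ p, c p ^ 2 := mul_pos (by linarith) hs
    linarith

/-- the derivative of the area -/
theorem area (h : IsPath D A B K) (hS : ∀ t, (fr D (A t)).IsSurf (μ t)) (t : ℝ) :
    0 < (μ t).real univ ∧
      HasDerivAt (fun s => (μ s).real univ) (∫ x, trf D (B t) x ∂μ t) t := by
  have hfin : ∀ t, IsFiniteMeasure (μ t) := fun t => (tFin M (μ t) (fr D (A t)) (hS t)).1
  have hint : ∀ s, (μ s).real univ = ∫ x, rho D (A t) (A s) x ∂μ t := by
    intro s
    have h1 := mea_int (hS t) (hS s) (fun _ => 1)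
    haveI := hfin s
    simp only [integral_const, smul_eq_mul, mul_one] at h1
    exact h1
  haveI := hfin t
  have hpos : 0 < (μ t).real univ :=
    ENNReal.toReal_pos ((tFin M (μ t) (fr D (A t)) (hS t)).2 univ isOpen_univ univ_nonempty).ne'
      (measure_ne_top _ _)
  refine ⟨hpos, ?_⟩
  rw [hasDerivAt_iff_isLittleO_nhds_zero, Asymptotics.isLittleO_iff]
  intro ε hε
  set c := (μ t).real univ with hc
  obtain ⟨δ, hδ, h1⟩ := path_first h hS t (ε / c) (by positivity)
  filter_upwards [Metric.ball_mem_nhds (0 : ℝ) hδ] with τ hτ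
  rw [mem_ball_zero_iff, Real.norm_eq_abs] at hτ
  have i1 : Integrable (rho D (A t) (A (t + τ))) (μ t) := by
    refine Integrable.of_bound (rho_meas (hS t) (hS (t + τ))).aestronglyMeasurable
      (Real.exp (2 * K * |t + τ - t|)) (Eventually.of_forall fun x => ?_)
    rw [Real.norm_eq_abs, abs_of_nonneg (rho_nonneg (D := D) (hS t).cover x)]
    exact (path_comp h hS (t + τ) t x).1
  have i2 : Integrable (trf D (B t)) (μ t) :=
    Integrable.of_bound (trf_meas h hS t).aestronglyMeasurable (2 * K)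
      (Eventually.of_forall (trf_bound h (hS t).cover t))
  have e1 : (μ (t + τ)).real univ - c - τ • ∫ x, trf D (B t) x ∂μ t =
      ∫ x, (rho D (A t) (A (t + τ)) x - 1 - τ * trf D (B t) x) ∂μ t := by
    have i3 : Integrable (fun x => rho D (A t) (A (t + τ)) x - 1) (μ t) :=
      i1.sub (integrable_const _)
    rw [integral_sub i3 (i2.const_mul τ), integral_sub i1 (integrable_const _),
      integral_const_mul, hint (t + τ)]
    simp [hc]
  rw [e1]
  refine (norm_integral_le_of_norm_le_const (C := ε / c * |τ|) (Eventually.of_forall fun x => ?_)).trans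
    (le_of_eq ?_)
  · rw [Real.norm_eq_abs]
    exact (h1 τ hτ x).1
  · rw [← hc, Real.norm_eq_abs]
    field_simp

theorem kap_eq (hc : ∀ x, ∃ i, x ∈ D.U i) (b : Fin D.N → ℂ → ℂ →L[ℝ] ℂ) (m : Measure M)
    (v : M → ℝ) (g : M → ℂ) (l : ℝ) : kap D b m v g l =
      ∫ x, trf D b x * ‖v x‖ ^ 2 ∂m - l⁻¹ * ∫ x, qd D b x (g x) ∂m := by
  unfold kap
  simp only [qf_eq hc, Real.norm_eq_abs, sq_abs]

/-- **Equidistribution in the mean along a path of metrics.** -/
theorem one (h : IsPath D A B K) (hS : ∀ t, (fr D (A t)).IsSurf (μ t))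
    (hb : ∀ t, IsEigenbasis (fr D (A t)) (μ t) (u t) (G t) (lam t)) :
    (∀ᵐ t : ℝ, ∀ j, HasDerivAt (fun s => lam s j)
      (-(kap D (B t) (μ t) (u t j) (G t j) (lam t j) * lam t j)) t) ∧
    ∀ χ : ℝ → ℝ, Integrable χ volume →
      Tendsto (fun j => ∫ t, χ t * kap D (B t) (μ t) (u t j) (G t j) (lam t j)) atTop
        (𝓝 (∫ t, χ t * ((∫ x, trf D (B t) x ∂μ t) / (μ t).real univ))) := by
  have hK := h.nonneg
  have hfin : ∀ t, IsFiniteMeasure (μ t) := fun t => (tFin M (μ t) (fr D (A t)) (hS t)).1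
  have hA : ∀ t, 0 < (μ t).real univ := fun t => (area h hS t).1
  have hA' : ∀ t, HasDerivAt (fun s => (μ s).real univ) (∫ x, trf D (B t) x ∂μ t) t :=
    fun t => (area h hS t).2
  have hLp := lip h hS hb
  have c1 := Pool.Agent.Y147.QR.stAE (fun j t => lam t j)
    (fun j t => kap D (B t) (μ t) (u t j) (G t j) (lam t j)) (6 * K)
    (fun j t => lam_nonneg (hS t) (hb t) j) (fun i' j t hij => (hb t).mono hij)
    (fun j s t => hLp j s t) (by
      intro i' j t hij hl ε hε
      obtain ⟨δ, hδ, h1⟩ := der h hS hb t i' j hij hl hε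
      refine ⟨δ, hδ, fun τ hτ => ?_⟩
      have h2 := h1 τ hτ
      rw [← kap_eq (D := D) (hS t).cover] at h2
      exact h2)
  refine ⟨c1, fun χ hχ => ?_⟩
  have hW : ∀ t, Tendsto (fun j : ℕ => lam t j / (j + 1)) atTop (𝓝 (4 * π / (μ t).real univ)) := by
    intro t
    obtain ⟨a, b, -, -, -, -, hw⟩ := pack (μ t) (fr D (A t)) (hS t) (u t) (lam t) (basis_eig (hb t))
    exact hw
  obtain ⟨J, hJ⟩ : ∃ J : ℕ, ∀ j, J ≤ j → ∀ t, 0 < lam t j := by
    have h2 : (0 : ℝ) < 4 * π / (μ 0).real univ := div_pos (by positivity) (hA 0)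
    obtain ⟨J, hJ⟩ := eventually_atTop.1 ((hW 0).eventually (lt_mem_nhds h2))
    refine ⟨J, fun j hj t => ?_⟩
    have h3 := hJ j hj
    have h4 : 0 < lam 0 j := by
      rcases eq_or_lt_of_le (lam_nonneg (hS 0) (hb 0) j) with h5 | h5
      · rw [← h5, zero_div] at h3
        exact absurd h3 (lt_irrefl _)
      · exact h5
    have h5 := h4.trans_le (hLp j 0 t)
    exact (pos_iff_pos_of_mul_pos h5).1 (Real.exp_pos _)
  have hftc : ∀ j, J ≤ j →
      (∀ᵐ t : ℝ, |kap D (B t) (μ t) (u t j) (G t j) (lam t j)| ≤ 6 * K) ∧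
      AEMeasurable (fun t : ℝ => kap D (B t) (μ t) (u t j) (G t j) (lam t j)) volume ∧
      ∀ α β : ℝ, α ≤ β → ∫ t in α..β, kap D (B t) (μ t) (u t j) (G t j) (lam t j) =
        Real.log (lam α j) - Real.log (lam β j) := by
    intro j hj
    exact Pool.Agent.Y147.QR.stFTC (fun t => lam t j)
      (fun t => kap D (B t) (μ t) (u t j) (G t j) (lam t j)) (6 * K)
      (fun t => hJ j hj _) (hLp j) (c1.mono fun t ht => ht j)
  have hbd : ∀ t, |(∫ x, trf D (B t) x ∂μ t) / (μ t).real univ| ≤ 2 * K := by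
    intro t
    haveI := hfin t
    rw [abs_div, abs_of_pos (hA t), div_le_iff₀ (hA t), ← Real.norm_eq_abs]
    refine (norm_integral_le_of_norm_le_const (C := 2 * K) (Eventually.of_forall fun x => ?_))
    exact trf_bound h (hS t).cover t x
  have hlogd : ∀ t, HasDerivAt (fun s => Real.log ((μ s).real univ))
      ((∫ x, trf D (B t) x ∂μ t) / (μ t).real univ) t := fun t => (hA' t).log (hA t).ne'
  have hme : Measurable fun t => (∫ x, trf D (B t) x ∂μ t) / (μ t).real univ := by
    have e2 : (fun t => (∫ x, trf D (B t) x ∂μ t) / (μ t).real univ) =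
        deriv (fun s => Real.log ((μ s).real univ)) := funext fun t => (hlogd t).deriv.symm
    rw [e2]
    exact measurable_deriv _
  have h1 := Pool.Agent.Y401.QR.t_Dens
    (fun j t => kap D (B t) (μ t) (u t (j + J)) (G t (j + J)) (lam t (j + J)))
    (fun t => (∫ x, trf D (B t) x ∂μ t) / (μ t).real univ) (6 * K)
    (fun j => (hftc (j + J) (by omega)).2.1)
    hme.aemeasurable (fun j => (hftc (j + J) (by omega)).1)
    (ae_of_all _ fun t => (hbd t).trans (by linarith)) (by
      intro α β hαβ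
      have hlog : ∀ t : ℝ, Tendsto
          (fun j : ℕ => Real.log (lam t (j + J) / (((j + J : ℕ) : ℝ) + 1))) atTop
          (𝓝 (Real.log (4 * π / (μ t).real univ))) := by
        intro t
        have h2 := (tendsto_add_atTop_iff_nat J).2 (hW t)
        exact h2.log (div_pos (by positivity) (hA _)).ne'
      have h3 := (hlog α).sub (hlog β)
      have e1 : Real.log (4 * π / (μ α).real univ) - Real.log (4 * π / (μ β).real univ) =
          ∫ t in α..β, (∫ x, trf D (B t) x ∂μ t) / (μ t).real univ := by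
        rw [intervalIntegral.integral_eq_sub_of_hasDerivAt (fun t _ => hlogd t),
          Real.log_div (by positivity) (hA _).ne', Real.log_div (by positivity) (hA _).ne']
        · ring
        · rw [intervalIntegrable_iff]
          exact Measure.integrableOn_of_bounded (M := 2 * K) (by simp) hme.aestronglyMeasurable
            (ae_of_all _ hbd)
      rw [e1] at h3
      refine h3.congr fun j => ?_
      rw [(hftc (j + J) (by omega)).2.2 α β hαβ]
      have hj : ((j + J : ℕ) : ℝ) + 1 ≠ 0 := by positivity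
      rw [Real.log_div (hJ (j + J) (by omega) _).ne' hj,
        Real.log_div (hJ (j + J) (by omega) _).ne' hj]
      ring) χ hχ
  exact (tendsto_add_atTop_iff_nat
    (f := fun j => ∫ t, χ t * kap D (B t) (μ t) (u t j) (G t j) (lam t j)) J).1 h1

end Pool.Agent.J4.H45.PS
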