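import Pool.Agent.J4.H45.PS.MM

/-!
# Trial functions
-/

set_option autoImplicit false

open Set Filter Topology MeasureTheory
open scoped Real
open Pool.Agent.Y262.QE Pool.Agent.Y264.QR

noncomputable section

namespace Pool.Agent.J4.H45.PS

section quad

variable {M : Type} [MeasurableSpace M] {E : Type*} [NormedAddCommGroup E]

/-- densities of the type of a quadratic form -/
structure QD (μ : Measure M) (q : M → E → ℝ) (C : ℝ) : Prop where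
  nonneg : 0 ≤ C
  zero : ∀ x, q x 0 = 0
  lip : ∀ x w w', |q x w - q x w'| ≤ C * (‖w - w'‖ * (‖w‖ + ‖w'‖))
  meas : ∀ f : M → E, AEStronglyMeasurable f μ → AEStronglyMeasurable (fun x => q x (f x)) μ

theorem quad_int {μ : Measure M} {q : M → E → ℝ} {C : ℝ} (hq : QD μ q C) {f : M → E}
    (hf : MemLp f 2 μ) : Integrable (fun x => q x (f x)) μ := by
  have h1 : Integrable (fun x => C * ‖f x‖ ^ 2) μ := by
    have h2 := hf.norm.integrable_sq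
    exact h2.const_mul C
  refine h1.mono' (hq.meas f hf.aestronglyMeasurable) (Eventually.of_forall fun x => ?_)
  have h3 := hq.lip x (f x) 0
  rw [hq.zero, sub_zero, sub_zero, norm_zero, add_zero, ← sq] at h3
  rw [Real.norm_eq_abs]
  exact h3

theorem quad_near {μ : Measure M} {q : M → E → ℝ} {C : ℝ} (hq : QD μ q C) {f g : M → E}
    (hf : MemLp f 2 μ) (hg : MemLp g 2 μ) {θ : ℝ} (hθ : 0 < θ) :
    |∫ x, q x (f x) ∂μ - ∫ x, q x (g x) ∂μ| ≤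
      C * ((1 + 1 / θ) * ∫ x, ‖f x - g x‖ ^ 2 ∂μ + θ * ∫ x, ‖g x‖ ^ 2 ∂μ) := by
  have i1 : Integrable (fun x => ‖f x - g x‖ ^ 2) μ := (hf.sub hg).norm.integrable_sq
  have i2 : Integrable (fun x => ‖g x‖ ^ 2) μ := hg.norm.integrable_sq
  rw [← integral_sub (quad_int hq hf) (quad_int hq hg), ← Real.norm_eq_abs]
  refine (norm_integral_le_of_norm_le
    (((i1.const_mul (1 + 1 / θ)).add (i2.const_mul θ)).const_mul C)
    (Eventually.of_forall fun x => ?_)).trans (le_of_eq ?_)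
  · rw [Real.norm_eq_abs]
    refine (hq.lip x (f x) (g x)).trans (mul_le_mul_of_nonneg_left ?_ hq.nonneg)
    have h1 : ‖f x‖ ≤ ‖f x - g x‖ + ‖g x‖ := by
      have := norm_add_le (f x - g x) (g x)
      simpa using this
    set a := ‖f x - g x‖
    set b := ‖g x‖
    have ha : 0 ≤ a := norm_nonneg _
    have hb : 0 ≤ b := norm_nonneg _
    have h2 : 2 * (a * b) ≤ 1 / θ * a ^ 2 + θ * b ^ 2 := by
      have h3 : 0 ≤ (a - θ * b) ^ 2 / θ := by positivity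
      have h4 : (a - θ * b) ^ 2 / θ = 1 / θ * a ^ 2 + θ * b ^ 2 - 2 * (a * b) := by
        field_simp; ring
      linarith
    calc a * (‖f x‖ + b) ≤ a * (a + b + b) := by
          refine mul_le_mul_of_nonneg_left ?_ ha
          linarith
      _ ≤ (1 + 1 / θ) * a ^ 2 + θ * b ^ 2 := by linarith
  · rw [integral_const_mul]
    congr 1
    rw [← integral_const_mul, ← integral_const_mul, ← integral_add (i1.const_mul _) (i2.const_mul _)]
    rfl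

theorem sum_sq_le {E : Type*} [NormedAddCommGroup E] [NormedSpace ℝ E] {n : ℕ} (c : Fin n → ℝ)
    (v : Fin n → E) : ‖∑ p, c p • v p‖ ^ 2 ≤ n * ∑ p, c p ^ 2 * ‖v p‖ ^ 2 := by
  have h1 : ‖∑ p, c p • v p‖ ≤ ∑ p, |c p| * ‖v p‖ := by
    refine (norm_sum_le _ _).trans (Finset.sum_le_sum fun p _ => ?_)
    rw [norm_smul, Real.norm_eq_abs]
  have h2 : (∑ p, |c p| * ‖v p‖) ^ 2 ≤ n * ∑ p, (|c p| * ‖v p‖) ^ 2 := by
    have := sq_sum_le_card_mul_sum_sq (s := (Finset.univ : Finset (Fin n)))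
      (f := fun p => |c p| * ‖v p‖)
    simpa using this
  refine (pow_le_pow_left₀ (norm_nonneg _) h1 2).trans (h2.trans (le_of_eq ?_))
  congr 1
  refine Finset.sum_congr rfl fun p _ => ?_
  rw [mul_pow, sq_abs]

end quad

section gr

variable {M : Type} [MetricSpace M] [CompactSpace M] [MeasurableSpace M] [BorelSpace M]

theorem gr_sum {μ : Measure M} {D : Data M} (hD : D.IsSurf μ) {n : ℕ} (F : Fin n → M → ℝ)
    (hF : ∀ p, D.C1 (F p)) (c : Fin n → ℝ) (s : Finset (Fin n)) :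
    D.C1 (fun x => ∑ p ∈ s, c p * F p x) ∧
      ∀ x, D.gr (fun x => ∑ p ∈ s, c p * F p x) x = ∑ p ∈ s, c p • D.gr (F p) x := by
  classical
  have hlin := (tGr M μ D hD).2.2
  induction s using Finset.induction_on with
  | empty =>
    have h0 : D.C1 (fun _ : M => (0 : ℝ)) := fun _ => contDiffOn_const
    have h1 := (hlin _ _ h0 h0 0 0).2
    simp only [mul_zero, add_zero, zero_smul] at h1
    simp only [Finset.sum_empty]
    exact ⟨h0, h1⟩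
  | insert p s hp ih =>
    have h1 := hlin (F p) (fun x => ∑ p ∈ s, c p * F p x) (hF p) ih.1 (c p) 1
    simp only [one_mul, one_smul] at h1
    simp only [Finset.sum_insert hp]
    exact ⟨h1.1, fun x => by rw [h1.2 x, ih.2 x]⟩

end gr

section trial

variable {M : Type} [MetricSpace M] [CompactSpace M] [MeasurableSpace M] [BorelSpace M]
  [Nonempty M] {D : Data M} {A₀ A₁ : Fin D.N → ℂ → ℂ →L[ℝ] ℂ} {μ₀ μ₁ : Measure M}

theorem basis_eig {D : Data M} {μ : Measure M} {u : ℕ → M → ℝ} {G : ℕ → M → ℂ} {lam : ℕ → ℝ}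
    (h : IsEigenbasis D μ u G lam) : EigBasis D μ u lam := ⟨h.eig, h.mono, h.orth, h.total⟩

/-- trial functions -/
theorem trial (h₀ : (fr D A₀).IsSurf μ₀) (h₁ : (fr D A₁).IsSurf μ₁)
    (hρ : ∃ R, ∀ x, rho D A₀ A₁ x ≤ R) {u u₁ : ℕ → M → ℝ} {G : ℕ → M → ℂ}
    {lam lam₁ : ℕ → ℝ} (hb : IsEigenbasis (fr D A₀) μ₀ u G lam)
    (hb₁ : EigBasis (fr D A₁) μ₁ u₁ lam₁) (i : ℕ) (idx : Fin (i + 1) → ℕ) {q₁ : M → ℂ → ℝ}
    {q₂ : M → ℝ → ℝ} {C : ℝ} (hq₁ : QD μ₀ q₁ C) (hq₂ : QD μ₀ q₂ C)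
    (k₁ : ∀ F, D.C1 F → ∀ x, rho D A₀ A₁ x * ‖(fr D A₁).gr F x‖ ^ 2 ≤ q₁ x ((fr D A₀).gr F x))
    (k₂ : ∀ x w, q₂ x w ≤ rho D A₀ A₁ x * w ^ 2) (Λ : ℝ) (hΛ : 0 ≤ Λ) (η : ℝ) (hη : 0 < η)
    (k₃ : ∀ c : Fin (i + 1) → ℝ, ∫ x, q₁ x (∑ p, c p • G (idx p) x) ∂μ₀ + η * ∑ p, c p ^ 2 ≤
      Λ * (∫ x, q₂ x (∑ p, c p * u (idx p) x) ∂μ₀ - η * ∑ p, c p ^ 2))
    (k₄ : ∀ c : Fin (i + 1) → ℝ, c ≠ 0 →
      0 < ∫ x, q₂ x (∑ p, c p * u (idx p) x) ∂μ₀ - η * ∑ p, c p ^ 2) : lam₁ i ≤ Λ := by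
  obtain ⟨R, hR⟩ := hρ
  obtain ⟨hfin, -⟩ := tFin M μ₀ (fr D A₀) h₀
  haveI := hfin
  have hGr₀ := tGr M μ₀ (fr D A₀) h₀
  have hGr₁ := tGr M μ₁ (fr D A₁) h₁
  have hC := hq₁.nonneg
  set n : ℝ := ((i + 1 : ℕ) : ℝ) with hn
  -- bounds
  obtain ⟨MG, hMG0, hMG⟩ : ∃ MG : ℝ, 0 ≤ MG ∧ ∀ p : Fin (i + 1), ∫ x, ‖G (idx p) x‖ ^ 2 ∂μ₀ ≤ MG := by
    refine ⟨∑ p : Fin (i + 1), ∫ x, ‖G (idx p) x‖ ^ 2 ∂μ₀,
      Finset.sum_nonneg fun p _ => integral_nonneg fun x => sq_nonneg _, fun p => ?_⟩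
    exact Finset.single_le_sum (f := fun p : Fin (i + 1) => ∫ x, ‖G (idx p) x‖ ^ 2 ∂μ₀)
      (fun p _ => integral_nonneg fun x => sq_nonneg _) (Finset.mem_univ p)
  set Mx : ℝ := max MG 1 with hMx
  have hMx0 : 0 < Mx := lt_of_lt_of_le one_pos (le_max_right _ _)
  have hMxG : ∀ p : Fin (i + 1), ∫ x, ‖G (idx p) x‖ ^ 2 ∂μ₀ ≤ Mx := fun p =>
    (hMG p).trans (le_max_left _ _)
  have hMxu : ∀ p : Fin (i + 1), ∫ x, ‖u (idx p) x‖ ^ 2 ∂μ₀ ≤ Mx := fun p => by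
    have h1 := hb.orth (idx p) (idx p)
    rw [if_pos rfl] at h1
    have h2 : ∫ x, ‖u (idx p) x‖ ^ 2 ∂μ₀ = 1 := by
      rw [← h1]
      refine integral_congr_ae (Eventually.of_forall fun x => ?_)
      show ‖u (idx p) x‖ ^ 2 = u (idx p) x * u (idx p) x
      rw [Real.norm_eq_abs, sq_abs, sq]
    rw [h2]; exact le_max_right _ _
  set θ : ℝ := η / (4 * (C + 1) * n * Mx) with hθ
  have hnpos : (0 : ℝ) < n := by rw [hn]; positivity
  have hθ0 : 0 < θ := by positivity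
  set δ : ℝ := η / (4 * (C + 1) * (1 + 1 / θ) * n) with hδ
  have hδ0 : 0 < δ := by positivity
  -- approximation
  have happ : ∀ p : Fin (i + 1), ∃ F : M → ℝ, (fr D A₀).C1 F ∧
      ∫ x, ‖F x - u (idx p) x‖ ^ 2 ∂μ₀ ≤ δ ∧
      ∫ x, ‖(fr D A₀).gr F x - G (idx p) x‖ ^ 2 ∂μ₀ ≤ δ := by
    intro p
    obtain ⟨F, hF1, hF2, hF3⟩ := hb.grad (idx p)
    obtain ⟨k, hk1, hk2⟩ := ((hF2.eventually (gt_mem_nhds hδ0)).and
      (hF3.eventually (gt_mem_nhds hδ0))).exists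
    refine ⟨F k, hF1 k, ?_, hk2.le⟩
    simp only [Real.norm_eq_abs, sq_abs]
    exact hk1.le
  choose F hF1 hF2 hF3 using happ
  have hFm : ∀ F : M → ℝ, (fr D A₀).C1 F → MemLp F 2 μ₀ := by
    intro F hF
    have hc := (hGr₀.1 F hF).1
    obtain ⟨C', hC'⟩ := isCompact_univ.exists_bound_of_continuousOn hc.continuousOn
    exact MemLp.of_bound hc.aestronglyMeasurable C' (Eventually.of_forall fun x => hC' x (mem_univ x))
  have hgm : ∀ F : M → ℝ, (fr D A₀).C1 F → MemLp ((fr D A₀).gr F) 2 μ₀ := by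
    intro F hF
    obtain ⟨C', hC'⟩ := (hGr₀.1 F hF).2.2
    exact MemLp.of_bound (hGr₀.1 F hF).2.1.aestronglyMeasurable C' (Eventually.of_forall hC')
  -- general estimate
  have est : ∀ {E : Type} [NormedAddCommGroup E] [NormedSpace ℝ E] (q : M → E → ℝ), QD μ₀ q C →
      ∀ (X Y : Fin (i + 1) → M → E), (∀ p, MemLp (X p) 2 μ₀) → (∀ p, MemLp (Y p) 2 μ₀) →
      (∀ p, ∫ x, ‖X p x - Y p x‖ ^ 2 ∂μ₀ ≤ δ) → (∀ p, ∫ x, ‖Y p x‖ ^ 2 ∂μ₀ ≤ Mx) →
      ∀ c : Fin (i + 1) → ℝ, |∫ x, q x (∑ p, c p • X p x) ∂μ₀ - ∫ x, q x (∑ p, c p • Y p x) ∂μ₀| ≤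
        η * ∑ p, c p ^ 2 := by
    intro E _ _ q hq X Y hX hY h1 h2 c
    have mX : MemLp (fun x => ∑ p, c p • X p x) 2 μ₀ :=
      memLp_finset_sum _ fun p _ => (hX p).const_smul (c p)
    have mY : MemLp (fun x => ∑ p, c p • Y p x) 2 μ₀ :=
      memLp_finset_sum _ fun p _ => (hY p).const_smul (c p)
    refine (quad_near hq mX mY hθ0).trans ?_
    have gen : ∀ (Z : Fin (i + 1) → M → E) (r : ℝ), (∀ p, MemLp (Z p) 2 μ₀) →
        (∀ p, ∫ x, ‖Z p x‖ ^ 2 ∂μ₀ ≤ r) →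
        ∫ x, ‖∑ p, c p • Z p x‖ ^ 2 ∂μ₀ ≤ n * (r * ∑ p, c p ^ 2) := by
      intro Z r hZ hr
      have i1 : ∀ p : Fin (i + 1), Integrable (fun x => c p ^ 2 * ‖Z p x‖ ^ 2) μ₀ := fun p =>
        ((hZ p).norm.integrable_sq).const_mul _
      calc ∫ x, ‖∑ p, c p • Z p x‖ ^ 2 ∂μ₀ ≤ ∫ x, n * ∑ p, c p ^ 2 * ‖Z p x‖ ^ 2 ∂μ₀ := by
            refine integral_mono_of_nonneg (Eventually.of_forall fun x => sq_nonneg _)
              ((integrable_finset_sum _ fun p _ => i1 p).const_mul _)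
              (Eventually.of_forall fun x => sum_sq_le c fun p => Z p x)
        _ = n * ∑ p, c p ^ 2 * ∫ x, ‖Z p x‖ ^ 2 ∂μ₀ := by
            rw [integral_const_mul, integral_finset_sum _ fun p _ => i1 p]
            congr 1
            exact Finset.sum_congr rfl fun p _ => integral_const_mul _ _
        _ ≤ n * (r * ∑ p, c p ^ 2) := by
            refine mul_le_mul_of_nonneg_left ?_ hnpos.le
            rw [Finset.mul_sum]
            refine Finset.sum_le_sum fun p _ => ?_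
            rw [mul_comm r]
            exact mul_le_mul_of_nonneg_left (hr p) (sq_nonneg _)
    have e1 := gen (fun p x => X p x - Y p x) δ (fun p => (hX p).sub (hY p)) h1
    have e1' : ∫ x, ‖∑ p, c p • X p x - ∑ p, c p • Y p x‖ ^ 2 ∂μ₀ ≤ n * (δ * ∑ p, c p ^ 2) := by
      refine le_trans (le_of_eq ?_) e1
      refine integral_congr_ae (Eventually.of_forall fun x => ?_)
      simp only [smul_sub, Finset.sum_sub_distrib]
    have e2 := gen Y Mx hY h2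
    have hs : 0 ≤ ∑ p, c p ^ 2 := Finset.sum_nonneg fun p _ => sq_nonneg _
    have f1 : C * ((1 + 1 / θ) * (n * (δ * ∑ p, c p ^ 2))) ≤ η / 4 * ∑ p, c p ^ 2 := by
      have : (1 + 1 / θ) * (n * (δ * ∑ p, c p ^ 2)) = (η / (4 * (C + 1))) * ∑ p, c p ^ 2 := by
        rw [hδ]; field_simp
      rw [this, ← mul_assoc]
      refine mul_le_mul_of_nonneg_right ?_ hs
      rw [mul_div_assoc', div_le_div_iff₀ (by positivity) (by norm_num)]
      nlinarith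
    have f2 : C * (θ * (n * (Mx * ∑ p, c p ^ 2))) ≤ η / 4 * ∑ p, c p ^ 2 := by
      have : θ * (n * (Mx * ∑ p, c p ^ 2)) = (η / (4 * (C + 1))) * ∑ p, c p ^ 2 := by
        rw [hθ]; field_simp
      rw [this, ← mul_assoc]
      refine mul_le_mul_of_nonneg_right ?_ hs
      rw [mul_div_assoc', div_le_div_iff₀ (by positivity) (by norm_num)]
      nlinarith
    have hθ1 : 0 ≤ 1 + 1 / θ := by positivity
    have g1 := mul_le_mul_of_nonneg_left (mul_le_mul_of_nonneg_left e1' hθ1) hC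
    have g2 := mul_le_mul_of_nonneg_left (mul_le_mul_of_nonneg_left e2 hθ0.le) hC
    rw [mul_add]
    nlinarith
  -- the trial space
  have hC1 : ∀ c : Fin (i + 1) → ℝ, D.C1 (fun x => ∑ p, c p * F p x) := fun c =>
    (gr_sum h₀ F hF1 c Finset.univ).1
  have hgr₀ : ∀ (c : Fin (i + 1) → ℝ) x, (fr D A₀).gr (fun x => ∑ p, c p * F p x) x =
      ∑ p, c p • (fr D A₀).gr (F p) x := fun c => (gr_sum h₀ F hF1 c Finset.univ).2
  have hgr₁ : ∀ (c : Fin (i + 1) → ℝ) x, (fr D A₁).gr (fun x => ∑ p, c p * F p x) x =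
      ∑ p, c p • (fr D A₁).gr (F p) x := fun c => (gr_sum h₁ F hF1 c Finset.univ).2
  have hE : ∀ c : Fin (i + 1) → ℝ, ∫ x, ‖∑ p, c p • (fr D A₁).gr (F p) x‖ ^ 2 ∂μ₁ ≤
      ∫ x, q₁ x (∑ p, c p • G (idx p) x) ∂μ₀ + η * ∑ p, c p ^ 2 := by
    intro c
    have h2 : ∫ x, ‖∑ p, c p • (fr D A₁).gr (F p) x‖ ^ 2 ∂μ₁ ≤
        ∫ x, q₁ x (∑ p, c p • (fr D A₀).gr (F p) x) ∂μ₀ := by
      rw [mea_int h₀ h₁]
      refine integral_mono_of_nonneg (Eventually.of_forall fun x =>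
        mul_nonneg (rho_nonneg (D := D) h₀.cover x) (sq_nonneg _)) (quad_int hq₁
        (memLp_finset_sum _ fun p _ => (hgm _ (hF1 p)).const_smul (c p)))
        (Eventually.of_forall fun x => ?_)
      show rho D A₀ A₁ x * ‖∑ p, c p • (fr D A₁).gr (F p) x‖ ^ 2 ≤
        q₁ x (∑ p, c p • (fr D A₀).gr (F p) x)
      rw [← hgr₁, ← hgr₀]
      exact k₁ _ (hC1 c) x
    have h3 := est q₁ hq₁ (fun p => (fr D A₀).gr (F p)) (fun p => G (idx p))
      (fun p => hgm _ (hF1 p)) (fun p => hb.memG _) hF3 hMxG c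
    linarith [(abs_le.1 h3).2]
  have hB : ∀ c : Fin (i + 1) → ℝ, ∫ x, q₂ x (∑ p, c p * u (idx p) x) ∂μ₀ - η * ∑ p, c p ^ 2 ≤
      ∫ x, (∑ p, c p * F p x) ^ 2 ∂μ₁ := by
    intro c
    have mF : MemLp (fun x => ∑ p, c p * F p x) 2 μ₀ := hFm _ (hC1 c)
    have h2 : ∫ x, q₂ x (∑ p, c p * F p x) ∂μ₀ ≤ ∫ x, (∑ p, c p * F p x) ^ 2 ∂μ₁ := by
      rw [mea_int h₀ h₁]
      refine integral_mono (quad_int hq₂ mF) ?_ fun x => k₂ x _
      refine mF.integrable_sq.bdd_mul (c := R) (rho_meas h₀ h₁).aestronglyMeasurable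
        (Eventually.of_forall fun x => ?_)
      rw [Real.norm_eq_abs, abs_of_nonneg (rho_nonneg (D := D) h₀.cover x)]
      exact hR x
    have h3 := est q₂ hq₂ F (fun p => u (idx p)) (fun p => hFm _ (hF1 p))
      (fun p => (hb.eig _).mem) hF2 hMxu c
    simp only [smul_eq_mul] at h3
    linarith [(abs_le.1 h3).1]
  refine mm_upper μ₁ (fr D A₁) h₁ u₁ lam₁ hb₁ i F hF1 Λ hΛ (fun c hc => ?_) fun c => ?_
  · exact lt_of_lt_of_le (k₄ c hc) (hB c)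
  · exact (hE c).trans ((k₃ c).trans (mul_le_mul_of_nonneg_left (hB c) hΛ))

end trial

end Pool.Agent.J4.H45.PS
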